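import Pool.Agent.DF49E3.Defs

/-!
# MP_df49e3, package P5i: odd + even = odd (helper93)
-/

set_option autoImplicit false

namespace Pool.Agent.DF49E3

open PowerSeries

namespace P5i

variable {k : Type*} [Field k]

/-! ### Regular functions at `1` -/

theorem aM_ne {D : Polynomial k} (h : D.eval 1 ≠ 0) :
    algebraMap (Polynomial k) (RatFunc k) D ≠ 0 := by
  intro h0
  have : D = 0 := by
    apply IsFractionRing.injective (Polynomial k) (RatFunc k)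
    rw [h0, map_zero]
  rw [this] at h
  simp at h

theorem Ev.add {r₁ r₂ : RatFunc k} {c₁ c₂ : k} (h₁ : Ev r₁ c₁) (h₂ : Ev r₂ c₂) :
    Ev (r₁ + r₂) (c₁ + c₂) := by
  obtain ⟨N₁, D₁, hD₁, e₁, v₁⟩ := h₁
  obtain ⟨N₂, D₂, hD₂, e₂, v₂⟩ := h₂
  refine ⟨N₁ * D₂ + N₂ * D₁, D₁ * D₂, ?_, ?_, ?_⟩
  · rw [Polynomial.eval_mul]; exact mul_ne_zero hD₁ hD₂
  · rw [e₁, e₂, map_add, map_mul, map_mul, map_mul, div_add_div _ _ (aM_ne hD₁) (aM_ne hD₂)]
    ring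
  · simp only [Polynomial.eval_add, Polynomial.eval_mul]
    rw [v₁, v₂]; ring

theorem Ev.mul {r₁ r₂ : RatFunc k} {c₁ c₂ : k} (h₁ : Ev r₁ c₁) (h₂ : Ev r₂ c₂) :
    Ev (r₁ * r₂) (c₁ * c₂) := by
  obtain ⟨N₁, D₁, hD₁, e₁, v₁⟩ := h₁
  obtain ⟨N₂, D₂, hD₂, e₂, v₂⟩ := h₂
  refine ⟨N₁ * N₂, D₁ * D₂, ?_, ?_, ?_⟩
  · rw [Polynomial.eval_mul]; exact mul_ne_zero hD₁ hD₂
  · rw [e₁, e₂, map_mul, map_mul, div_mul_div_comm]
  · simp only [Polynomial.eval_mul]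
    rw [v₁, v₂]; ring

theorem Ev.inv {r : RatFunc k} {c : k} (h : Ev r c) (hc : c ≠ 0) : Ev r⁻¹ c⁻¹ := by
  obtain ⟨N, D, hD, e, v⟩ := h
  refine ⟨D, N, ?_, ?_, ?_⟩
  · rw [v]; exact mul_ne_zero hc hD
  · rw [e, inv_div]
  · rw [v, ← mul_assoc, inv_mul_cancel₀ hc, one_mul]

theorem Ev.const (c : k) : Ev (RatFunc.C c) c := by
  refine ⟨Polynomial.C c, 1, by simp, ?_, by simp⟩
  rw [map_one, div_one, RatFunc.algebraMap_C]

theorem Ev.one : Ev (1 : RatFunc k) 1 := ⟨1, 1, by simp, by simp, by simp⟩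

theorem Ev.X : Ev (RatFunc.X : RatFunc k) 1 := by
  refine ⟨Polynomial.X, 1, by simp, ?_, by simp⟩
  rw [map_one, div_one, RatFunc.algebraMap_X]

theorem Ev.neg {r : RatFunc k} {c : k} (h : Ev r c) : Ev (-r) (-c) := by
  obtain ⟨N, D, hD, e, v⟩ := h
  refine ⟨-N, D, hD, ?_, ?_⟩
  · rw [e, map_neg, neg_div]
  · rw [Polynomial.eval_neg, v, neg_mul]

theorem Ev.sub {r₁ r₂ : RatFunc k} {c₁ c₂ : k} (h₁ : Ev r₁ c₁) (h₂ : Ev r₂ c₂) :
    Ev (r₁ - r₂) (c₁ - c₂) := by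
  rw [sub_eq_add_neg, sub_eq_add_neg]
  exact Ev.add h₁ (Ev.neg h₂)

theorem Ev.congr {r r' : RatFunc k} {c c' : k} (h : Ev r c) (hr : r = r') (hc : c = c') :
    Ev r' c' := by
  rw [← hr, ← hc]; exact h

theorem Ev.unique {r : RatFunc k} {c c' : k} (h : Ev r c) (h' : Ev r c') : c = c' := by
  obtain ⟨N, D, hD, e, v⟩ := h
  obtain ⟨N', D', hD', e', v'⟩ := h'
  have h1 : N * D' = N' * D := by
    apply IsFractionRing.injective (Polynomial k) (RatFunc k)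
    rw [map_mul, map_mul]
    rw [e, div_eq_div_iff (aM_ne hD) (aM_ne hD')] at e'
    exact e'
  have h2 := congrArg (Polynomial.eval 1) h1
  simp only [Polynomial.eval_mul] at h2
  rw [v, v'] at h2
  have h3 : (c - c') * (D.eval 1 * D'.eval 1) = 0 := by linear_combination h2
  rcases mul_eq_zero.1 h3 with h | h
  · exact sub_eq_zero.1 h
  · exact absurd h (mul_ne_zero hD hD')

/-- if `s²` is regular at `1`, so is `s` -/
theorem Ev.of_sq {s : RatFunc k} {c : k} (h : Ev (s ^ 2) c) : ∃ σ, Ev s σ := by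
  obtain ⟨N, D, hD, e, v⟩ := h
  have hd0 : s.denom ≠ 0 := s.denom_ne_zero
  by_cases hd : s.denom.eval 1 = 0
  · exfalso
    have h1 : s.num ^ 2 * D = N * s.denom ^ 2 := by
      apply IsFractionRing.injective (Polynomial k) (RatFunc k)
      rw [map_mul, map_mul, map_pow, map_pow]
      have h2 : algebraMap (Polynomial k) (RatFunc k) s.denom ≠ 0 := by
        intro h0
        apply hd0
        apply IsFractionRing.injective (Polynomial k) (RatFunc k)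
        rw [h0, map_zero]
      have h3 := s.num_div_denom
      rw [← h3, div_pow, div_eq_div_iff (pow_ne_zero 2 h2) (aM_ne hD)] at e
      simpa only [RatFunc.num_div_denom] using e
    have h2 := congrArg (Polynomial.eval 1) h1
    simp only [Polynomial.eval_mul, Polynomial.eval_pow] at h2
    rw [hd] at h2
    have h3 : s.num.eval 1 = 0 := by
      have h4 : s.num.eval 1 ^ 2 * D.eval 1 = 0 := by rw [h2]; ring
      rcases mul_eq_zero.1 h4 with h | h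
      · exact pow_eq_zero_iff (two_ne_zero) |>.1 h
      · exact absurd h hD
    obtain ⟨u, v', huv⟩ := s.isCoprime_num_denom
    have h5 := congrArg (Polynomial.eval 1) huv
    simp [h3, hd] at h5
  · refine ⟨s.num.eval 1 / s.denom.eval 1, s.num, s.denom, hd, s.num_div_denom.symm, ?_⟩
    field_simp

/-! ### `WX a` is not a square -/

theorem WX_eq (a : k) : WX a = algebraMap (Polynomial k) (RatFunc k)
    (1 - Polynomial.C (2 * a) * Polynomial.X + Polynomial.X ^ 2) := by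
  unfold WX
  simp only [map_add, map_sub, map_one, map_mul, map_pow, RatFunc.algebraMap_C,
    RatFunc.algebraMap_X]

theorem WX_ne_sq [CharZero k] {a : k} (ha : a ^ 2 ≠ 1) (g : RatFunc k) : g ^ 2 ≠ WX a := by
  intro hg
  set P : Polynomial k := 1 - Polynomial.C (2 * a) * Polynomial.X + Polynomial.X ^ 2 with hP
  have hd0 : g.denom ≠ 0 := g.denom_ne_zero
  have h1 : g.num ^ 2 = P * g.denom ^ 2 := by
    apply IsFractionRing.injective (Polynomial k) (RatFunc k)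
    rw [map_mul, map_pow, map_pow]
    have h2 : algebraMap (Polynomial k) (RatFunc k) g.denom ≠ 0 := by
      intro h0
      apply hd0
      apply IsFractionRing.injective (Polynomial k) (RatFunc k)
      rw [h0, map_zero]
    rw [WX_eq] at hg
    have h3 := g.num_div_denom
    rw [← h3, div_pow, div_eq_iff (pow_ne_zero 2 h2)] at hg
    simpa only [RatFunc.num_div_denom] using hg
  have hcop : IsCoprime (g.num ^ 2) g.denom := g.isCoprime_num_denom.pow_left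
  have hunit : IsUnit g.denom := by
    apply hcop.isUnit_of_dvd' _ dvd_rfl
    rw [h1]
    exact Dvd.dvd.mul_left (dvd_pow_self _ two_ne_zero) _
  obtain ⟨e, he, he'⟩ := Polynomial.isUnit_iff.1 hunit
  have he0 : e ≠ 0 := he.ne_zero
  rw [← he'] at h1
  have hdegP : P.natDegree = 2 := by
    rw [hP]
    compute_degree!
  have hdeg : g.num.natDegree ≤ 1 := by
    have h2 := congrArg Polynomial.natDegree h1
    rw [Polynomial.natDegree_pow, ← Polynomial.C_pow, Polynomial.natDegree_mul_C (by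
      exact pow_ne_zero 2 he0), hdegP] at h2
    omega
  obtain ⟨α, β, hN⟩ : ∃ α β : k, g.num = Polynomial.C α * Polynomial.X + Polynomial.C β :=
    ⟨_, _, Polynomial.eq_X_add_C_of_natDegree_le_one hdeg⟩
  rw [hN] at h1
  have c0 := congrArg (Polynomial.eval 0) h1
  have c1 := congrArg (Polynomial.eval 1) h1
  have c2 := congrArg (Polynomial.eval (-1)) h1
  simp [hP] at c0 c1 c2
  -- β² = e², (α+β)² = (2-2a)e², (β-α)² = (2+2a)e²
  apply ha
  have h5 : 2 * α ^ 2 + 2 * β ^ 2 = 4 * e ^ 2 := by linear_combination c1 + c2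
  have h6 : α ^ 2 = e ^ 2 := by
    have : (2 : k) ≠ 0 := two_ne_zero
    apply mul_left_cancel₀ this
    linear_combination h5 - 2 * c0
  have h7 : 4 * (α * β) = -(4 * a * e ^ 2) := by linear_combination c1 - c2
  have h8 : 16 * e ^ 4 * (a ^ 2 - 1) = 0 := by
    linear_combination (4 * (α * β) - 4 * a * e ^ 2) * (-h7) + 16 * β ^ 2 * h6 + 16 * e ^ 2 * c0
  rcases mul_eq_zero.1 h8 with h | h
  · exfalso
    have h16 : (16 : k) ≠ 0 := by norm_num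
    rcases mul_eq_zero.1 h with h | h
    · exact h16 h
    · exact he0 (pow_eq_zero_iff (by norm_num) |>.1 h)
  · exact sub_eq_zero.1 h

/-! ### The embedding `jj` -/

theorem alg_C (c : k) : algebraMap k⟦X⟧ (FractionRing k⟦X⟧) (C c) =
    algebraMap k (FractionRing k⟦X⟧) c := by
  rw [IsScalarTower.algebraMap_apply k k⟦X⟧ (FractionRing k⟦X⟧)]
  rfl

theorem jj_C (c : k) : jj (RatFunc.C c) = algebraMap k⟦X⟧ (FractionRing k⟦X⟧) (C c) := by
  rw [alg_C, ← RatFunc.algebraMap_eq_C]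
  exact (jj (k := k)).commutes c

theorem jj_W {a : k} {w : k⟦X⟧} (hb : Base a w) :
    jj (WX a) = algebraMap k⟦X⟧ (FractionRing k⟦X⟧) w ^ 2 := by
  rw [← map_pow, hb.w2]
  unfold WX
  have h1 : algebraMap k⟦X⟧ (FractionRing k⟦X⟧) (1 - C (2 * a) * X ^ 2 + X ^ 4) =
      1 - algebraMap k⟦X⟧ (FractionRing k⟦X⟧) (C (2 * a)) *
        algebraMap k⟦X⟧ (FractionRing k⟦X⟧) X ^ 2 +
        algebraMap k⟦X⟧ (FractionRing k⟦X⟧) X ^ 4 := by
    rw [map_add, map_sub, map_one, map_mul (algebraMap k⟦X⟧ (FractionRing k⟦X⟧)), map_pow,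
      map_pow]
  rw [h1, map_add, map_sub, map_one, map_mul (jj (k := k)), map_pow (jj (k := k)), jj_X, jj_C]
  ring

/-- the quartic relation for `f = R²` in `RatFunc` -/
theorem quartic_rat {a : k} {w : k⟦X⟧} {α : k} {R S : k⟦X⟧} (h : Sol a w α R S)
    {f g : RatFunc k} (hf : jj f = algebraMap k⟦X⟧ (FractionRing k⟦X⟧) R ^ 2)
    (hg : jj g = algebraMap k⟦X⟧ (FractionRing k⟦X⟧) S ^ 2) :
    g = 1 - RatFunc.C (2 * a) * f + f ^ 2 := by
  apply jj_injective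
  rw [hg, map_add, map_sub, map_one, map_mul (jj (k := k)), map_pow (jj (k := k)), jj_C, hf,
    ← map_pow, h.quartic, map_add, map_sub, map_one, map_mul, map_pow, map_pow]
  ring

theorem iota_C (c : k) : iota (RatFunc.C c) = RatFunc.C c := by
  rw [← RatFunc.algebraMap_eq_C]
  exact (iota (k := k)).commutes c

theorem iota_WX (a : k) : iota (WX a) = WX a / RatFunc.X ^ 2 := by
  have hX : (RatFunc.X : RatFunc k) ≠ 0 := RatFunc.X_ne_zero
  unfold WX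
  rw [map_add, map_sub, map_one, map_mul (iota (k := k)), map_pow, iota_X, iota_C]
  field_simp
  ring

/-! ### Algebraic identities -/

theorem alg_ir {x W t r₁ r₂ s₁ s₂ f₁ f₂ : RatFunc k} (hf₁ : f₁ = x * r₁ ^ 2)
    (hf₂ : f₂ = x * W * r₂ ^ 2) (E₁ : W * s₁ ^ 2 = 1 - t * f₁ + f₁ ^ 2)
    (E₂ : s₂ ^ 2 = 1 - t * f₂ + f₂ ^ 2) :
    x * (r₁ * s₂ - W * r₂ * s₁) * (r₁ * s₂ + W * r₂ * s₁) = (f₁ - f₂) * (1 - f₁ * f₂) := by
  subst hf₁ hf₂
  linear_combination (x * r₁ ^ 2) * E₂ - (x * W * r₂ ^ 2) * E₁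

theorem alg_is {x W t r₁ r₂ s₁ s₂ f₁ f₂ : RatFunc k} (hf₁ : f₁ = x * r₁ ^ 2)
    (hf₂ : f₂ = x * W * r₂ ^ 2) (E₁ : W * s₁ ^ 2 = 1 - t * f₁ + f₁ ^ 2)
    (E₂ : s₂ ^ 2 = 1 - t * f₂ + f₂ ^ 2) :
    x * ((s₁ * s₂ + t * (x * r₁ * r₂)) * (f₁ + f₂) - 2 * (x * r₁ * r₂) * (1 + f₁ * f₂)) *
        (r₁ * s₂ + W * r₂ * s₁) ^ 2 =
      ((s₁ * s₂ - t * (x * r₁ * r₂)) * (1 + f₁ * f₂) + 2 * (x * r₁ * r₂) * (f₁ + f₂)) *
        (f₁ - f₂) ^ 2 := by
  have hu : x * (r₁ * s₂ + W * r₂ * s₁) ^ 2 =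
      (f₁ + f₂) * (1 + f₁ * f₂) - 2 * t * f₁ * f₂ + 2 * W * (x * r₁ * r₂) * (s₁ * s₂) := by
    subst hf₁ hf₂
    linear_combination (x * r₁ ^ 2) * E₂ + (x * W * r₂ ^ 2) * E₁
  have hWP : W * (s₁ * s₂) ^ 2 = (1 - t * f₁ + f₁ ^ 2) * (1 - t * f₂ + f₂ ^ 2) := by
    linear_combination s₂ ^ 2 * E₁ + (1 - t * f₁ + f₁ ^ 2) * E₂
  have hWm : W * (x * r₁ * r₂) ^ 2 = f₁ * f₂ := by
    subst hf₁ hf₂
    ring
  generalize x * r₁ * r₂ = m at hu hWm ⊢
  linear_combination ((s₁ * s₂ + t * m) * (f₁ + f₂) - 2 * m * (1 + f₁ * f₂)) * hu +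
    2 * (f₁ + f₂) * m * hWP + 2 * (s₁ * s₂) * (t * (f₁ + f₂) - 2 * (1 + f₁ * f₂)) * hWm

end P5i

open P5i

/-- P5i: odd + even = odd. -/
theorem OddS.add_even {k : Type*} [Field k] [CharZero k] {a : k} (ha : a ^ 2 ≠ 1) {w : k⟦X⟧}
    (hb : Base a w) {α β γ : k}
    {R₁ S₁ R₂ S₂ R₃ S₃ : k⟦X⟧}
    (h₁ : Sol a w α R₁ S₁) (h₂ : Sol a w β R₂ S₂) (h₃ : Sol a w γ R₃ S₃)
    (hR₃ : R₃ * (1 - R₁ ^ 2 * R₂ ^ 2) = R₁ * S₂ + R₂ * S₁)
    (hS₃ : S₃ * (1 - R₁ ^ 2 * R₂ ^ 2) ^ 2 =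
        (S₁ * S₂ - C (2 * a) * R₁ * R₂) * (1 + R₁ ^ 2 * R₂ ^ 2) +
          2 * R₁ * R₂ * (R₁ ^ 2 + R₂ ^ 2))
    {r₁ s₁ r₂ s₂ : RatFunc k} {ρ c : k} (k₁ : OddS w R₁ S₁ r₁ s₁ ρ)
    (k₂ : EvenS a w R₂ S₂ r₂ s₂ c) :
    ∃ r₃ s₃, OddS w R₃ S₃ r₃ s₃ (ρ * c) := by
  have hX : (RatFunc.X : RatFunc k) ≠ 0 := RatFunc.X_ne_zero
  have hr₁ : r₁ ≠ 0 := by
    intro h
    have := k₁.ir
    rw [h, mul_zero] at this
    exact zero_ne_one this
  -- abbreviations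
  obtain ⟨x, hx⟩ : ∃ x : RatFunc k, x = RatFunc.X := ⟨_, rfl⟩
  obtain ⟨W, hW⟩ : ∃ W : RatFunc k, W = WX a := ⟨_, rfl⟩
  obtain ⟨t, ht⟩ : ∃ t : RatFunc k, t = RatFunc.C (2 * a) := ⟨_, rfl⟩
  set f₁ : RatFunc k := x * r₁ ^ 2 with hf₁
  set f₂ : RatFunc k := x * W * r₂ ^ 2 with hf₂
  have hx0 : x ≠ 0 := by rw [hx]; exact hX
  set J := algebraMap k⟦X⟧ (FractionRing k⟦X⟧) with hJ
  have jx : jj x = J X ^ 2 := by rw [hx, jj_X]
  have jW : jj W = J w ^ 2 := by rw [hW, jj_W hb]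
  have jt : jj t = J (C (2 * a)) := by rw [ht, jj_C]
  have jf₁ : jj f₁ = J R₁ ^ 2 := by
    rw [hf₁, map_mul, map_pow, jx, k₁.hR]; ring
  have jf₂ : jj f₂ = J R₂ ^ 2 := by
    rw [hf₂, map_mul, map_mul, map_pow, jx, jW, k₂.hR, map_mul]; ring
  have js₁ : jj (W * s₁ ^ 2) = J S₁ ^ 2 := by
    rw [map_mul, map_pow, jW, k₁.hS]; ring
  have js₂ : jj (s₂ ^ 2) = J S₂ ^ 2 := by
    rw [map_pow, k₂.hS]
  have E₁ : W * s₁ ^ 2 = 1 - t * f₁ + f₁ ^ 2 := by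
    rw [ht]; exact quartic_rat h₁ jf₁ js₁
  have E₂ : s₂ ^ 2 = 1 - t * f₂ + f₂ ^ 2 := by
    rw [ht]; exact quartic_rat h₂ jf₂ js₂
  -- the denominator
  have hden : (1 : RatFunc k) - f₁ * f₂ ≠ 0 := by
    intro h
    have h1 : jj (1 - f₁ * f₂) = J (1 - R₁ ^ 2 * R₂ ^ 2) := by
      rw [map_sub, map_one, map_mul (jj (k := k)), jf₁, jf₂, map_sub, map_one, map_mul, map_pow,
        map_pow]
    rw [h, map_zero] at h1
    have h2 : (1 : k⟦X⟧) - R₁ ^ 2 * R₂ ^ 2 = 0 := by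
      apply IsFractionRing.injective k⟦X⟧ (FractionRing k⟦X⟧)
      rw [← hJ, ← h1, map_zero]
    have h3 := congrArg (constantCoeff (R := k)) h2
    simp [h₁.R0] at h3
  have jden : jj (1 - f₁ * f₂) = J (1 - R₁ ^ 2 * R₂ ^ 2) := by
    rw [map_sub, map_one, map_mul (jj (k := k)), jf₁, jf₂, map_sub, map_one, map_mul, map_pow,
      map_pow]
  have hJden : J (1 - R₁ ^ 2 * R₂ ^ 2) ≠ 0 := by
    rw [← jden]
    intro h
    exact hden (jj_injective (by rw [h, map_zero]))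
  -- `f₁ ≠ f₂`
  have hne : f₁ - f₂ ≠ 0 := by
    intro h
    have h1 : r₁ ^ 2 = W * r₂ ^ 2 := by
      apply mul_left_cancel₀ hx0
      rw [hf₁, hf₂] at h
      linear_combination h
    have hr₂ : r₂ ≠ 0 := by
      rintro rfl
      apply hr₁
      rw [zero_pow two_ne_zero, mul_zero] at h1
      exact pow_eq_zero_iff two_ne_zero |>.1 h1
    apply WX_ne_sq ha (r₁ / r₂)
    rw [div_pow, h1, ← hW]
    field_simp
  -- the action of `iota`
  have ix : iota x = x⁻¹ := by rw [hx, iota_X]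
  have iW : iota W = W / x ^ 2 := by rw [hW, hx, iota_WX]
  have it : iota t = t := by rw [ht, iota_C]
  have ir₁ : iota r₁ = r₁⁻¹ := eq_inv_of_mul_eq_one_left k₁.ir
  have is₁ : iota s₁ = s₁ / r₁ ^ 2 := by
    rw [eq_div_iff (pow_ne_zero 2 hr₁)]; exact k₁.is
  have ir₂ : iota r₂ = - x ^ 2 * r₂ := by rw [hx]; exact k₂.ir
  have is₂ : iota s₂ = s₂ := k₂.is
  have if₁ : iota f₁ = f₁⁻¹ := by
    rw [hf₁, map_mul, map_pow, ix, ir₁]
    field_simp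
  have if₂ : iota f₂ = f₂ := by
    rw [hf₂, map_mul, map_mul, map_pow, ix, iW, ir₂]
    field_simp
  have hf₁0 : f₁ ≠ 0 := mul_ne_zero hx0 (pow_ne_zero 2 hr₁)
  have key_ir := alg_ir hf₁ hf₂ E₁ E₂
  have key_is := alg_is hf₁ hf₂ E₁ E₂
  refine ⟨(r₁ * s₂ + W * r₂ * s₁) / (1 - f₁ * f₂),
    ((s₁ * s₂ - t * (x * r₁ * r₂)) * (1 + f₁ * f₂) + 2 * (x * r₁ * r₂) * (f₁ + f₂)) /
      (1 - f₁ * f₂) ^ 2, ?_, ?_, ?_, ?_, ?_, ?_⟩
  · -- hR
    have h1 : J R₃ * J (1 - R₁ ^ 2 * R₂ ^ 2) = J R₁ * J S₂ + J R₂ * J S₁ := by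
      rw [← map_mul, hR₃, map_add, map_mul, map_mul]
    rw [map_div₀, jden, mul_div_assoc', eq_div_iff hJden, h1, map_add, map_mul (jj (k := k)),
      map_mul (jj (k := k)), map_mul (jj (k := k)), jW, k₁.hR, k₂.hR, k₁.hS, k₂.hS,
      map_mul (algebraMap k⟦X⟧ (FractionRing k⟦X⟧))]
    ring
  · -- hS
    have h1 : J S₃ * J (1 - R₁ ^ 2 * R₂ ^ 2) ^ 2 =
        (J S₁ * J S₂ - J (C (2 * a)) * J R₁ * J R₂) * (1 + J R₁ ^ 2 * J R₂ ^ 2) +
          2 * J R₁ * J R₂ * (J R₁ ^ 2 + J R₂ ^ 2) := by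
      have h2 := congrArg J hS₃
      simpa only [map_mul, map_add, map_sub, map_pow, map_one, map_ofNat] using h2
    rw [map_div₀, map_pow (jj (k := k)), jden, mul_div_assoc',
      eq_div_iff (pow_ne_zero 2 hJden), h1]
    simp only [map_add (jj (k := k)), map_sub (jj (k := k)), map_mul (jj (k := k)),
      map_one, map_ofNat, jf₁, jf₂, jx, jt]
    rw [k₁.hR, k₂.hR, k₁.hS, k₂.hS, map_mul (algebraMap k⟦X⟧ (FractionRing k⟦X⟧))]
    ring
  · -- ir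
    have hd1 : (1 : RatFunc k) - f₁⁻¹ * f₂ ≠ 0 := by
      intro h
      apply hne
      field_simp at h
      rw [mul_zero] at h
      exact h
    have h1 : iota ((r₁ * s₂ + W * r₂ * s₁) / (1 - f₁ * f₂)) =
        x * (r₁ * s₂ - W * r₂ * s₁) / (f₁ - f₂) := by
      rw [map_div₀, map_add, map_sub, map_one, map_mul, map_mul, map_mul, map_mul, ir₁, is₂, iW,
        ir₂, is₁, if₁, if₂, div_eq_div_iff hd1 hne]
      have hxr : f₁ = x * r₁ ^ 2 := hf₁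
      have h2 : (1 : RatFunc k) - f₁⁻¹ * f₂ = (f₁ - f₂) / (x * r₁ ^ 2) := by
        rw [← hxr]
        field_simp
      rw [h2]
      field_simp
      ring
    rw [h1, div_mul_div_comm, key_ir, div_self (mul_ne_zero hne hden)]
  · -- is
    have h1 : iota (((s₁ * s₂ - t * (x * r₁ * r₂)) * (1 + f₁ * f₂) +
        2 * (x * r₁ * r₂) * (f₁ + f₂)) / (1 - f₁ * f₂) ^ 2) =
        x * ((s₁ * s₂ + t * (x * r₁ * r₂)) * (f₁ + f₂) - 2 * (x * r₁ * r₂) * (1 + f₁ * f₂)) /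
          (f₁ - f₂) ^ 2 := by
      have hxr : f₁ = x * r₁ ^ 2 := hf₁
      have h2 : (1 : RatFunc k) - f₁⁻¹ * f₂ = (f₁ - f₂) / (x * r₁ ^ 2) := by
        rw [← hxr]
        field_simp
      have h3 : f₁⁻¹ = (x * r₁ ^ 2)⁻¹ := by rw [← hxr]
      simp only [map_div₀, map_pow (iota (k := k)), map_add (iota (k := k)),
        map_sub (iota (k := k)), map_mul (iota (k := k)), map_one, map_ofNat, ir₁, is₂, ir₂, is₁,
        if₁, if₂, ix, it]
      rw [h2, h3, div_pow, div_div_eq_mul_div, div_eq_div_iff (pow_ne_zero 2 hne)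
        (pow_ne_zero 2 hne)]
      field_simp
      ring
    rw [h1, div_pow, div_mul_div_comm, key_is]
    field_simp
  · -- ev
    obtain ⟨D, d, A, B, hDd, hDs, hDr, hDB, hdB, hA⟩ := k₂.ev
    rw [← hx, ← hW, ← hf₂] at hDB
    have ha1 : (1 : k) - 2 * a + 1 ≠ 0 := by
      intro h
      apply ha
      have h2 : (2 : k) ≠ 0 := two_ne_zero
      have h3 : a = 1 := by
        apply mul_left_cancel₀ h2
        linear_combination -h
      rw [h3, one_pow]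
    have ex : Ev x 1 := by rw [hx]; exact Ev.X
    have et : Ev t (2 * a) := by rw [ht]; exact Ev.const _
    have eW : Ev W (1 - 2 * a + 1) := by
      rw [hW]
      unfold WX
      exact Ev.congr (Ev.add (Ev.sub Ev.one (Ev.mul (Ev.const (2 * a)) Ev.X))
        (Ev.mul Ev.X Ev.X)) (by ring) (by ring)
    have ef₁ : Ev f₁ 1 :=
      Ev.congr (Ev.mul ex (Ev.mul k₁.ev k₁.ev)) (by rw [hf₁]; ring)
        (by rw [one_mul, ← pow_two, k₁.sq])
    have eWs : Ev (W * s₁ ^ 2) (1 - 2 * a + 1) := by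
      rw [E₁]
      exact Ev.congr (Ev.add (Ev.sub Ev.one (Ev.mul et ef₁)) (Ev.mul ef₁ ef₁)) (by ring)
        (by ring)
    have hW0 : W ≠ 0 := by
      intro h
      rw [h] at eW
      exact ha1 (Ev.unique eW (Ev.congr (Ev.const 0) (map_zero _) rfl))
    have es₁ : Ev (s₁ ^ 2) ((1 - 2 * a + 1) * (1 - 2 * a + 1)⁻¹) :=
      Ev.congr (Ev.mul eWs (Ev.inv eW ha1)) (by field_simp) rfl
    obtain ⟨σ, eσ⟩ := Ev.of_sq es₁
    have e0 : Ev (0 : RatFunc k) 0 := Ev.congr (Ev.const 0) (map_zero _) rfl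
    have hD0 : D ≠ 0 := by
      intro h
      rw [h] at hDd hDB
      rw [zero_mul] at hDB
      exact hdB (by rw [Ev.unique hDd e0, Ev.unique hDB e0, sub_zero])
    have enum : Ev (r₁ * (D * s₂) + W * (D * r₂) * s₁) (ρ * A + (1 - 2 * a + 1) * 0 * σ) :=
      Ev.add (Ev.mul k₁.ev hDs) (Ev.mul (Ev.mul eW hDr) eσ)
    have eden : Ev (D - f₁ * (D * f₂)) (d - 1 * B) := Ev.sub hDd (Ev.mul ef₁ hDB)
    have hd1 : d - 1 * B ≠ 0 := by rwa [one_mul]
    refine Ev.congr (Ev.mul enum (Ev.inv eden hd1)) ?_ ?_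
    · have h1 : D - f₁ * (D * f₂) = D * (1 - f₁ * f₂) := by ring
      have h2 : r₁ * (D * s₂) + W * (D * r₂) * s₁ = D * (r₁ * s₂ + W * r₂ * s₁) := by ring
      rw [h1, h2, ← div_eq_mul_inv, mul_div_mul_left _ _ hD0]
    · rw [hA]
      field_simp
      ring
  · rw [mul_pow, k₁.sq, k₂.sq, one_mul]

end Pool.Agent.DF49E3
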