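import Mathlib

set_option autoImplicit false

/-!
Definitions for the congruence of `P_{(p-1)/2}(7√-15 + 16√-3)` modulo `p²`.
-/

namespace Pool.Agent.DF49E3

open PowerSeries

section Sol

variable {A : Type*} [CommRing A]

/-- `w` is the square root of `1 - 2 a v² + v⁴` with constant term `1`. -/
structure Base (a : A) (w : A⟦X⟧) : Prop where
  w0 : constantCoeff w = 1
  w2 : w ^ 2 = 1 - C (2 * a) * X ^ 2 + X ^ 4

/-- The pair `(R, S)` is the image of the generic point `(v, w)` of `w² = 1 - 2 a v² + v⁴` under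
multiplication by `α`. -/
structure Sol (a : A) (w : A⟦X⟧) (α : A) (R S : A⟦X⟧) : Prop where
  R0 : constantCoeff R = 0
  S0 : constantCoeff S = 1
  quartic : S ^ 2 = 1 - C (2 * a) * R ^ 2 + R ^ 4
  ode : w * derivative A R = C α * S

end Sol

section Legendre

/-- The value of the `n`-th Legendre polynomial at `a`. -/
def legSum {K : Type*} [Field K] (n : ℕ) (a : K) : K :=
  ∑ k ∈ Finset.range (n + 1), (n.choose k : K) * ((n + k).choose k : K) * ((a - 1) / 2) ^ k

end Legendre

section Rat

variable {k : Type*} [Field k]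

/-- The height (degree) of a rational function. -/
noncomputable def ht (f : RatFunc k) : ℕ := max f.num.natDegree f.denom.natDegree

/-- Composition `f ↦ f(g)` with a transcendental rational function `g`. -/
noncomputable def cmp (g : RatFunc k) (hg : Transcendental k g) : RatFunc k →ₐ[k] RatFunc k :=
  (IntermediateField.val _).comp (RatFunc.algEquivOfTranscendental g hg).toAlgHom

theorem cmp_X (g : RatFunc k) (hg : Transcendental k g) : cmp g hg RatFunc.X = g := by
  simp [cmp]

theorem transcendental_inv : Transcendental k (RatFunc.X⁻¹ : RatFunc k) := by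
  intro h
  have : IsAlgebraic k (RatFunc.X : RatFunc k) := by
    have := h.inv
    simpa using this
  exact RatFunc.transcendental_X this

/-- The automorphism `X ↦ 1/X`. -/
noncomputable def iota : RatFunc k →ₐ[k] RatFunc k := cmp (RatFunc.X⁻¹) transcendental_inv

theorem iota_X : iota (RatFunc.X : RatFunc k) = RatFunc.X⁻¹ := cmp_X _ _

/-- `Ev r c`: the rational function `r` is regular at `X = 1` with value `c`. -/
def Ev (r : RatFunc k) (c : k) : Prop :=
  ∃ N D : Polynomial k, D.eval 1 ≠ 0 ∧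
    r = algebraMap (Polynomial k) (RatFunc k) N / algebraMap (Polynomial k) (RatFunc k) D ∧
    N.eval 1 = c * D.eval 1

/-- `1 - 2 a X + X²` as a rational function. -/
noncomputable def WX (a : k) : RatFunc k := 1 - RatFunc.C (2 * a) * RatFunc.X + RatFunc.X ^ 2

theorem transcendental_sq :
    Transcendental k (algebraMap k⟦X⟧ (FractionRing k⟦X⟧) X ^ 2) := by
  rintro ⟨p, hp, h⟩
  apply hp
  have h1 : Polynomial.aeval ((X : k⟦X⟧) ^ 2) p = 0 := by
    apply IsFractionRing.injective k⟦X⟧ (FractionRing k⟦X⟧)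
    rw [map_zero, ← h, ← map_pow, Polynomial.aeval_algebraMap_apply]
  have h2 : ((Polynomial.expand k 2 p : Polynomial k) : k⟦X⟧) = 0 := by
    rw [← h1]
    have h4 := Polynomial.aeval_algHom_apply (Polynomial.coeToPowerSeries.algHom (R := k) k)
      ((Polynomial.X : Polynomial k) ^ 2) p
    simp only [map_pow, Polynomial.coeToPowerSeries.algHom_apply, Polynomial.coe_X,
      Algebra.algebraMap_self, PowerSeries.map_id, id] at h4
    rw [h4]
    congr 1
  have h3 : Polynomial.expand k 2 p = 0 := by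
    apply Polynomial.coe_injective
    rw [h2]; simp
  exact (Polynomial.expand_eq_zero (by norm_num)).1 h3

/-- The embedding `k(X) → Frac k⟦v⟧`, `X ↦ v²`. -/
noncomputable def jj : RatFunc k →ₐ[k] FractionRing k⟦X⟧ :=
  (IntermediateField.val _).comp
    (RatFunc.algEquivOfTranscendental _ (transcendental_sq (k := k))).toAlgHom

theorem jj_X : jj (RatFunc.X : RatFunc k) = algebraMap k⟦X⟧ (FractionRing k⟦X⟧) X ^ 2 := by
  simp [jj]

theorem jj_injective : Function.Injective (jj (k := k)) := (jj (k := k)).toRingHom.injective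

/-- `R² = f(v²)` and `R S = v w g(v²)`. -/
def IsRat (w R S : k⟦X⟧) (f g : RatFunc k) : Prop :=
  algebraMap k⟦X⟧ (FractionRing k⟦X⟧) R ^ 2 = jj f ∧
  algebraMap k⟦X⟧ (FractionRing k⟦X⟧) (R * S) =
    algebraMap k⟦X⟧ (FractionRing k⟦X⟧) (X * w) * jj g

/-- The structure of `(R, S)` for an odd multiplier; `ρ` is the value of `R` at `v = 1`. -/
structure OddS (w R S : k⟦X⟧) (r s : RatFunc k) (ρ : k) : Prop where
  hR : algebraMap k⟦X⟧ (FractionRing k⟦X⟧) R = algebraMap k⟦X⟧ (FractionRing k⟦X⟧) X * jj r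
  hS : algebraMap k⟦X⟧ (FractionRing k⟦X⟧) S = algebraMap k⟦X⟧ (FractionRing k⟦X⟧) w * jj s
  ir : iota r * r = 1
  is : iota s * r ^ 2 = s
  ev : Ev r ρ
  sq : ρ ^ 2 = 1

/-- The structure of `(R, S)` for an even multiplier; `c` is the value of `S/(1 - R²)` at
`v = 1`. -/
structure EvenS (a : k) (w R S : k⟦X⟧) (r s : RatFunc k) (c : k) : Prop where
  hR : algebraMap k⟦X⟧ (FractionRing k⟦X⟧) R =
    algebraMap k⟦X⟧ (FractionRing k⟦X⟧) (X * w) * jj r
  hS : algebraMap k⟦X⟧ (FractionRing k⟦X⟧) S = jj s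
  ir : iota r = - RatFunc.X ^ 2 * r
  is : iota s = s
  ev : ∃ (D : RatFunc k) (d A B : k), Ev D d ∧ Ev (D * s) A ∧ Ev (D * r) 0 ∧
    Ev (D * (RatFunc.X * WX a * r ^ 2)) B ∧ d - B ≠ 0 ∧ A = c * (d - B)
  sq : c ^ 2 = 1

end Rat

end Pool.Agent.DF49E3
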