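import Pool.Agent.DF49E3.Defs

set_option autoImplicit false

/-!
# Package P3: solutions `Sol`: addition, uniqueness, composition
-/

namespace Pool.Agent.DF49E3

open PowerSeries

namespace P3

variable {A : Type*} [CommRing A]

/-- two power series with constant term `1` and the same square agree -/
theorem eq_of_sq_eq [IsDomain A] [CharZero A] {f g : A⟦X⟧} (hf : constantCoeff f = 1)
    (hg : constantCoeff g = 1) (h : f ^ 2 = g ^ 2) : f = g := by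
  rcases sq_eq_sq_iff_eq_or_eq_neg.1 h with h1 | h1
  · exact h1
  · exfalso
    have h2 := congrArg constantCoeff h1
    rw [map_neg, hf, hg] at h2
    have : (2 : A) = 0 := by linear_combination h2
    exact two_ne_zero this

theorem ne_zero_of_constantCoeff [IsDomain A] {f : A⟦X⟧} (hf : constantCoeff f ≠ 0) : f ≠ 0 := by
  rintro rfl
  exact hf (map_zero _)

/-- the derivative of the second component -/
theorem ode2 [IsDomain A] [CharZero A] {a : A} {w : A⟦X⟧} {α : A} {R S : A⟦X⟧}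
    (h : Sol a w α R S) : w * derivative A S = C α * (2 * R ^ 3 - C (2 * a) * R) := by
  have hS : S ≠ 0 := ne_zero_of_constantCoeff (by rw [h.S0]; exact one_ne_zero)
  have h1 := congrArg (derivative A) h.quartic
  have h2 : (2 * S) * (w * derivative A S) =
      (2 * S) * (C α * (2 * R ^ 3 - C (2 * a) * R)) := by
    simp only [pow_succ, pow_zero, one_mul, Derivation.leibniz, map_add, map_sub,
      Derivation.map_one_eq_zero, derivative_C, smul_eq_mul] at h1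
    have h3 := h.ode
    linear_combination w * h1 + (4 * R ^ 3 - 2 * C (2 * a) * R) * h3
  have h4 : (2 * S : A⟦X⟧) ≠ 0 := by
    apply mul_ne_zero _ hS
    intro h5
    have := congrArg constantCoeff h5
    rw [map_ofNat, map_zero] at this
    exact two_ne_zero this
  exact mul_left_cancel₀ h4 h2

end P3

open P3

section P3
variable {A : Type*} [CommRing A]

/-- P3a -/
theorem Sol.zero {a : A} {w : A⟦X⟧} : Sol a w 0 0 1 :=
  ⟨by simp, by simp, by simp, by simp⟩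

/-- P3b -/
theorem Sol.one {a : A} {w : A⟦X⟧} (hb : Base a w) : Sol a w 1 X w :=
  ⟨by simp, hb.w0, hb.w2, by simp⟩

/-- P3c -/
theorem Sol.neg {a : A} {w : A⟦X⟧} {α : A} {R S : A⟦X⟧} (h : Sol a w α R S) :
    Sol a w (-α) (-R) S := by
  refine ⟨by rw [map_neg, h.R0, neg_zero], h.S0, ?_, ?_⟩
  · rw [h.quartic]
    ring
  · rw [map_neg, mul_neg, h.ode, map_neg]
    ring

/-- P3e -/
theorem Base.map {B : Type*} [CommRing B] (φ : A →+* B) {a : A} {w : A⟦X⟧} (h : Base a w) :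
    Base (φ a) (PowerSeries.map φ w) := by
  refine ⟨?_, ?_⟩
  · rw [← coeff_zero_eq_constantCoeff_apply, coeff_map, coeff_zero_eq_constantCoeff_apply, h.w0,
      map_one]
  · rw [← map_pow, h.w2]
    simp [show φ 2 = 2 from map_ofNat φ 2]

/-- P3d -/
theorem Sol.map {B : Type*} [CommRing B] (φ : A →+* B) {a : A} {w : A⟦X⟧} {α : A} {R S : A⟦X⟧}
    (h : Sol a w α R S) :
    Sol (φ a) (PowerSeries.map φ w) (φ α) (PowerSeries.map φ R) (PowerSeries.map φ S) := by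
  refine ⟨?_, ?_, ?_, ?_⟩
  · rw [← coeff_zero_eq_constantCoeff_apply, coeff_map, coeff_zero_eq_constantCoeff_apply, h.R0,
      map_zero]
  · rw [← coeff_zero_eq_constantCoeff_apply, coeff_map, coeff_zero_eq_constantCoeff_apply, h.S0,
      map_one]
  · rw [← map_pow, h.quartic]
    simp [show φ 2 = 2 from map_ofNat φ 2]
  · have h1 := congrArg (PowerSeries.map φ) h.ode
    rw [map_mul, map_mul, map_C] at h1
    rw [← h1]
    congr 1
    ext n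
    rw [coeff_derivative, coeff_map, coeff_map, coeff_derivative]
    simp

/-- P3f -/
theorem Sol.add [IsDomain A] [CharZero A] {a : A} {w : A⟦X⟧} {α β : A} {R₁ S₁ R₂ S₂ : A⟦X⟧}
    (h₁ : Sol a w α R₁ S₁) (h₂ : Sol a w β R₂ S₂) :
    ∃ R₃ S₃ : A⟦X⟧, Sol a w (α + β) R₃ S₃ ∧
      R₃ * (1 - R₁ ^ 2 * R₂ ^ 2) = R₁ * S₂ + R₂ * S₁ ∧
      S₃ * (1 - R₁ ^ 2 * R₂ ^ 2) ^ 2 =
        (S₁ * S₂ - C (2 * a) * R₁ * R₂) * (1 + R₁ ^ 2 * R₂ ^ 2) +
          2 * R₁ * R₂ * (R₁ ^ 2 + R₂ ^ 2) := by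
  have hΔ : constantCoeff (1 - R₁ ^ 2 * R₂ ^ 2 : A⟦X⟧) = ((1 : Aˣ) : A) := by
    simp [h₁.R0, h₂.R0]
  obtain ⟨I, hI⟩ : ∃ I : A⟦X⟧, (1 - R₁ ^ 2 * R₂ ^ 2) * I = 1 :=
    ⟨_, mul_invOfUnit _ 1 hΔ⟩
  have hI0 : constantCoeff I = 1 := by
    have := congrArg constantCoeff hI
    rw [map_mul, hΔ] at this
    simpa using this
  have q₁ := h₁.quartic
  have q₂ := h₂.quartic
  have o₁ := h₁.ode
  have o₂ := h₂.ode
  have p₁ := ode2 h₁
  have p₂ := ode2 h₂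
  set c : A⟦X⟧ := C (2 * a) with hc
  refine ⟨(R₁ * S₂ + R₂ * S₁) * I, ((S₁ * S₂ - c * R₁ * R₂) * (1 + R₁ ^ 2 * R₂ ^ 2) +
          2 * R₁ * R₂ * (R₁ ^ 2 + R₂ ^ 2)) * I ^ 2, ⟨?_, ?_, ?_, ?_⟩, ?_, ?_⟩
  · simp [h₁.R0, h₂.R0]
  · simp [h₁.R0, h₂.R0, h₁.S0, h₂.S0, hI0]
  · -- the quartic
    have key : ((S₁ * S₂ - c * R₁ * R₂) * (1 + R₁ ^ 2 * R₂ ^ 2) +
          2 * R₁ * R₂ * (R₁ ^ 2 + R₂ ^ 2)) ^ 2 = (1 - R₁ ^ 2 * R₂ ^ 2) ^ 4 -
        c * (R₁ * S₂ + R₂ * S₁) ^ 2 * (1 - R₁ ^ 2 * R₂ ^ 2) ^ 2 +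
        (R₁ * S₂ + R₂ * S₁) ^ 4 := by
      linear_combination ((-1)*S₁^2*R₂^4 + (-4)*S₁*S₂*R₁*R₂^3 + (1)*S₂^2*R₁^4*R₂^4
        + (-4)*S₂^2*R₁^2*R₂^2 + (1)*S₂^2 + (1)*R₁^4*R₂^6*c + (-1)*R₁^4*R₂^4 + (-1)*R₁^2*R₂^4*c
        + (-1)*R₂^4 + (1)*R₂^2*c) * q₁ + ((-4)*S₁*S₂*R₁^3*R₂ + (-1)*S₂^2*R₁^4 + (1)*R₁^8*R₂^4
        + (-4)*R₁^6*R₂^2 + (3)*R₁^4*R₂^2*c + (-4)*R₁^2*R₂^2 + (1)) * q₂
    have hI2 : (1 - R₁ ^ 2 * R₂ ^ 2) ^ 2 * I ^ 2 = 1 := by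
      rw [← mul_pow, hI, one_pow]
    have hI4 : (1 - R₁ ^ 2 * R₂ ^ 2) ^ 4 * I ^ 4 = 1 := by
      rw [← mul_pow, hI, one_pow]
    linear_combination I ^ 4 * key - c * (R₁ * S₂ + R₂ * S₁) ^ 2 * I ^ 2 * hI2 + hI4
  · -- the differential equation
    have hI' : derivative A I = I ^ 2 * derivative A (R₁ ^ 2 * R₂ ^ 2) := by
      have h1 := congrArg (derivative A) hI
      rw [Derivation.leibniz, map_sub, Derivation.map_one_eq_zero, smul_eq_mul, smul_eq_mul,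
        zero_sub] at h1
      linear_combination I * h1 - (derivative A I) * hI
    rw [Derivation.leibniz, hI']
    simp only [pow_succ, pow_zero, one_mul, Derivation.leibniz, map_add, smul_eq_mul]
    have key : (1 - R₁ ^ 2 * R₂ ^ 2) * (w * (R₁ * derivative A S₂ + S₂ * derivative A R₁ +
        (R₂ * derivative A S₁ + S₁ * derivative A R₂))) + (R₁ * S₂ + R₂ * S₁) *
        (w * (R₁ * R₁ * (R₂ * derivative A R₂ + R₂ * derivative A R₂) +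
          R₂ * R₂ * (R₁ * derivative A R₁ + R₁ * derivative A R₁))) =
        (C α + C β) * ((S₁ * S₂ - c * R₁ * R₂) * (1 + R₁ ^ 2 * R₂ ^ 2) +
          2 * R₁ * R₂ * (R₁ ^ 2 + R₂ ^ 2)) := by
      linear_combination ((1 - R₁ ^ 2 * R₂ ^ 2) * R₁) * p₂ + ((1 - R₁ ^ 2 * R₂ ^ 2) * R₂) * p₁ +
        ((1 - R₁ ^ 2 * R₂ ^ 2) * S₂ + (R₁ * S₂ + R₂ * S₁) * (2 * R₂ ^ 2 * R₁)) * o₁ +
        ((1 - R₁ ^ 2 * R₂ ^ 2) * S₁ + (R₁ * S₂ + R₂ * S₁) * (2 * R₁ ^ 2 * R₂)) * o₂ +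
        (2 * R₁ * R₂ ^ 3 * C α) * q₁ + (2 * R₁ ^ 3 * R₂ * C β) * q₂
    linear_combination I ^ 2 * key - (w * (R₁ * derivative A S₂ + S₂ * derivative A R₁ +
        (R₂ * derivative A S₁ + S₁ * derivative A R₂))) * I * hI
  · linear_combination (R₁ * S₂ + R₂ * S₁) * hI
  · have hI2 : (1 - R₁ ^ 2 * R₂ ^ 2) ^ 2 * I ^ 2 = 1 := by
      rw [← mul_pow, hI, one_pow]
    linear_combination ((S₁ * S₂ - c * R₁ * R₂) * (1 + R₁ ^ 2 * R₂ ^ 2) +
          2 * R₁ * R₂ * (R₁ ^ 2 + R₂ ^ 2)) * hI2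

/-- P3g -/
theorem Sol.unique [IsDomain A] [CharZero A] {a : A} {w : A⟦X⟧} (hb : Base a w) {α : A}
    {R₁ S₁ R₂ S₂ : A⟦X⟧} (h₁ : Sol a w α R₁ S₁) (h₂ : Sol a w α R₂ S₂) :
    R₁ = R₂ ∧ S₁ = S₂ := by
  have hw : w ≠ 0 := ne_zero_of_constantCoeff (by rw [hb.w0]; exact one_ne_zero)
  have q₁ := h₁.quartic
  have q₂ := h₂.quartic
  obtain ⟨R₃, S₃, h₃, hR, -⟩ := h₁.add h₂.neg
  have hR₃ : R₃ = 0 := by
    have h4 := h₃.ode
    rw [add_neg_cancel, map_zero, zero_mul] at h4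
    have h5 := (mul_eq_zero.1 h4).resolve_left hw
    apply derivative.ext
    · rw [h5, map_zero]
    · rw [h₃.R0, map_zero]
  rw [hR₃, zero_mul] at hR
  have hprod : (R₁ ^ 2 - R₂ ^ 2) * (1 - R₁ ^ 2 * R₂ ^ 2) = 0 := by
    linear_combination (-(R₁ * S₂ + R₂ * S₁)) * hR + R₁ ^ 2 * (-1) * q₂ + R₂ ^ 2 * q₁
  have hΔ : (1 - R₁ ^ 2 * R₂ ^ 2 : A⟦X⟧) ≠ 0 :=
    ne_zero_of_constantCoeff (by simp [h₁.R0, h₂.R0])
  have hsq := (mul_eq_zero.1 hprod).resolve_right hΔ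
  have hRR : R₁ = R₂ := by
    rcases sq_eq_sq_iff_eq_or_eq_neg.1 (sub_eq_zero.1 hsq) with h | h
    · exact h
    · have h6 : R₂ * (S₁ + S₂) = 0 := by
        rw [h] at hR
        linear_combination hR
      have h7 : (S₁ + S₂ : A⟦X⟧) ≠ 0 := by
        apply ne_zero_of_constantCoeff
        rw [map_add, h₁.S0, h₂.S0, one_add_one_eq_two]
        exact two_ne_zero
      have h8 := (mul_eq_zero.1 h6).resolve_right h7
      rw [h, h8, neg_zero]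
  refine ⟨hRR, eq_of_sq_eq h₁.S0 h₂.S0 ?_⟩
  rw [q₁, q₂, hRR]

/-- P3h -/
theorem Sol.comp [IsDomain A] [CharZero A] {a : A} {w : A⟦X⟧} (hb : Base a w) {α β : A}
    {R₁ S₁ R₂ S₂ : A⟦X⟧} (h₁ : Sol a w α R₁ S₁) (h₂ : Sol a w β R₂ S₂) :
    Sol a w (α * β) (R₁.subst R₂) (S₁.subst R₂) := by
  have hs : HasSubst R₂ := HasSubst.of_constantCoeff_zero' h₂.R0
  set Φ := substAlgHom (R := A) hs with hΦ
  have hΦe : ∀ f : A⟦X⟧, f.subst R₂ = Φ f := fun f => by rw [hΦ, coe_substAlgHom]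
  have hC : ∀ r : A, Φ (C r) = C r := by
    intro r
    rw [← hΦe]
    exact subst_C r
  have hX : Φ X = R₂ := by
    rw [← hΦe]
    exact subst_X hs
  -- constant coefficients
  have hc0 : ∀ f : A⟦X⟧, constantCoeff f = 0 → constantCoeff (Φ f) = 0 := by
    intro f hf
    obtain ⟨g, rfl⟩ := X_dvd_iff.2 hf
    rw [map_mul, hX, map_mul, h₂.R0, zero_mul]
  have hc : ∀ f : A⟦X⟧, constantCoeff (Φ f) = constantCoeff f := by
    intro f
    have h := hc0 (f - C (constantCoeff f)) (by simp)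
    rw [map_sub, hC, map_sub, sub_eq_zero] at h
    rw [h]
    simp
  have hw : Φ w = S₂ := by
    apply eq_of_sq_eq ((hc w).trans hb.w0) h₂.S0
    rw [← map_pow, hb.w2, h₂.quartic]
    simp only [map_add, map_sub, map_mul, map_pow, map_one, hC, hX]
  refine ⟨?_, ?_, ?_, ?_⟩
  · rw [hΦe, hc, h₁.R0]
  · rw [hΦe, hc, h₁.S0]
  · rw [hΦe, hΦe, ← map_pow, h₁.quartic]
    simp only [map_add, map_sub, map_mul, map_pow, map_one, hC]
  · have h3 := congrArg Φ h₁.ode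
    rw [map_mul, map_mul, hw, hC] at h3
    rw [derivative_subst hs, hΦe, hΦe, map_mul]
    have h4 := h₂.ode
    linear_combination (Φ (derivative A R₁)) * h4 + C β * h3

end P3

end Pool.Agent.DF49E3
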