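import Mathlib
import Pool.Agent.DF49E3.Defs

set_option autoImplicit false

/-!
Heights of rational functions: multiplicativity under composition and the parallelogram law.
-/

namespace Pool.Agent.DF49E3

namespace P6

variable {k : Type*} [Field k]

theorem ht_eq_finrank (f : RatFunc k) :
    Module.finrank (IntermediateField.adjoin k {f}) (RatFunc k) = ht f :=
  RatFunc.finrank_eq_max_natDegree f

theorem cmp_fieldRange (g : RatFunc k) (hg : Transcendental k g) :
    (cmp g hg).fieldRange = IntermediateField.adjoin k {g} := by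
  apply le_antisymm
  · rintro y ⟨x, rfl⟩
    exact (RatFunc.algEquivOfTranscendental g hg x).2
  · rw [IntermediateField.adjoin_simple_le_iff]
    exact ⟨RatFunc.X, cmp_X g hg⟩

theorem ht_cmp_aux (g : RatFunc k) (hg : Transcendental k g) (f : RatFunc k) :
    ht (cmp g hg f) = ht f * ht g := by
  have h1 : (IntermediateField.adjoin k {f}).map (cmp g hg) =
      IntermediateField.adjoin k {cmp g hg f} := by
    rw [IntermediateField.adjoin_map, Set.image_singleton]
  have h2 : (⊤ : IntermediateField k (RatFunc k)).map (cmp g hg) =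
      IntermediateField.adjoin k {g} := by
    rw [← AlgHom.fieldRange_eq_map, cmp_fieldRange]
  have h3 := IntermediateField.relfinrank_map_map (IntermediateField.adjoin k {f}) ⊤ (cmp g hg)
  rw [h1, h2, IntermediateField.relfinrank_top_right, ht_eq_finrank] at h3
  have hle : IntermediateField.adjoin k {cmp g hg f} ≤ IntermediateField.adjoin k {g} := by
    rw [← h1, ← h2]
    exact IntermediateField.map_mono _ le_top
  have h4 := IntermediateField.relfinrank_mul_finrank_top hle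
  rw [h3, ht_eq_finrank, ht_eq_finrank] at h4
  exact h4.symm

open Polynomial

/-- The algebraic core of the parallelogram law. -/
theorem core {K : Type*} [Field K] (h2 : (2 : K) ≠ 0) {a : K} (ha : a ^ 2 ≠ 1) (n₁ d₁ n₂ d₂ : K)
    (h₁ : ¬(n₁ = 0 ∧ d₁ = 0)) (h₂ : ¬(n₂ = 0 ∧ d₂ = 0))
    (e0 : (d₁ * d₂ - n₁ * n₂) ^ 2 = 0) (e2 : (n₁ * d₂ - n₂ * d₁) ^ 2 = 0)
    (e1 : 2 * ((n₁ * d₂ + n₂ * d₁) * (d₁ * d₂ + n₁ * n₂) - 4 * a * n₁ * n₂ * d₁ * d₂) = 0) :
    False := by
  have e0' : d₁ * d₂ - n₁ * n₂ = 0 := by simpa using e0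
  have e2' : n₁ * d₂ - n₂ * d₁ = 0 := by simpa using e2
  have h4 : (4 : K) ≠ 0 := by
    have : (4 : K) = 2 * 2 := by norm_num
    rw [this]; exact mul_ne_zero h2 h2
  have hn1 : n₁ ^ 2 = d₁ ^ 2 := by
    have a1 : n₂ * (n₁ ^ 2 - d₁ ^ 2) = 0 := by linear_combination (-n₁) * e0' + d₁ * e2'
    have a2 : d₂ * (n₁ ^ 2 - d₁ ^ 2) = 0 := by linear_combination n₁ * e2' - d₁ * e0'
    rcases mul_eq_zero.1 a1 with h | h
    · rcases mul_eq_zero.1 a2 with h' | h'
      · exact absurd ⟨h, h'⟩ h₂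
      · exact sub_eq_zero.1 h'
    · exact sub_eq_zero.1 h
  have e1' : 8 * (d₁ * d₂ ^ 2 * (n₁ - a * d₁)) = 0 := by
    linear_combination e1 + (-8 * a * d₁ * d₂ + 2 * (n₁ * d₂ + n₂ * d₁)) * e0' + 4 * d₁ * d₂ * e2'
  have h8 : (8 : K) ≠ 0 := by
    have : (8 : K) = 2 * 4 := by norm_num
    rw [this]; exact mul_ne_zero h2 h4
  rcases mul_eq_zero.1 e1' with h | h
  · exact h8 h
  rcases mul_eq_zero.1 h with h | h
  · rcases mul_eq_zero.1 h with h | h
    · rw [h] at hn1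
      exact h₁ ⟨by simpa using hn1, h⟩
    · have hd2 : d₂ = 0 := by simpa using h
      rw [hd2] at e0' e2'
      have b1 : n₁ * n₂ = 0 := by linear_combination -e0'
      have b2 : n₂ * d₁ = 0 := by linear_combination -e2'
      rcases mul_eq_zero.1 b1 with h' | h'
      · rcases mul_eq_zero.1 b2 with h'' | h''
        · exact h₂ ⟨h'', hd2⟩
        · exact h₁ ⟨h', h''⟩
      · exact h₂ ⟨h', hd2⟩
  · have hn : n₁ = a * d₁ := sub_eq_zero.1 h
    rw [hn] at hn1
    have : (a ^ 2 - 1) * d₁ ^ 2 = 0 := by linear_combination hn1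
    rcases mul_eq_zero.1 this with h' | h'
    · exact ha (sub_eq_zero.1 h')
    · have hd : d₁ = 0 := by simpa using h'
      exact h₁ ⟨by rw [hn, hd, mul_zero], hd⟩

theorem core2 {K : Type*} [Field K] (n₁ d₁ n₂ d₂ : K)
    (h₁ : ¬(n₁ = 0 ∧ d₁ = 0)) (h₂ : ¬(n₂ = 0 ∧ d₂ = 0))
    (e0 : d₁ * d₂ = 0) (e1 : n₁ * d₂ + n₂ * d₁ = 0) (e2 : n₁ * n₂ = 0) : False := by
  rcases mul_eq_zero.1 e0 with h | h
  · rcases mul_eq_zero.1 e2 with h' | h'
    · exact h₁ ⟨h', h⟩
    · rw [h, h'] at e1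
      have : n₁ * d₂ = 0 := by linear_combination e1
      rcases mul_eq_zero.1 this with h'' | h''
      · exact h₁ ⟨h'', h⟩
      · exact h₂ ⟨h', h''⟩
  · rcases mul_eq_zero.1 e2 with h' | h'
    · rw [h, h'] at e1
      have : n₂ * d₁ = 0 := by linear_combination e1
      rcases mul_eq_zero.1 this with h'' | h''
      · exact h₂ ⟨h'', h⟩
      · exact h₁ ⟨h', h''⟩
    · exact h₂ ⟨h', h⟩

/-- Two triples of polynomials generating the unit ideal which are proportional are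
proportional by a unit; we record the equality of the maxima of the degrees. -/
theorem prop_deg {F0 F1 F2 E0 E1 E2 : k[X]}
    (hF : Ideal.span {F0, F1, F2} = ⊤) (hE : Ideal.span {E0, E1, E2} = ⊤)
    (hE0 : E0 ≠ 0) (h1 : F0 * E1 = F1 * E0) (h2 : F0 * E2 = F2 * E0) :
    max F0.natDegree (max F1.natDegree F2.natDegree) =
      max E0.natDegree (max E1.natDegree E2.natDegree) := by
  have hd1 : E0 ∣ F0 := by
    have h : (1 : k[X]) ∈ Ideal.span {E0, E1, E2} := by rw [hE]; trivial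
    rw [Ideal.mem_span_insert] at h
    obtain ⟨a, z, hz, h⟩ := h
    rw [Ideal.mem_span_pair] at hz
    obtain ⟨b, c, rfl⟩ := hz
    refine ⟨a * F0 + b * F1 + c * F2, ?_⟩
    linear_combination F0 * h + b * h1 + c * h2
  have hd2 : F0 ∣ E0 := by
    have h : (1 : k[X]) ∈ Ideal.span {F0, F1, F2} := by rw [hF]; trivial
    rw [Ideal.mem_span_insert] at h
    obtain ⟨a, z, hz, h⟩ := h
    rw [Ideal.mem_span_pair] at hz
    obtain ⟨b, c, rfl⟩ := hz
    refine ⟨a * E0 + b * E1 + c * E2, ?_⟩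
    linear_combination E0 * h - b * h1 - c * h2
  obtain ⟨u, hu⟩ := associated_of_dvd_dvd hd1 hd2
  have e1 : E1 * u = F1 := by
    apply mul_left_cancel₀ hE0
    linear_combination E1 * hu + h1
  have e2 : E2 * u = F2 := by
    apply mul_left_cancel₀ hE0
    linear_combination E2 * hu + h2
  have key : ∀ E : k[X], (E * (u : k[X])).natDegree = E.natDegree := by
    intro E
    obtain ⟨c, hc, hcu⟩ := Polynomial.isUnit_iff.1 u.isUnit
    rw [← hcu, Polynomial.natDegree_mul_C hc.ne_zero]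
  rw [← hu, ← e1, ← e2, key, key, key]

theorem span_eq_top {F0 F1 F2 : k[X]}
    (h : ∀ M : Ideal k[X], M.IsMaximal → F0 ∈ M → F1 ∈ M → F2 ∈ M → False) :
    Ideal.span {F0, F1, F2} = ⊤ := by
  by_contra hne
  obtain ⟨M, hM, hle⟩ := Ideal.exists_le_maximal _ hne
  exact h M hM (hle (Ideal.subset_span (by simp))) (hle (Ideal.subset_span (by simp)))
    (hle (Ideal.subset_span (by simp)))

theorem not_both {N D : k[X]} (h : IsCoprime N D) (M : Ideal k[X]) [M.IsMaximal] :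
    ¬(Ideal.Quotient.mk M N = 0 ∧ Ideal.Quotient.mk M D = 0) := by
  rintro ⟨h1, h2⟩
  obtain ⟨a, b, hab⟩ := h
  have : Ideal.Quotient.mk M 1 = 0 := by
    rw [← hab, map_add, map_mul, map_mul, h1, h2]; simp
  rw [map_one] at this
  exact one_ne_zero this

theorem max_le_of {A B C : k[X]} {m : ℕ} (hA : A.natDegree ≤ m) (hB : B.natDegree ≤ m)
    (hC : C.natDegree ≤ m) (h : ¬(A.coeff m = 0 ∧ B.coeff m = 0 ∧ C.coeff m = 0)) :
    max A.natDegree (max B.natDegree C.natDegree) = m := by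
  apply le_antisymm (max_le hA (max_le hB hC))
  by_contra hlt
  push Not at hlt
  apply h
  refine ⟨Polynomial.coeff_eq_zero_of_natDegree_lt (lt_of_le_of_lt (le_max_left _ _) hlt),
    Polynomial.coeff_eq_zero_of_natDegree_lt (lt_of_le_of_lt ?_ hlt),
    Polynomial.coeff_eq_zero_of_natDegree_lt (lt_of_le_of_lt ?_ hlt)⟩
  · exact le_trans (le_max_left _ _) (le_max_right _ _)
  · exact le_trans (le_max_right _ _) (le_max_right _ _)

theorem coeff_ht (f : RatFunc k) :
    ¬(f.num.coeff (ht f) = 0 ∧ f.denom.coeff (ht f) = 0) := by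
  rintro ⟨h1, h2⟩
  have hd : f.denom ≠ 0 := f.denom_ne_zero
  rcases le_total f.num.natDegree f.denom.natDegree with h | h
  · rw [ht, max_eq_right h] at h2
    exact hd (Polynomial.leadingCoeff_eq_zero.1 h2)
  · rw [ht, max_eq_left h] at h1 h2
    have hn : f.num = 0 := Polynomial.leadingCoeff_eq_zero.1 h1
    rw [hn, Polynomial.natDegree_zero] at h h2
    have : f.denom.natDegree = 0 := by omega
    rw [← this] at h2
    exact hd (Polynomial.leadingCoeff_eq_zero.1 h2)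

/-- Coefficient of a product in the extreme degree. -/
theorem coeff_mul' {A B : k[X]} {m n : ℕ} (hA : A.natDegree ≤ m) (hB : B.natDegree ≤ n) :
    (A * B).coeff (m + n) = A.coeff m * B.coeff n :=
  Polynomial.coeff_mul_add_eq_of_natDegree_le hA hB

theorem ht_parallelogram_aux [CharZero k] {a : k} (ha : a ^ 2 ≠ 1) (f₁ f₂ f₃ f₄ : RatFunc k)
    (h12 : f₁ * f₂ ≠ 1)
    (hprod : f₃ * f₄ * (1 - f₁ * f₂) ^ 2 = (f₁ - f₂) ^ 2)
    (hsum : (f₃ + f₄) * (1 - f₁ * f₂) ^ 2 =
      2 * ((f₁ + f₂) * (1 + f₁ * f₂) - 4 * RatFunc.C a * f₁ * f₂)) :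
    ht f₃ + ht f₄ = 2 * ht f₁ + 2 * ht f₂ := by
  have e : ∀ f : RatFunc k, f = algebraMap k[X] (RatFunc k) f.num /
      algebraMap k[X] (RatFunc k) f.denom := fun f => (RatFunc.num_div_denom f).symm
  have hd : ∀ f : RatFunc k, algebraMap k[X] (RatFunc k) f.denom ≠ 0 := by
    intro f
    simpa using f.denom_ne_zero
  have inj : Function.Injective (algebraMap k[X] (RatFunc k)) := RatFunc.algebraMap_injective k
  have hco : ∀ f : RatFunc k, IsCoprime f.num f.denom := fun f => f.isCoprime_num_denom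
  have hd1 := hd f₁
  have hd2 := hd f₂
  have hd3 := hd f₃
  have hd4 := hd f₄
  have e1 := e f₁
  have e2 := e f₂
  have e3 := e f₃
  have e4 := e f₄
  have c1 := hco f₁
  have c2 := hco f₂
  have c3 := hco f₃
  have c4 := hco f₄
  have k1 := coeff_ht f₁
  have k2 := coeff_ht f₂
  have k3 := coeff_ht f₃
  have k4 := coeff_ht f₄
  have n1 : f₁.num.natDegree ≤ ht f₁ := le_max_left _ _
  have n2 : f₂.num.natDegree ≤ ht f₂ := le_max_left _ _
  have n3 : f₃.num.natDegree ≤ ht f₃ := le_max_left _ _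
  have n4 : f₄.num.natDegree ≤ ht f₄ := le_max_left _ _
  have m1 : f₁.denom.natDegree ≤ ht f₁ := le_max_right _ _
  have m2 : f₂.denom.natDegree ≤ ht f₂ := le_max_right _ _
  have m3 : f₃.denom.natDegree ≤ ht f₃ := le_max_right _ _
  have m4 : f₄.denom.natDegree ≤ ht f₄ := le_max_right _ _
  generalize ht f₁ = h₁ at *
  generalize ht f₂ = h₂ at *
  generalize ht f₃ = h₃ at *
  generalize ht f₄ = h₄ at *
  generalize f₁.num = N₁ at *
  generalize f₂.num = N₂ at *
  generalize f₃.num = N₃ at *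
  generalize f₄.num = N₄ at *
  generalize f₁.denom = D₁ at *
  generalize f₂.denom = D₂ at *
  generalize f₃.denom = D₃ at *
  generalize f₄.denom = D₄ at *
  subst e1 e2 e3 e4
  have two0 : (2 : k) ≠ 0 := two_ne_zero
  -- the proportionality
  have r0 : D₁ * D₂ - N₁ * N₂ ≠ 0 := by
    intro h0
    apply h12
    have : algebraMap k[X] (RatFunc k) (N₁ * N₂) = algebraMap k[X] (RatFunc k) (D₁ * D₂) := by
      rw [sub_eq_zero.1 h0]
    rw [map_mul, map_mul] at this
    field_simp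
    exact this
  have p1 : (D₁ * D₂ - N₁ * N₂) ^ 2 * (N₃ * D₄ + N₄ * D₃) =
      (2 * ((N₁ * D₂ + N₂ * D₁) * (D₁ * D₂ + N₁ * N₂) - 4 * C a * N₁ * N₂ * D₁ * D₂)) *
        (D₃ * D₄) := by
    apply inj
    have hCa : RatFunc.C a = algebraMap k[X] (RatFunc k) (C a) := by simp
    rw [hCa] at hsum
    simp only [map_mul, map_add, map_sub, map_pow, map_ofNat]
    field_simp at hsum
    linear_combination hsum
  have p2 : (D₁ * D₂ - N₁ * N₂) ^ 2 * (N₃ * N₄) = (N₁ * D₂ - N₂ * D₁) ^ 2 * (D₃ * D₄) := by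
    apply inj
    simp only [map_mul, map_sub, map_pow]
    field_simp at hprod
    linear_combination hprod
  have D3 : D₃ ≠ 0 := fun h => hd3 (by rw [h, map_zero])
  have D4 : D₄ ≠ 0 := fun h => hd4 (by rw [h, map_zero])
  have key := prop_deg (F0 := (D₁ * D₂ - N₁ * N₂) ^ 2)
    (F1 := 2 * ((N₁ * D₂ + N₂ * D₁) * (D₁ * D₂ + N₁ * N₂) - 4 * C a * N₁ * N₂ * D₁ * D₂))
    (F2 := (N₁ * D₂ - N₂ * D₁) ^ 2) (E0 := D₃ * D₄) (E1 := N₃ * D₄ + N₄ * D₃) (E2 := N₃ * N₄)
    ?_ ?_ (mul_ne_zero D3 D4) p1 p2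
  · have w1 : max ((D₁ * D₂ - N₁ * N₂) ^ 2).natDegree (max
        (2 * ((N₁ * D₂ + N₂ * D₁) * (D₁ * D₂ + N₁ * N₂) -
          4 * C a * N₁ * N₂ * D₁ * D₂)).natDegree
        ((N₁ * D₂ - N₂ * D₁) ^ 2).natDegree) = (h₁ + h₂) + (h₁ + h₂) := by
      have q : ∀ A B : k[X], A.natDegree ≤ h₁ → B.natDegree ≤ h₂ →
          (A * B).natDegree ≤ h₁ + h₂ := fun A B hA hB =>
        Polynomial.natDegree_mul_le_of_le hA hB
      have a1 : (D₁ * D₂ - N₁ * N₂).natDegree ≤ h₁ + h₂ :=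
        Polynomial.natDegree_sub_le_of_le (q _ _ m1 m2) (q _ _ n1 n2) |>.trans (by simp)
      have a2 : (D₁ * D₂ + N₁ * N₂).natDegree ≤ h₁ + h₂ :=
        Polynomial.natDegree_add_le_of_degree_le (q _ _ m1 m2) (q _ _ n1 n2)
      have a3 : (N₁ * D₂ - D₁ * N₂).natDegree ≤ h₁ + h₂ :=
        Polynomial.natDegree_sub_le_of_le (q _ _ n1 m2) (q _ _ m1 n2) |>.trans (by simp)
      have a4 : (N₁ * D₂ + D₁ * N₂).natDegree ≤ h₁ + h₂ :=
        Polynomial.natDegree_add_le_of_degree_le (q _ _ n1 m2) (q _ _ m1 n2)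
      have s0 : (D₁ * D₂ - N₁ * N₂) ^ 2 = (D₁ * D₂ - N₁ * N₂) * (D₁ * D₂ - N₁ * N₂) := sq _
      have s2 : (N₁ * D₂ - N₂ * D₁) ^ 2 = (N₁ * D₂ - D₁ * N₂) * (N₁ * D₂ - D₁ * N₂) := by ring
      have s1 : 2 * ((N₁ * D₂ + N₂ * D₁) * (D₁ * D₂ + N₁ * N₂) -
          4 * C a * N₁ * N₂ * D₁ * D₂) =
          C 2 * ((N₁ * D₂ + D₁ * N₂) * (D₁ * D₂ + N₁ * N₂)) -
          C (8 * a) * ((N₁ * N₂) * (D₁ * D₂)) := by
        simp only [map_mul]
        have : (C (8 : k) : k[X]) = 8 := rfl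
        have h2 : (C (2 : k) : k[X]) = 2 := rfl
        rw [this, h2]
        ring
      rw [s0, s2, s1]
      have d1 := Polynomial.natDegree_mul_le_of_le a4 a2
      have d2 := Polynomial.natDegree_mul_le_of_le (q _ _ n1 n2) (q _ _ m1 m2)
      apply max_le_of
      · exact Polynomial.natDegree_mul_le_of_le a1 a1
      · refine (Polynomial.natDegree_sub_le_of_le
          ((Polynomial.natDegree_C_mul_le _ _).trans d1)
          ((Polynomial.natDegree_C_mul_le _ _).trans d2)).trans (by simp)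
      · exact Polynomial.natDegree_mul_le_of_le a3 a3
      · rintro ⟨z0, z1, z2⟩
        rw [coeff_mul' a1 a1, Polynomial.coeff_sub, coeff_mul' m1 m2, coeff_mul' n1 n2] at z0
        rw [coeff_mul' a3 a3, Polynomial.coeff_sub, coeff_mul' n1 m2, coeff_mul' m1 n2] at z2
        rw [Polynomial.coeff_sub, Polynomial.coeff_C_mul, Polynomial.coeff_C_mul,
          coeff_mul' a4 a2, coeff_mul' (q _ _ n1 n2) (q _ _ m1 m2), Polynomial.coeff_add,
          Polynomial.coeff_add, coeff_mul' m1 m2, coeff_mul' n1 n2, coeff_mul' n1 m2,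
          coeff_mul' m1 n2] at z1
        refine core two0 ha (N₁.coeff h₁) (D₁.coeff h₁) (N₂.coeff h₂) (D₂.coeff h₂) k1 k2 ?_ ?_ ?_
        · linear_combination z0
        · linear_combination z2
        · linear_combination z1
    have w2 : max (D₃ * D₄).natDegree (max (N₃ * D₄ + N₄ * D₃).natDegree (N₃ * N₄).natDegree)
        = h₃ + h₄ := by
      have q : ∀ A B : k[X], A.natDegree ≤ h₃ → B.natDegree ≤ h₄ →
          (A * B).natDegree ≤ h₃ + h₄ := fun A B hA hB =>
        Polynomial.natDegree_mul_le_of_le hA hB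
      rw [mul_comm N₄ D₃]
      apply max_le_of (q _ _ m3 m4) (Polynomial.natDegree_add_le_of_degree_le (q _ _ n3 m4)
        (q _ _ m3 n4)) (q _ _ n3 n4)
      rintro ⟨z0, z1, z2⟩
      rw [coeff_mul' m3 m4] at z0
      rw [coeff_mul' n3 n4] at z2
      rw [Polynomial.coeff_add, coeff_mul' n3 m4, coeff_mul' m3 n4] at z1
      exact core2 _ _ _ _ k3 k4 z0 (by linear_combination z1) z2
    rw [w1, w2] at key
    omega
  · apply span_eq_top
    intro M hM z0 z1 z2
    let _ : Field (k[X] ⧸ M) := Ideal.Quotient.field M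
    have b1 := not_both c1 M
    have b2 := not_both c2 M
    set φ := Ideal.Quotient.mk M with hφ
    have zz0 : φ ((D₁ * D₂ - N₁ * N₂) ^ 2) = 0 := Ideal.Quotient.eq_zero_iff_mem.2 z0
    have zz1 := Ideal.Quotient.eq_zero_iff_mem.2 z1
    have zz2 := Ideal.Quotient.eq_zero_iff_mem.2 z2
    rw [← hφ] at zz1 zz2
    have inj2 : Function.Injective (φ.comp (C : k →+* k[X])) := RingHom.injective _
    have t2 : (2 : k[X] ⧸ M) ≠ 0 := by
      intro h
      apply two0
      apply inj2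
      rw [map_zero, map_ofNat]
      exact h
    refine core (a := φ (C a)) t2 ?_ (φ N₁) (φ D₁) (φ N₂) (φ D₂) b1 b2 ?_ ?_ ?_
    · intro h
      apply ha
      apply inj2
      rw [map_one, map_pow]
      exact h
    · rw [← zz0]; simp only [map_mul, map_sub, map_pow]
    · rw [← zz2]; simp only [map_mul, map_sub, map_pow]
    · rw [← zz1]; simp only [map_mul, map_sub, map_add, map_ofNat]
  · apply span_eq_top
    intro M hM z0 z1 z2
    let _ : Field (k[X] ⧸ M) := Ideal.Quotient.field M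
    have b1 := not_both c3 M
    have b2 := not_both c4 M
    have zz0 := Ideal.Quotient.eq_zero_iff_mem.2 z0
    have zz1 := Ideal.Quotient.eq_zero_iff_mem.2 z1
    have zz2 := Ideal.Quotient.eq_zero_iff_mem.2 z2
    rw [map_mul] at zz0 zz2
    rw [map_add, map_mul, map_mul] at zz1
    exact core2 _ _ _ _ b1 b2 zz0 zz1 zz2

end P6

section P6

variable {k : Type*} [Field k]

/-- P6a -/
theorem ht_cmp (g : RatFunc k) (hg : Transcendental k g) (f : RatFunc k) :
    ht (cmp g hg f) = ht f * ht g := P6.ht_cmp_aux g hg f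

/-- P6b -/
theorem ht_parallelogram [CharZero k] {a : k} (ha : a ^ 2 ≠ 1) (f₁ f₂ f₃ f₄ : RatFunc k)
    (h12 : f₁ * f₂ ≠ 1)
    (hprod : f₃ * f₄ * (1 - f₁ * f₂) ^ 2 = (f₁ - f₂) ^ 2)
    (hsum : (f₃ + f₄) * (1 - f₁ * f₂) ^ 2 =
      2 * ((f₁ + f₂) * (1 + f₁ * f₂) - 4 * RatFunc.C a * f₁ * f₂)) :
    ht f₃ + ht f₄ = 2 * ht f₁ + 2 * ht f₂ :=
  P6.ht_parallelogram_aux ha f₁ f₂ f₃ f₄ h12 hprod hsum

end P6

end Pool.Agent.DF49E3
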