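import Mathlib
import Pool.Agent.DF49E3.Defs

set_option autoImplicit false

/-!
# P9: from the rational function to the reciprocal polynomial
-/

namespace Pool.Agent.DF49E3.P9

open PowerSeries

variable {k : Type*} [Field k]

lemma num_associated {p q : Polynomial k} (hq : q ≠ 0) (h : IsCoprime p q) :
    Associated (algebraMap (Polynomial k) (RatFunc k) p /
        algebraMap (Polynomial k) (RatFunc k) q).num p ∧
      Associated (algebraMap (Polynomial k) (RatFunc k) p /
        algebraMap (Polynomial k) (RatFunc k) q).denom q := by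
  set f := algebraMap (Polynomial k) (RatFunc k) p / algebraMap (Polynomial k) (RatFunc k) q with hf
  have hq' : algebraMap (Polynomial k) (RatFunc k) q ≠ 0 := by
    rw [Ne, map_eq_zero_iff _ (RatFunc.algebraMap_injective k)]
    exact hq
  have hd' : algebraMap (Polynomial k) (RatFunc k) f.denom ≠ 0 := by
    rw [Ne, map_eq_zero_iff _ (RatFunc.algebraMap_injective k)]
    exact f.denom_ne_zero
  have h1 : f.num * q = p * f.denom := by
    apply RatFunc.algebraMap_injective k
    rw [map_mul, map_mul]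
    have h2 := RatFunc.num_div_denom f
    rw [hf, div_eq_div_iff hd' hq'] at h2
    exact h2
  have hc := RatFunc.isCoprime_num_denom f
  constructor
  · exact associated_of_dvd_dvd
      (hc.dvd_of_dvd_mul_right (Dvd.intro _ h1))
      (h.dvd_of_dvd_mul_right (Dvd.intro _ h1.symm))
  · refine associated_of_dvd_dvd ?_ ?_
    · exact hc.symm.dvd_of_dvd_mul_left (Dvd.intro_left _ h1.symm)
    · exact h.symm.dvd_of_dvd_mul_left (Dvd.intro_left _ h1)

lemma ht_div {p q : Polynomial k} (hq : q ≠ 0) (h : IsCoprime p q) :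
    ht (algebraMap (Polynomial k) (RatFunc k) p / algebraMap (Polynomial k) (RatFunc k) q) =
      max p.natDegree q.natDegree := by
  obtain ⟨h1, h2⟩ := num_associated hq h
  unfold ht
  rw [Polynomial.natDegree_eq_of_degree_eq (Polynomial.degree_eq_degree_of_associated h1),
    Polynomial.natDegree_eq_of_degree_eq (Polynomial.degree_eq_degree_of_associated h2)]

lemma jj_algebraMap (P : Polynomial k) : jj (algebraMap (Polynomial k) (RatFunc k) P) =
    algebraMap k⟦X⟧ (FractionRing k⟦X⟧) (Polynomial.aeval ((X : k⟦X⟧) ^ 2) P) := by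
  rw [← RatFunc.aeval_X_left_eq_algebraMap, ← Polynomial.aeval_algHom_apply, jj_X, ← map_pow,
    Polynomial.aeval_algebraMap_apply]

lemma iota_algebraMap (P : Polynomial k) (m : ℕ) (hP : P.natDegree ≤ m) :
    iota (algebraMap (Polynomial k) (RatFunc k) P) * RatFunc.X ^ m =
      algebraMap (Polynomial k) (RatFunc k) (P.reflect m) := by
  rw [← RatFunc.aeval_X_left_eq_algebraMap, ← Polynomial.aeval_algHom_apply, iota_X]
  have hX : (RatFunc.X : RatFunc k) ≠ 0 := RatFunc.X_ne_zero
  let inst : Invertible (RatFunc.X : RatFunc k) := invertibleOfNonzero hX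
  have h := Polynomial.eval₂_reflect_mul_pow (algebraMap k (RatFunc k)) (RatFunc.X : RatFunc k) m
    (P.reflect m) (Polynomial.natDegree_reflect_le.trans (max_le le_rfl hP))
  rw [Polynomial.reflect_reflect, invOf_eq_inv] at h
  rw [← RatFunc.aeval_X_left_eq_algebraMap, Polynomial.aeval_def, Polynomial.aeval_def]
  exact h

lemma coeff_one_mul_aeval_sq (P : Polynomial k) (R : k⟦X⟧) (hP : P.coeff 0 = 0) :
    coeff 1 (R * Polynomial.aeval ((X : k⟦X⟧) ^ 2) P) = 0 := by
  obtain ⟨Q, rfl⟩ := Polynomial.X_dvd_iff.2 hP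
  rw [map_mul (Polynomial.aeval ((X : k⟦X⟧) ^ 2)), Polynomial.aeval_X]
  have : R * ((X : k⟦X⟧) ^ 2 * Polynomial.aeval ((X : k⟦X⟧) ^ 2) Q) =
      X ^ 2 * (R * Polynomial.aeval ((X : k⟦X⟧) ^ 2) Q) := by ring
  rw [this, PowerSeries.coeff_X_pow_mul']
  simp

lemma constantCoeff_aeval_sq (P : Polynomial k) :
    constantCoeff (Polynomial.aeval ((X : k⟦X⟧) ^ 2) P) = P.coeff 0 := by
  have h := Polynomial.hom_eval₂ P (algebraMap k k⟦X⟧) (constantCoeff (R := k))
    ((X : k⟦X⟧) ^ 2)
  rw [Polynomial.aeval_def, h]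
  have h1 : (constantCoeff (R := k)).comp (algebraMap k k⟦X⟧) = RingHom.id k := by
    ext x
    simp
  rw [h1]
  simp [Polynomial.coeff_zero_eq_eval_zero]

end Pool.Agent.DF49E3.P9

namespace Pool.Agent.DF49E3

open PowerSeries

/-- P9 -/
theorem extract_D {k : Type*} [Field k] [CharZero k] {w R S : k⟦X⟧} {r s : RatFunc k} {ρ : k}
    (h : OddS w R S r s ρ) (n : ℕ) (hht : ht (RatFunc.X * r ^ 2) = 2 * n + 1) :
    ∃ D : Polynomial k, D.natDegree ≤ n ∧ D.coeff 0 = 1 ∧
      Polynomial.aeval ((X : k⟦X⟧) ^ 2) D * R =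
        X * (C ρ * Polynomial.aeval ((X : k⟦X⟧) ^ 2) (D.reflect n)) := by
  have hinj := RatFunc.algebraMap_injective k
  have hr0 : r ≠ 0 := by
    rintro rfl
    have := h.ir
    simp at this
  -- the equation for power series
  have hps : ∀ N D : Polynomial k, algebraMap (Polynomial k) (RatFunc k) D * r =
      algebraMap (Polynomial k) (RatFunc k) N →
      Polynomial.aeval ((X : k⟦X⟧) ^ 2) D * R = X * Polynomial.aeval ((X : k⟦X⟧) ^ 2) N := by
    intro N D hND
    apply IsFractionRing.injective k⟦X⟧ (FractionRing k⟦X⟧)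
    rw [map_mul, map_mul, ← P9.jj_algebraMap, ← P9.jj_algebraMap, h.hR, ← hND, map_mul]
    ring
  have hr : algebraMap (Polynomial k) (RatFunc k) r.denom * r =
      algebraMap (Polynomial k) (RatFunc k) r.num := by
    have hd' : algebraMap (Polynomial k) (RatFunc k) r.denom ≠ 0 := by
      rw [Ne, map_eq_zero_iff _ hinj]
      exact r.denom_ne_zero
    have h1 := RatFunc.num_div_denom r
    rw [div_eq_iff hd'] at h1
    rw [h1]
    ring
  have hcop := RatFunc.isCoprime_num_denom r
  have hden0 : r.denom.coeff 0 ≠ 0 := by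
    intro h0
    have h1 := hps _ _ hr
    have h2 := P9.coeff_one_mul_aeval_sq r.denom R h0
    rw [mul_comm, h1] at h2
    have h3 : coeff 1 (X * Polynomial.aeval ((X : k⟦X⟧) ^ 2) r.num) =
        coeff 0 (Polynomial.aeval ((X : k⟦X⟧) ^ 2) r.num) := PowerSeries.coeff_succ_X_mul 0 _
    rw [h3, PowerSeries.coeff_zero_eq_constantCoeff_apply, P9.constantCoeff_aeval_sq] at h2
    have h4 : Polynomial.X ∣ r.num := Polynomial.X_dvd_iff.2 h2
    have h5 : Polynomial.X ∣ r.denom := Polynomial.X_dvd_iff.2 h0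
    exact Polynomial.not_isUnit_X (hcop.isUnit_of_dvd' h4 h5)
  -- normalisation
  obtain ⟨c, hc⟩ : ∃ c : k, c = (r.denom.coeff 0)⁻¹ := ⟨_, rfl⟩
  have hc0 : c ≠ 0 := by rw [hc]; exact inv_ne_zero hden0
  have hcu : IsUnit (Polynomial.C c) := Polynomial.isUnit_C.2 hc0.isUnit
  obtain ⟨D, hD⟩ : ∃ D, D = Polynomial.C c * r.denom := ⟨_, rfl⟩
  obtain ⟨N, hN⟩ : ∃ N, N = Polynomial.C c * r.num := ⟨_, rfl⟩
  have hD0 : D.coeff 0 = 1 := by
    rw [hD, Polynomial.coeff_C_mul, hc]
    exact inv_mul_cancel₀ hden0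
  have hDne : D ≠ 0 := by
    rintro h0
    rw [h0] at hD0
    simp at hD0
  have hcopND : IsCoprime N D := by
    rw [hN, hD]
    exact (isCoprime_mul_unit_left hcu _ _).2 hcop
  have hrND : algebraMap (Polynomial k) (RatFunc k) D * r =
      algebraMap (Polynomial k) (RatFunc k) N := by
    rw [hD, hN, map_mul, map_mul, mul_assoc, hr]
  have hNne : N ≠ 0 := by
    rintro h0
    rw [h0, map_zero, mul_eq_zero] at hrND
    rcases hrND with h1 | h1
    · rw [map_eq_zero_iff _ hinj] at h1
      exact hDne h1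
    · exact hr0 h1
  have hDne' : algebraMap (Polynomial k) (RatFunc k) D ≠ 0 := by
    rw [Ne, map_eq_zero_iff _ hinj]
    exact hDne
  have hreq : r = algebraMap (Polynomial k) (RatFunc k) N /
      algebraMap (Polynomial k) (RatFunc k) D := by
    rw [eq_div_iff hDne', mul_comm]
    exact hrND
  obtain ⟨m, hm⟩ : ∃ m, m = max N.natDegree D.natDegree := ⟨_, rfl⟩
  have hNm : N.natDegree ≤ m := hm ▸ le_max_left _ _
  have hDm : D.natDegree ≤ m := hm ▸ le_max_right _ _
  -- functional equation
  have hfe : N.reflect m * N = D.reflect m * D := by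
    apply hinj
    rw [map_mul, map_mul, ← P9.iota_algebraMap N m hNm, ← P9.iota_algebraMap D m hDm, ← hrND,
      map_mul]
    have := h.ir
    calc _ = (iota (algebraMap (Polynomial k) (RatFunc k) D) * RatFunc.X ^ m) *
          algebraMap (Polynomial k) (RatFunc k) D * (iota r * r) := by ring
      _ = _ := by rw [this, mul_one]
  have hND : N ∣ D.reflect m := by
    refine hcopND.dvd_of_dvd_mul_right ?_
    rw [← hfe]
    exact Dvd.intro_left _ rfl
  have hDN : D ∣ N.reflect m := by
    refine hcopND.symm.dvd_of_dvd_mul_right ?_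
    rw [hfe]
    exact Dvd.intro_left _ rfl
  obtain ⟨E, hE⟩ := hND
  obtain ⟨E', hE'⟩ := hDN
  have hEE : E = E' := by
    have h1 : (N * D) * E' = (N * D) * E := by
      have := hfe
      rw [hE, hE'] at this
      linear_combination this
    exact (mul_left_cancel₀ (mul_ne_zero hNne hDne) h1).symm
  subst hEE
  have hcm : (D.reflect m).coeff m = 1 := by
    rw [Polynomial.coeff_reflect, Polynomial.revAt_le le_rfl, Nat.sub_self, hD0]
  have hdegDr : (D.reflect m).natDegree = m := by
    apply le_antisymm (Polynomial.natDegree_reflect_le.trans (max_le le_rfl hDm))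
    apply Polynomial.le_natDegree_of_ne_zero
    rw [hcm]
    exact one_ne_zero
  have hEne : E ≠ 0 := by
    rintro h0
    rw [h0, mul_zero] at hE
    rw [hE] at hcm
    simp at hcm
  have hd1 : N.natDegree + E.natDegree = m := by
    rw [← Polynomial.natDegree_mul hNne hEne, ← hE, hdegDr]
  have hd2 : D.natDegree + E.natDegree ≤ m := by
    rw [← Polynomial.natDegree_mul hDne hEne, ← hE']
    exact Polynomial.natDegree_reflect_le.trans (max_le le_rfl hNm)
  have hE0 : E.natDegree = 0 := by omega
  have hNdeg : N.natDegree = m := by omega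
  obtain ⟨e, rfl⟩ := Polynomial.natDegree_eq_zero.1 hE0
  -- value at 1
  obtain ⟨N', D', hD'1, hr', hN'⟩ := h.ev
  have hD'ne : D' ≠ 0 := by
    rintro h0
    rw [h0] at hD'1
    simp at hD'1
  have hD'ne' : algebraMap (Polynomial k) (RatFunc k) D' ≠ 0 := by
    rw [Ne, map_eq_zero_iff _ hinj]
    exact hD'ne
  have hcross : N * D' = N' * D := by
    apply hinj
    rw [map_mul, map_mul]
    rw [hreq, div_eq_div_iff hDne' hD'ne'] at hr'
    exact hr'
  have hval : N.eval 1 = ρ * D.eval 1 := by
    have h1 := congrArg (Polynomial.eval 1) hcross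
    rw [Polynomial.eval_mul, Polynomial.eval_mul, hN'] at h1
    have h2 : N.eval 1 * D'.eval 1 = (ρ * D.eval 1) * D'.eval 1 := by rw [h1]; ring
    exact mul_right_cancel₀ hD'1 h2
  have hDe1 : D.eval 1 ≠ 0 := by
    intro h0
    rw [h0, mul_zero] at hval
    obtain ⟨u, v, huv⟩ := hcopND
    have := congrArg (Polynomial.eval 1) huv
    rw [Polynomial.eval_add, Polynomial.eval_mul, Polynomial.eval_mul, hval, h0] at this
    simp at this
  have hrefl1 : (D.reflect m).eval 1 = D.eval 1 := by
    let inst : Invertible (1 : k) := invertibleOne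
    have h1 := Polynomial.eval₂_reflect_mul_pow (RingHom.id k) (1 : k) m D hDm
    rw [invOf_eq_inv, inv_one, one_pow, mul_one] at h1
    exact h1
  have heρ : e = ρ := by
    have h1 := congrArg (Polynomial.eval 1) hE
    rw [hrefl1, Polynomial.eval_mul, hval, Polynomial.eval_C] at h1
    have h2 : D.eval 1 * 1 = D.eval 1 * (ρ * e) := by rw [mul_one]; linear_combination h1
    have h3 := mul_left_cancel₀ hDe1 h2
    calc e = ρ * e * ρ := by linear_combination (-e) * h.sq
      _ = ρ := by rw [← h3, one_mul]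
  subst heρ
  have hNeq : N = Polynomial.C e * D.reflect m := by
    rw [hE]
    have : Polynomial.C e * (N * Polynomial.C e) = N * Polynomial.C (e ^ 2) := by
      rw [map_pow]; ring
    rw [this, h.sq]
    simp
  -- the height
  have hmn : m = n := by
    have h1 : RatFunc.X * r ^ 2 = algebraMap (Polynomial k) (RatFunc k) (Polynomial.X * N ^ 2) /
        algebraMap (Polynomial k) (RatFunc k) (D ^ 2) := by
      rw [hreq, map_mul, map_pow, map_pow, RatFunc.algebraMap_X, div_pow]
      ring
    have h2 : IsCoprime (Polynomial.X * N ^ 2) (D ^ 2) := by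
      apply IsCoprime.mul_left
      · apply IsCoprime.pow_right
        refine ⟨-D.divX, 1, ?_⟩
        have h3 := Polynomial.divX_mul_X_add D
        rw [hD0, map_one] at h3
        linear_combination -h3
      · exact IsCoprime.pow hcopND
    rw [h1, P9.ht_div (pow_ne_zero 2 hDne) h2, Polynomial.natDegree_mul Polynomial.X_ne_zero
      (pow_ne_zero 2 hNne), Polynomial.natDegree_X, Polynomial.natDegree_pow,
      Polynomial.natDegree_pow, hNdeg] at hht
    omega
  subst hmn
  refine ⟨D, hDm, hD0, ?_⟩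
  rw [hps N D hrND, hNeq, map_mul, Polynomial.aeval_C]
  rfl

end Pool.Agent.DF49E3
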