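import Mathlib
import Pool.Agent.DF49E3.Defs
import Pool.Agent.DF49E3.P3
import Pool.Agent.DF49E3.P6
import Pool.Agent.DF49E3.P9

set_option autoImplicit false

/-!
# P7: the degree of multiplication by `u + v σ`
-/

namespace Pool.Agent.DF49E3.P7

open PowerSeries

set_option linter.unusedSectionVars false

variable {k : Type*} [Field k] [CharZero k]

lemma algMap_ne {f : k⟦X⟧} (hf : f ≠ 0) : algebraMap k⟦X⟧ (FractionRing k⟦X⟧) f ≠ 0 := by
  rw [Ne, map_eq_zero_iff _ (IsFractionRing.injective k⟦X⟧ (FractionRing k⟦X⟧))]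
  exact hf

/-- parallelogram law -/
lemma parallelogram {a : k} (ha : a ^ 2 ≠ 1) {w : k⟦X⟧} {α β : k} {R₁ S₁ R₂ S₂ R₃ S₃ R₄ S₄ : k⟦X⟧}
    (hb : Base a w)
    (h₁ : Sol a w α R₁ S₁) (h₂ : Sol a w β R₂ S₂) (h₃ : Sol a w (α + β) R₃ S₃)
    (h₄ : Sol a w (α - β) R₄ S₄) {f₁ f₂ f₃ f₄ : RatFunc k}
    (k₁ : algebraMap k⟦X⟧ (FractionRing k⟦X⟧) R₁ ^ 2 = jj f₁)
    (k₂ : algebraMap k⟦X⟧ (FractionRing k⟦X⟧) R₂ ^ 2 = jj f₂)
    (k₃ : algebraMap k⟦X⟧ (FractionRing k⟦X⟧) R₃ ^ 2 = jj f₃)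
    (k₄ : algebraMap k⟦X⟧ (FractionRing k⟦X⟧) R₄ ^ 2 = jj f₄) :
    (ht f₃ : ℤ) + ht f₄ = 2 * ht f₁ + 2 * ht f₂ := by
  obtain ⟨R₃', S₃', hs₃, hR₃, -⟩ := h₁.add h₂
  obtain ⟨e3, -⟩ := Sol.unique hb h₃ hs₃
  subst e3
  obtain ⟨R₄', S₄', hs₄, hR₄, -⟩ := h₁.add h₂.neg
  rw [← sub_eq_add_neg] at hs₄
  obtain ⟨e4, -⟩ := Sol.unique hb h₄ hs₄
  subst e4
  have q₁ := h₁.quartic
  have q₂ := h₂.quartic
  set ι := algebraMap k⟦X⟧ (FractionRing k⟦X⟧) with hι
  have hR₄' : R₄ * (1 - R₁ ^ 2 * R₂ ^ 2) = R₁ * S₂ - R₂ * S₁ := by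
    linear_combination hR₄
  have hu : (1 : k⟦X⟧) - R₁ ^ 2 * R₂ ^ 2 ≠ 0 := by
    intro h0
    have := congrArg (constantCoeff (R := k)) h0
    simp [h₁.R0] at this
  have hιu : (1 : FractionRing k⟦X⟧) - jj f₁ * jj f₂ ≠ 0 := by
    rw [← k₁, ← k₂]
    have := algMap_ne hu
    rwa [map_sub, map_mul, map_pow, map_pow, map_one] at this
  have c₁ : ι S₁ ^ 2 = 1 - 2 * ι (C a) * jj f₁ + jj f₁ ^ 2 := by
    have := congrArg ι q₁
    rw [← k₁]
    rw [map_mul] at this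
    simp only [map_pow, map_add, map_sub, map_mul, map_one, map_ofNat] at this
    rw [this]
    ring
  have c₂ : ι S₂ ^ 2 = 1 - 2 * ι (C a) * jj f₂ + jj f₂ ^ 2 := by
    have := congrArg ι q₂
    rw [← k₂]
    rw [map_mul] at this
    simp only [map_pow, map_add, map_sub, map_mul, map_one, map_ofNat] at this
    rw [this]
    ring
  have d₃ : ι R₃ * (1 - jj f₁ * jj f₂) = ι R₁ * ι S₂ + ι R₂ * ι S₁ := by
    have := congrArg ι hR₃
    rw [← k₁, ← k₂]
    simpa only [map_pow, map_add, map_sub, map_mul, map_one] using this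
  have d₄ : ι R₄ * (1 - jj f₁ * jj f₂) = ι R₁ * ι S₂ - ι R₂ * ι S₁ := by
    have := congrArg ι hR₄'
    rw [← k₁, ← k₂]
    simpa only [map_pow, map_add, map_sub, map_mul, map_one] using this
  have hjC : jj (RatFunc.C a) = ι (C a) := by
    have h1 : (RatFunc.C a : RatFunc k) = algebraMap k (RatFunc k) a := rfl
    rw [h1, AlgHom.commutes]
    rfl
  have hpr : ι R₃ * ι R₄ * (1 - jj f₁ * jj f₂) = jj f₁ - jj f₂ := by
    have : (ι R₃ * ι R₄ * (1 - jj f₁ * jj f₂)) * (1 - jj f₁ * jj f₂) =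
        (jj f₁ - jj f₂) * (1 - jj f₁ * jj f₂) := by
      calc _ = (ι R₃ * (1 - jj f₁ * jj f₂)) * (ι R₄ * (1 - jj f₁ * jj f₂)) := by ring
        _ = (ι R₁) ^ 2 * ι S₂ ^ 2 - (ι R₂) ^ 2 * ι S₁ ^ 2 := by rw [d₃, d₄]; ring
        _ = _ := by rw [k₁, k₂, c₁, c₂]; ring
    exact mul_right_cancel₀ hιu this
  have h := ht_parallelogram ha f₁ f₂ f₃ f₄
    (by
      intro h0
      apply hιu
      rw [← map_mul, h0, map_one, sub_self])
    (by
      apply jj_injective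
      simp only [map_mul, map_pow, map_sub, map_one]
      rw [← hpr, ← k₃, ← k₄]
      ring)
    (by
      apply jj_injective
      simp only [map_mul, map_pow, map_sub, map_one, map_add, map_ofNat]
      rw [hjC]
      calc (jj f₃ + jj f₄) * (1 - jj f₁ * jj f₂) ^ 2 =
          (ι R₃ * (1 - jj f₁ * jj f₂)) ^ 2 + (ι R₄ * (1 - jj f₁ * jj f₂)) ^ 2 := by
            rw [← k₃, ← k₄]; ring
        _ = 2 * (ι R₁ ^ 2 * ι S₂ ^ 2 + ι R₂ ^ 2 * ι S₁ ^ 2) := by rw [d₃, d₄]; ring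
        _ = _ := by rw [k₁, k₂, c₁, c₂]; ring)
  exact_mod_cast h

/-- the square of a nonzero solution is transcendental -/
lemma transc {R : k⟦X⟧} (h0 : constantCoeff R = 0) (hR : R ≠ 0) {f : RatFunc k}
    (hf : algebraMap k⟦X⟧ (FractionRing k⟦X⟧) R ^ 2 = jj f) : Transcendental k f := by
  rintro ⟨P, hP, hPf⟩
  have h1 : Polynomial.aeval (R ^ 2) P = 0 := by
    apply IsFractionRing.injective k⟦X⟧ (FractionRing k⟦X⟧)
    rw [map_zero, ← Polynomial.aeval_algebraMap_apply, map_pow, hf, Polynomial.aeval_algHom_apply,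
      hPf, map_zero]
  have key : ∀ (n : ℕ) (P : Polynomial k), P.natDegree ≤ n → P ≠ 0 →
      Polynomial.aeval (R ^ 2) P ≠ 0 := by
    intro n
    induction n with
    | zero =>
      intro P hn hP h
      obtain ⟨c, rfl⟩ := Polynomial.natDegree_eq_zero.1 (Nat.le_zero.1 hn)
      rw [Polynomial.aeval_C] at h
      apply hP
      have h2 := congrArg (constantCoeff (R := k)) h
      have h3 : constantCoeff (algebraMap k k⟦X⟧ c) = c := by
        simp
      rw [h3, map_zero] at h2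
      rw [h2, map_zero]
    | succ n ih =>
      intro P hn hP h
      by_cases hc : P.coeff 0 = 0
      · obtain ⟨Q, rfl⟩ := Polynomial.X_dvd_iff.2 hc
        have hQ : Q ≠ 0 := right_ne_zero_of_mul hP
        rw [map_mul, Polynomial.aeval_X, mul_eq_zero] at h
        rcases h with h | h
        · exact hR (pow_eq_zero_iff (two_ne_zero)|>.1 h)
        · refine ih Q ?_ hQ h
          rw [Polynomial.natDegree_X_mul hQ] at hn
          omega
      · apply hc
        have h2 := congrArg (constantCoeff (R := k)) h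
        rw [map_zero] at h2
        have h4 := Polynomial.hom_eval₂ P (algebraMap k k⟦X⟧) (constantCoeff (R := k)) (R ^ 2)
        have h5 : (constantCoeff (R := k)).comp (algebraMap k k⟦X⟧) = RingHom.id k := by
          ext x
          simp
        rw [← Polynomial.aeval_def, h2, h5, map_pow, h0, Polynomial.eval₂_id] at h4
        rw [Polynomial.coeff_zero_eq_eval_zero]
        simpa using h4.symm
  exact key P.natDegree P le_rfl hP h1

/-- composition -/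
lemma comp_eq {R₁ R₂ : k⟦X⟧} (h0 : constantCoeff R₂ = 0) {f₁ f₂ f₃ : RatFunc k}
    (hf₂ : Transcendental k f₂)
    (k₁ : algebraMap k⟦X⟧ (FractionRing k⟦X⟧) R₁ ^ 2 = jj f₁)
    (k₂ : algebraMap k⟦X⟧ (FractionRing k⟦X⟧) R₂ ^ 2 = jj f₂)
    (k₃ : algebraMap k⟦X⟧ (FractionRing k⟦X⟧) (R₁.subst R₂) ^ 2 = jj f₃) :
    f₃ = cmp f₂ hf₂ f₁ := by
  set ι := algebraMap k⟦X⟧ (FractionRing k⟦X⟧) with hι
  have hsub : HasSubst R₂ := HasSubst.of_constantCoeff_zero' h0
  have hden : algebraMap (Polynomial k) (RatFunc k) f₁.denom ≠ 0 := by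
    rw [Ne, map_eq_zero_iff _ (RatFunc.algebraMap_injective k)]
    exact f₁.denom_ne_zero
  have hf₁ : f₁ * algebraMap (Polynomial k) (RatFunc k) f₁.denom =
      algebraMap (Polynomial k) (RatFunc k) f₁.num := by
    have h1 := RatFunc.num_div_denom f₁
    rw [div_eq_iff hden] at h1
    exact h1.symm
  have e1 : R₁ ^ 2 * Polynomial.aeval ((X : k⟦X⟧) ^ 2) f₁.denom =
      Polynomial.aeval ((X : k⟦X⟧) ^ 2) f₁.num := by
    apply IsFractionRing.injective k⟦X⟧ (FractionRing k⟦X⟧)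
    rw [map_mul, map_pow, k₁, ← P9.jj_algebraMap, ← P9.jj_algebraMap, ← map_mul, hf₁]
  have hsubst : ∀ P : Polynomial k, (substAlgHom hsub) (Polynomial.aeval ((X : k⟦X⟧) ^ 2) P) =
      Polynomial.aeval (R₂ ^ 2) P := by
    intro P
    rw [← Polynomial.aeval_algHom_apply, map_pow, substAlgHom_X]
  have e2 := congrArg (substAlgHom hsub) e1
  rw [map_mul, map_pow, hsubst, hsubst, coe_substAlgHom] at e2
  have hcmp : ∀ P : Polynomial k, jj (cmp f₂ hf₂ (algebraMap (Polynomial k) (RatFunc k) P)) =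
      ι (Polynomial.aeval (R₂ ^ 2) P) := by
    intro P
    rw [← RatFunc.aeval_X_left_eq_algebraMap, ← Polynomial.aeval_algHom_apply, cmp_X,
      ← Polynomial.aeval_algHom_apply, ← k₂, ← map_pow, Polynomial.aeval_algebraMap_apply]
  have e3 := congrArg ι e2
  rw [map_mul, map_pow, k₃, ← hcmp, ← hcmp, ← map_mul, ← hf₁, map_mul (cmp f₂ hf₂)] at e3
  have e4 := jj_injective e3
  exact mul_right_cancel₀ ((map_ne_zero (cmp f₂ hf₂)).2 hden) e4

end Pool.Agent.DF49E3.P7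

namespace Pool.Agent.DF49E3

open PowerSeries

/-- P7 -/
theorem ht_norm {k : Type*} [Field k] [CharZero k] {a : k} (ha : a ^ 2 ≠ 1) {w : k⟦X⟧}
    (hb : Base a w) (σ : k) (hσ : σ ^ 2 = -15)
    (R S : ℤ → ℤ → k⟦X⟧) (f g : ℤ → ℤ → RatFunc k)
    (hsol : ∀ u v : ℤ, Sol a w (u + v * σ) (R u v) (S u v))
    (hrat : ∀ u v : ℤ, IsRat w (R u v) (S u v) (f u v) (g u v)) (x y : ℤ) :
    (ht (f x y) : ℤ) = x ^ 2 + 15 * y ^ 2 := by
  have hpar : ∀ u₁ v₁ u₂ v₂ : ℤ, (ht (f (u₁ + u₂) (v₁ + v₂)) : ℤ) + ht (f (u₁ - u₂) (v₁ - v₂)) =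
      2 * ht (f u₁ v₁) + 2 * ht (f u₂ v₂) := by
    intro u₁ v₁ u₂ v₂
    have h3 := hsol (u₁ + u₂) (v₁ + v₂)
    have h4 := hsol (u₁ - u₂) (v₁ - v₂)
    have e3 : (((u₁ + u₂ : ℤ) : k) + ((v₁ + v₂ : ℤ) : k) * σ) =
        ((u₁ : k) + v₁ * σ) + ((u₂ : k) + v₂ * σ) := by push_cast; ring
    have e4 : (((u₁ - u₂ : ℤ) : k) + ((v₁ - v₂ : ℤ) : k) * σ) =
        ((u₁ : k) + v₁ * σ) - ((u₂ : k) + v₂ * σ) := by push_cast; ring
    rw [e3] at h3
    rw [e4] at h4
    exact P7.parallelogram ha hb (hsol u₁ v₁) (hsol u₂ v₂) h3 h4 (hrat _ _).1 (hrat _ _).1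
      (hrat _ _).1 (hrat _ _).1
  -- zero and one
  have hz : ht (f 0 0) = 0 := by
    have h1 := hsol 0 0
    have e1 : (((0 : ℤ) : k) + ((0 : ℤ) : k) * σ) = 0 := by push_cast; ring
    rw [e1] at h1
    obtain ⟨e2, -⟩ := Sol.unique hb h1 Sol.zero
    have h2 := (hrat 0 0).1
    rw [e2, map_zero, zero_pow two_ne_zero] at h2
    have h3 : f 0 0 = 0 := by
      apply jj_injective
      rw [← h2, map_zero]
    rw [h3]
    simp [ht]
  have ho : ht (f 1 0) = 1 := by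
    have h1 := hsol 1 0
    have e1 : (((1 : ℤ) : k) + ((0 : ℤ) : k) * σ) = 1 := by push_cast; ring
    rw [e1] at h1
    obtain ⟨e2, -⟩ := Sol.unique hb h1 (Sol.one hb)
    have h2 := (hrat 1 0).1
    rw [e2] at h2
    have h3 : f 1 0 = RatFunc.X := by
      apply jj_injective
      rw [← h2, jj_X]
    rw [h3]
    simp [ht]
  have hneg : ∀ u v : ℤ, (ht (f (-u) (-v)) : ℤ) = ht (f u v) := by
    intro u v
    have := hpar 0 0 u v
    rw [hz] at this
    simp only [zero_add, zero_sub] at this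
    push_cast at this
    linarith
  have hmulN : ∀ (n : ℕ) (u v : ℤ), (ht (f (n * u) (n * v)) : ℤ) = n ^ 2 * ht (f u v) := by
    intro n u v
    induction n using Nat.strong_induction_on with
    | _ n ih =>
      match n, ih with
      | 0, _ => simp [hz]
      | 1, _ => simp
      | n + 2, ih =>
        have h1 := ih (n + 1) (by omega)
        have h2 := ih n (by omega)
        have h3 := hpar ((n + 1 : ℕ) * u) ((n + 1 : ℕ) * v) u v
        have e1 : ((n + 1 : ℕ) : ℤ) * u + u = ((n + 2 : ℕ) : ℤ) * u := by push_cast; ring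
        have e2 : ((n + 1 : ℕ) : ℤ) * v + v = ((n + 2 : ℕ) : ℤ) * v := by push_cast; ring
        have e3 : ((n + 1 : ℕ) : ℤ) * u - u = (n : ℤ) * u := by push_cast; ring
        have e4 : ((n + 1 : ℕ) : ℤ) * v - v = (n : ℤ) * v := by push_cast; ring
        rw [e1, e2, e3, e4, h1, h2] at h3
        push_cast at h3 ⊢
        linear_combination h3
  have hmulZ : ∀ (n u v : ℤ), (ht (f (n * u) (n * v)) : ℤ) = n ^ 2 * ht (f u v) := by
    intro n u v
    rcases Int.natAbs_eq n with h | h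
    · rw [h]
      have := hmulN n.natAbs u v
      exact_mod_cast this
    · rw [h]
      have h1 := hmulN n.natAbs u v
      have h2 := hneg (n.natAbs * u) (n.natAbs * v)
      rw [neg_mul, neg_mul, h2, h1]
      ring
  -- multiplicativity
  have hmult : ∀ u₁ v₁ u₂ v₂ : ℤ, ((u₂ : k) + v₂ * σ ≠ 0) →
      ht (f (u₁ * u₂ - 15 * (v₁ * v₂)) (u₁ * v₂ + v₁ * u₂)) = ht (f u₁ v₁) * ht (f u₂ v₂) := by
    intro u₁ v₁ u₂ v₂ hne
    have h1 := hsol u₁ v₁
    have h2 := hsol u₂ v₂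
    have hR2 : R u₂ v₂ ≠ 0 := by
      intro h0
      have h3 := h2.ode
      rw [h0, map_zero, mul_zero] at h3
      have h4 := congrArg (constantCoeff (R := k)) h3
      rw [map_zero, map_mul, h2.S0, constantCoeff_C, mul_one] at h4
      exact hne h4.symm
    have htr := P7.transc h2.R0 hR2 (hrat u₂ v₂).1
    have h3 := h1.comp hb h2
    have e1 : ((u₁ : k) + v₁ * σ) * ((u₂ : k) + v₂ * σ) =
        (((u₁ * u₂ - 15 * (v₁ * v₂) : ℤ) : k) + ((u₁ * v₂ + v₁ * u₂ : ℤ) : k) * σ) := by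
      push_cast
      linear_combination (v₁ : k) * v₂ * hσ
    rw [e1] at h3
    obtain ⟨e2, -⟩ := Sol.unique hb (hsol _ _) h3
    have h4 := (hrat (u₁ * u₂ - 15 * (v₁ * v₂)) (u₁ * v₂ + v₁ * u₂)).1
    rw [e2] at h4
    rw [P7.comp_eq h2.R0 htr (hrat u₁ v₁).1 (hrat u₂ v₂).1 h4, ht_cmp]
  have hσ0 : σ ≠ 0 := by
    rintro rfl
    norm_num at hσ
  -- `σ`
  have h15 : (ht (f 0 1) : ℤ) = 15 := by
    have h1 := hmult 0 1 0 1 (by push_cast; simpa using hσ0)
    have h2 := hmulZ (-15) 1 0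
    have e1 : (0 * 0 - 15 * (1 * 1) : ℤ) = -15 * 1 := by norm_num
    have e2 : (0 * 1 + 1 * 0 : ℤ) = -15 * 0 := by norm_num
    rw [e1, e2] at h1
    rw [h1, ho] at h2
    push_cast at h2
    have h3 : (0 : ℤ) ≤ ht (f 0 1) := Int.natCast_nonneg _
    nlinarith
  by_cases hxy : ((x : k) + (-y : ℤ) * σ) = 0
  · -- then `x = y = 0`
    have h1 : (x : k) ^ 2 = -15 * (y : k) ^ 2 := by
      have h2 : (x : k) = y * σ := by
        push_cast at hxy
        linear_combination hxy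
      rw [h2, mul_pow, hσ]
      ring
    have h2 : x ^ 2 = -15 * y ^ 2 := by exact_mod_cast h1
    have hx : x = 0 := by nlinarith [sq_nonneg x, sq_nonneg y]
    have hy : y = 0 := by nlinarith [sq_nonneg x, sq_nonneg y]
    rw [hx, hy, hz]
    norm_num
  · have h1 := hmult x y x (-y) hxy
    have h2 := hmulZ (x ^ 2 + 15 * y ^ 2) 1 0
    have e1 : x * x - 15 * (y * -y) = (x ^ 2 + 15 * y ^ 2) * 1 := by ring
    have e2 : x * -y + y * x = (x ^ 2 + 15 * y ^ 2) * 0 := by ring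
    rw [e1, e2] at h1
    rw [h1, ho] at h2
    push_cast at h2
    have h3 := hpar x 0 0 y
    rw [add_zero, zero_add, sub_zero, zero_sub] at h3
    have h4 := hmulZ x 1 0
    have h5 := hmulZ y 0 1
    rw [mul_one, mul_zero, ho] at h4
    rw [mul_one, mul_zero, h15] at h5
    rw [h4, h5] at h3
    push_cast at h3
    have h6 : ((ht (f x y) : ℤ) - ht (f x (-y))) ^ 2 = 0 := by
      have h7 : (ht (f x (-y)) : ℤ) = 2 * (x ^ 2 + 15 * y ^ 2) - ht (f x y) := by linarith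
      rw [h7] at h2 ⊢
      linear_combination (-4) * h2
    have h8 : (ht (f x y) : ℤ) = ht (f x (-y)) := by
      have := pow_eq_zero_iff (two_ne_zero) |>.1 h6
      linarith
    linarith

end Pool.Agent.DF49E3
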