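import Pool.Agent.DF49E3.Defs

set_option autoImplicit false

/-!
# P1: the generating function of the Legendre polynomials
-/

namespace Pool.Agent.DF49E3

open PowerSeries

namespace P1

section Field

variable {K : Type*} [Field K] [CharZero K]

/-- The coefficients `C(n,k) C(n+k,k)`. -/
def cc (K : Type*) [Field K] (n k : ℕ) : K := (n.choose k : K) * ((n + k).choose k : K)

omit [CharZero K] in
theorem cc_zero (n : ℕ) : cc K n 0 = 1 := by simp [cc]

theorem cc_eq_zero {n k : ℕ} (h : n < k) : cc K n k = 0 := by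
  simp [cc, Nat.choose_eq_zero_of_lt h]

theorem cc_vert (n k : ℕ) :
    ((k : K) + 1) ^ 2 * cc K n (k + 1) = ((n : K) - k) * (n + k + 1) * cc K n k := by
  rcases lt_or_ge n k with h | h
  · rw [cc_eq_zero h, cc_eq_zero (by omega)]
    ring
  · have h1 : (n.choose (k + 1) : K) * (k + 1) = n.choose k * ((n : K) - k) := by
      have := Nat.choose_succ_right_eq n k
      rw [← Nat.cast_sub h]
      exact_mod_cast this
    have h2 : ((n : K) + k + 1) * (n + k).choose k = (n + k + 1).choose (k + 1) * (k + 1) := by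
      have := Nat.add_one_mul_choose_eq (n + k) k
      exact_mod_cast this
    unfold cc
    rw [show n + (k + 1) = n + k + 1 by ring]
    linear_combination (((n + k + 1).choose (k + 1) : K) * (k + 1)) * h1 -
      (n.choose k * ((n : K) - k)) * h2

theorem cc_horiz (n k : ℕ) :
    ((n : K) + 1 - k) * cc K (n + 1) k = (n + 1 + k) * cc K n k := by
  rcases lt_trichotomy (n + 1) k with h | h | h
  · rw [cc_eq_zero h, cc_eq_zero (by omega)]
    ring
  · subst h
    rw [cc_eq_zero (n := n) (by omega)]
    push_cast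
    ring
  · have h1 : (n.choose k : K) * (n + 1) = (n + 1).choose k * ((n : K) + 1 - k) := by
      have := Nat.choose_mul_succ_eq n k
      have h3 : ((n + 1 - k : ℕ) : K) = (n : K) + 1 - k := by
        rw [Nat.cast_sub (by omega)]
        push_cast
        ring
      rw [← h3]
      exact_mod_cast this
    have h2 : ((n + k).choose k : K) * (n + k + 1) = (n + k + 1).choose k * (n + 1) := by
      have := Nat.choose_mul_succ_eq (n + k) k
      rw [show n + k + 1 - k = n + 1 by omega] at this
      exact_mod_cast this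
    have h3 : (n : K) + 1 ≠ 0 := Nat.cast_add_one_ne_zero n
    apply mul_left_cancel₀ h3
    unfold cc
    rw [show n + 1 + k = n + k + 1 by ring]
    linear_combination (-(((n + k + 1).choose k : K)) * (n + 1)) * h1 -
      (n.choose k * ((n : K) + 1)) * h2

theorem cc_rec (m k : ℕ) :
    ((m : K) + 2) * cc K (m + 2) (k + 1) =
      (2 * m + 3) * (cc K (m + 1) (k + 1) + 2 * cc K (m + 1) k) - (m + 1) * cc K m (k + 1) := by
  have v1 := cc_vert (K := K) (m + 2) k
  have v2 := cc_vert (K := K) (m + 1) k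
  have v3 := cc_vert (K := K) m k
  have h1 := cc_horiz (K := K) (m + 1) k
  have h2 := cc_horiz (K := K) m k
  have h3 : (k : K) + 1 ≠ 0 := Nat.cast_add_one_ne_zero k
  apply mul_left_cancel₀ (pow_ne_zero 2 h3)
  push_cast at v1 v2 v3 h1 h2
  linear_combination ((m : K) + 2) * v1 - (2 * m + 3) * v2 + (m + 1) * v3 +
    (m + 2) * (m + k + 3) * h1 - (m + 1) * ((m : K) - k) * h2

theorem legSum_eq (a : K) {n N : ℕ} (h : n ≤ N) :
    legSum n a = ∑ k ∈ Finset.range (N + 1), cc K n k * ((a - 1) / 2) ^ k := by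
  unfold legSum
  apply Finset.sum_subset (Finset.range_subset_range.2 (by omega))
  intro k _ hk
  rw [Finset.mem_range, not_lt] at hk
  have := cc_eq_zero (K := K) (n := n) (k := k) (by omega)
  unfold cc at this
  rw [this, zero_mul]

theorem legSum_rec (a : K) (m : ℕ) :
    ((m : K) + 2) * legSum (m + 2) a = (2 * m + 3) * a * legSum (m + 1) a -
      (m + 1) * legSum m a := by
  rw [legSum_eq a (n := m + 2) (N := m + 2) le_rfl,
    legSum_eq a (n := m) (N := m + 2) (by omega)]
  obtain ⟨u, hu⟩ : ∃ u, u = (a - 1) / 2 := ⟨_, rfl⟩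
  have ha : a = 1 + 2 * u := by
    rw [hu]
    field_simp
    ring
  have e1 : legSum (m + 1) a = ∑ k ∈ Finset.range (m + 2), cc K (m + 1) k * u ^ k := by
    rw [hu]
    exact legSum_eq a (n := m + 1) (N := m + 1) le_rfl
  have e2 : legSum (m + 1) a =
      ∑ k ∈ Finset.range (m + 2), cc K (m + 1) (k + 1) * u ^ (k + 1) + 1 := by
    rw [legSum_eq a (n := m + 1) (N := m + 2) (by omega), ← hu, Finset.sum_range_succ', cc_zero]
    ring
  rw [← hu, Finset.sum_range_succ', Finset.sum_range_succ' (fun k => cc K m k * u ^ k), cc_zero,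
    cc_zero, pow_zero]
  have e3 : (2 * (m : K) + 3) * a * legSum (m + 1) a =
      (2 * m + 3) * (∑ k ∈ Finset.range (m + 2), cc K (m + 1) (k + 1) * u ^ (k + 1) + 1) +
      (2 * m + 3) * (2 * u * ∑ k ∈ Finset.range (m + 2), cc K (m + 1) k * u ^ k) := by
    rw [← e1, ← e2, ha]
    ring
  rw [e3]
  have e4 : ((m : K) + 2) * ∑ k ∈ Finset.range (m + 2), cc K (m + 2) (k + 1) * u ^ (k + 1) =
      (2 * m + 3) * ∑ k ∈ Finset.range (m + 2), cc K (m + 1) (k + 1) * u ^ (k + 1) +
      (2 * m + 3) * (2 * u * ∑ k ∈ Finset.range (m + 2), cc K (m + 1) k * u ^ k) -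
      (m + 1) * ∑ k ∈ Finset.range (m + 2), cc K m (k + 1) * u ^ (k + 1) := by
    simp only [Finset.mul_sum]
    rw [← Finset.sum_add_distrib, ← Finset.sum_sub_distrib]
    apply Finset.sum_congr rfl
    intro k _
    linear_combination u ^ (k + 1) * cc_rec (K := K) m k
  linear_combination e4

omit [CharZero K] in
theorem legSum_zero (a : K) : legSum 0 a = 1 := by
  simp [legSum]

theorem legSum_one (a : K) : legSum 1 a = a := by
  simp [legSum, Finset.sum_range_succ]
  field_simp
  ring

end Field

end P1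

open P1 in
/-- P1a -/
theorem legendre_gf {K : Type*} [Field K] [CharZero K] (a : K) :
    (PowerSeries.mk fun n => legSum n a) ^ 2 * (1 - C (2 * a) * X + X ^ 2) = 1 := by
  set G : K⟦X⟧ := PowerSeries.mk fun n => legSum n a with hG
  have h1 : d⁄dX K G * (1 - C (2 * a) * X + X ^ 2) = (C a - X) * G := by
    have e1 : d⁄dX K G * (1 - C (2 * a) * X + X ^ 2) =
        d⁄dX K G - C (2 * a) * (X * d⁄dX K G) + X * (X * d⁄dX K G) := by ring
    rw [e1, sub_mul]
    ext n
    rcases n with _ | _ | n
    · simp only [map_add, map_sub, coeff_C_mul, coeff_zero_X_mul, coeff_derivative, hG, coeff_mk,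
        legSum_zero, legSum_one, zero_add]
      push_cast
      ring
    · simp only [map_add, map_sub, coeff_C_mul, coeff_succ_X_mul, coeff_zero_X_mul,
        coeff_derivative, hG, coeff_mk, legSum_zero, legSum_one, zero_add]
      have := legSum_rec a 0
      rw [legSum_zero, legSum_one] at this
      push_cast at this ⊢
      linear_combination this
    · simp only [map_add, map_sub, coeff_C_mul, coeff_succ_X_mul,
        coeff_derivative, hG, coeff_mk]
      have := legSum_rec a (n + 1)
      push_cast at this ⊢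
      linear_combination this
  have h2 : d⁄dX K (1 - C (2 * a) * X + X ^ 2 : K⟦X⟧) = - C (2 * a) + 2 * X := by
    simp [Derivation.leibniz, Derivation.leibniz_pow]
    try ring
  apply derivative.ext
  · rw [Derivation.leibniz, h2, pow_two, Derivation.leibniz]
    simp only [smul_eq_mul, derivative_one]
    have e2 : (C (2 * a) : K⟦X⟧) = 2 * C a := by
      rw [map_mul]
      rfl
    rw [e2] at h1 ⊢
    linear_combination (2 * G) * h1
  · have e3 : constantCoeff G = 1 := by
      rw [← coeff_zero_eq_constantCoeff_apply, hG, coeff_mk, legSum_zero]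
    simp [e3]

open P1 in
/-- P1b -/
theorem exists_base {p : ℕ} [Fact p.Prime] (hp : p ≠ 2) (a : ℤ_[p]) :
    ∃ (w G : ℤ_[p]⟦X⟧), Base a w ∧ w * G = 1 ∧
      (∀ n : ℕ, ((coeff (2 * n) G : ℤ_[p]) : ℚ_[p]) = legSum n (a : ℚ_[p])) ∧
      (∀ n : ℕ, coeff (2 * n + 1) G = 0) := by
  have hinj : Function.Injective (algebraMap ℤ_[p] ℚ_[p]) := IsFractionRing.injective _ _
  have h2 : IsUnit (2 : ℤ_[p]) := by
    have h3 : IsUnit ((2 : ℕ) : ℤ_[p]) := by
      rw [PadicInt.isUnit_iff, PadicInt.norm_natCast_eq_one_iff]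
      exact (Nat.coprime_primes Fact.out Nat.prime_two).2 hp
    exact_mod_cast h3
  obtain ⟨h, hh⟩ := h2.exists_right_inv
  set g : ℕ → ℤ_[p] := fun n => ∑ k ∈ Finset.range (n + 1),
    (n.choose k : ℤ_[p]) * ((n + k).choose k : ℤ_[p]) * ((a - 1) * h) ^ k with hg
  have hcast : ∀ n, algebraMap ℤ_[p] ℚ_[p] (g n) = legSum n (a : ℚ_[p]) := by
    intro n
    have e1 : algebraMap ℤ_[p] ℚ_[p] h = 1 / 2 := by
      have := congrArg (algebraMap ℤ_[p] ℚ_[p]) hh
      rw [map_mul, map_one, map_ofNat] at this
      field_simp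
      linear_combination this
    unfold legSum
    simp only [hg, map_sum, map_mul, map_pow, map_natCast, map_sub, map_one, e1]
    apply Finset.sum_congr rfl
    intro k _
    have e2 : algebraMap ℤ_[p] ℚ_[p] a = (a : ℚ_[p]) := rfl
    rw [e2]
    ring
  have hG0 : (PowerSeries.mk g) ^ 2 * (1 - C (2 * a) * X + X ^ 2) = 1 := by
    have hinj' : Function.Injective (PowerSeries.map (algebraMap ℤ_[p] ℚ_[p])) :=
      PowerSeries.map_injective _ hinj
    apply hinj'
    have e1 : PowerSeries.map (algebraMap ℤ_[p] ℚ_[p]) (PowerSeries.mk g) =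
        PowerSeries.mk fun n => legSum n (a : ℚ_[p]) := by
      ext n
      rw [coeff_map, coeff_mk, coeff_mk, hcast]
    rw [map_mul, map_pow, e1, map_one, ← legendre_gf (a : ℚ_[p])]
    congr 1
    simp only [map_add, map_sub, map_mul, map_pow, map_one, map_C, map_X, map_ofNat]
    rfl
  have hG : (expand 2 two_ne_zero (PowerSeries.mk g)) ^ 2 *
      (1 - C (2 * a) * X ^ 2 + X ^ 4) = 1 := by
    have := congrArg (expand 2 two_ne_zero) hG0
    simp only [map_add, map_sub, map_mul, map_pow, map_one, expand_C, expand_X] at this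
    rw [← pow_mul] at this
    simp only [map_mul]
    exact this
  set G := expand 2 two_ne_zero (PowerSeries.mk g) with hGdef
  have hG1 : constantCoeff G = 1 := by
    rw [hGdef, constantCoeff_expand, ← coeff_zero_eq_constantCoeff_apply, coeff_mk]
    simp [hg]
  refine ⟨(1 - C (2 * a) * X ^ 2 + X ^ 4) * G, G, ⟨?_, ?_⟩, ?_, ?_, ?_⟩
  · simp [hG1]
  · linear_combination (1 - C (2 * a) * X ^ 2 + X ^ 4) * hG
  · linear_combination hG
  · intro n
    rw [hGdef, coeff_expand_mul, coeff_mk]
    exact hcast n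
  · intro n
    rw [hGdef]
    apply coeff_expand_of_not_dvd
    omega

end Pool.Agent.DF49E3
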