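import Pool.Agent.DF49E3.Defs

set_option autoImplicit false

/-!
Package P2 of MP_df49e3_nt (helper84): the final `p`-adic deduction.
-/

namespace Pool.Agent.DF49E3

open PowerSeries

namespace P2

theorem aeval_sq {K : Type*} [Field K] (P : Polynomial K) :
    Polynomial.aeval ((X : K⟦X⟧) ^ 2) P = ((Polynomial.expand K 2 P : Polynomial K) : K⟦X⟧) := by
  have h4 := Polynomial.aeval_algHom_apply (Polynomial.coeToPowerSeries.algHom (R := K) K)
    ((Polynomial.X : Polynomial K) ^ 2) P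
  simp only [map_pow, Polynomial.coeToPowerSeries.algHom_apply, Polynomial.coe_X,
    Algebra.algebraMap_self, PowerSeries.map_id, id] at h4
  rw [h4]
  congr 1

theorem coeff_aeval_sq {K : Type*} [Field K] (P : Polynomial K) (i : ℕ) :
    coeff i (Polynomial.aeval ((X : K⟦X⟧) ^ 2) P) = if 2 ∣ i then P.coeff (i / 2) else 0 := by
  rw [aeval_sq, Polynomial.coeff_coe, Polynomial.coeff_expand (by norm_num)]

variable {p : ℕ} [Fact p.Prime]

theorem not_dvd_natCast {j : ℕ} (h1 : 1 ≤ j) (h2 : j < p) : ¬ (p : ℤ_[p]) ∣ (j : ℤ_[p]) := by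
  intro h
  have h3 : ‖((j : ℤ) : ℤ_[p])‖ < 1 := by
    rw [PadicInt.norm_lt_one_iff_dvd]
    exact_mod_cast h
  rw [PadicInt.norm_int_lt_one_iff_dvd] at h3
  have h4 : p ∣ j := by exact_mod_cast h3
  exact absurd (Nat.le_of_dvd (by omega) h4) (by omega)

theorem dvd_coeff_R {α : ℤ_[p]} {R T : ℤ_[p]⟦X⟧} (hα : (p : ℤ_[p]) ∣ α)
    (h0 : constantCoeff R = 0) (hR : derivative ℤ_[p] R = C α * T) :
    ∀ i < p, (p : ℤ_[p]) ∣ coeff i R := by
  intro i hi
  rcases i with _ | j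
  · rw [coeff_zero_eq_constantCoeff_apply, h0]
    exact dvd_zero _
  · have h1 := congrArg (coeff j) hR
    rw [coeff_derivative, coeff_C_mul] at h1
    have h2 : (p : ℤ_[p]) ∣ coeff (j + 1) R * ((j : ℤ_[p]) + 1) := by
      rw [h1]
      exact Dvd.dvd.mul_right hα _
    rcases PadicInt.prime_p.dvd_or_dvd h2 with h | h
    · exact h
    · exfalso
      exact not_dvd_natCast (p := p) (j := j + 1) (by omega) hi (by exact_mod_cast h)

theorem dvd_coeff_sq {R : ℤ_[p]⟦X⟧} (h0 : constantCoeff R = 0)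
    (hR : ∀ i < p, (p : ℤ_[p]) ∣ coeff i R) (j : ℕ) (hj : j ≤ p) :
    (p : ℤ_[p]) ^ 2 ∣ coeff j (R ^ 2) := by
  rw [show R ^ 2 = R * R from pow_two R, coeff_mul]
  apply Finset.dvd_sum
  intro x hx
  rw [Finset.HasAntidiagonal.mem_antidiagonal] at hx
  have h00 : coeff 0 R = 0 := by rw [coeff_zero_eq_constantCoeff_apply, h0]
  rcases Nat.eq_zero_or_pos x.1 with h | h
  · rw [h, h00, zero_mul]
    exact dvd_zero _
  · rcases Nat.eq_zero_or_pos x.2 with h' | h'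
    · rw [h', h00, mul_zero]
      exact dvd_zero _
    · rw [pow_two]
      exact mul_dvd_mul (hR _ (by omega)) (hR _ (by omega))

theorem comp_eq {a α : ℤ_[p]} {w G R S : ℤ_[p]⟦X⟧} (hb : Base a w)
    (hwG : w * G = 1) (hsol : Sol a w α R S) :
    ∃ φ : ℤ_[p]⟦X⟧ →ₐ[ℤ_[p]] ℤ_[p]⟦X⟧, φ X = R ∧ derivative ℤ_[p] R * φ G = C α * G := by
  have hs : HasSubst R := HasSubst.of_constantCoeff_zero' hsol.R0
  refine ⟨substAlgHom hs, substAlgHom_X hs, ?_⟩
  set φ := substAlgHom (R := ℤ_[p]) hs with hφ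
  have hX : φ X = R := substAlgHom_X hs
  have hC : ∀ r : ℤ_[p], φ (C r) = C r := fun r => φ.commutes r
  have hw2 : φ w ^ 2 = S ^ 2 := by
    rw [← map_pow, hb.w2, hsol.quartic]
    simp only [map_add, map_sub, map_mul, map_pow, map_one, hX, hC]
  have hcc : constantCoeff (φ w) = 1 := by
    have hd : (X : ℤ_[p]⟦X⟧) ∣ w - 1 := by
      rw [X_dvd_iff, map_sub, hb.w0, map_one, sub_self]
    obtain ⟨w1, hw1⟩ := hd
    have e : w = 1 + X * w1 := by rw [← hw1]; ring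
    rw [e, map_add, map_one, map_mul, hX, map_add, map_one, map_mul, hsol.R0, zero_mul, add_zero]
  have hwS : φ w = S := by
    rcases sq_eq_sq_iff_eq_or_eq_neg.1 hw2 with h | h
    · exact h
    · exfalso
      have h1 := congrArg constantCoeff h
      rw [hcc, map_neg, hsol.S0] at h1
      have h2 : (2 : ℤ_[p]) = 0 := by linear_combination h1
      exact two_ne_zero h2
  have hGS : S * φ G = 1 := by
    rw [← hwS, ← map_mul, hwG, map_one]
  have h := hsol.ode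
  calc derivative ℤ_[p] R * φ G = (w * G) * derivative ℤ_[p] R * φ G := by rw [hwG, one_mul]
    _ = G * φ G * (w * derivative ℤ_[p] R) := by ring
    _ = G * φ G * (C α * S) := by rw [h]
    _ = C α * G * (S * φ G) := by ring
    _ = C α * G := by rw [hGS, mul_one]

/-- The `p`-adic heart: `α G_{p-1} = p R_p + O(p³)`. -/
theorem coeff_eq {a α : ℤ_[p]} {w G R S : ℤ_[p]⟦X⟧} (n : ℕ) (hn : p = 2 * n + 1) (hp5 : 5 ≤ p)
    (hb : Base a w) (hwG : w * G = 1) (hsol : Sol a w α R S) (hα : (p : ℤ_[p]) ∣ α) :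
    (∀ i < p, (p : ℤ_[p]) ∣ coeff i R) ∧
      ∃ z : ℤ_[p], α * coeff (2 * n) G = p * coeff p R + (p : ℤ_[p]) ^ 3 * z := by
  have hR' : derivative ℤ_[p] R = C α * (S * G) := by
    calc derivative ℤ_[p] R = (w * G) * derivative ℤ_[p] R := by rw [hwG, one_mul]
      _ = G * (w * derivative ℤ_[p] R) := by ring
      _ = C α * (S * G) := by rw [hsol.ode]; ring
  have hdR := dvd_coeff_R hα hsol.R0 hR'
  refine ⟨hdR, ?_⟩
  obtain ⟨φ, hX, hφ⟩ := comp_eq hb hwG hsol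
  have hC : ∀ r : ℤ_[p], φ (C r) = C r := fun r => φ.commutes r
  have hG0 : coeff 0 G = 1 := by
    have := congrArg constantCoeff hwG
    rw [map_mul, hb.w0, one_mul, map_one] at this
    rw [coeff_zero_eq_constantCoeff_apply, this]
  have hd : (X : ℤ_[p]⟦X⟧) ^ 2 ∣ G - (1 + C (coeff 1 G) * X) := by
    rw [X_pow_dvd_iff]
    intro m hm
    interval_cases m
    · simp only [map_sub, map_add, coeff_zero_one, hG0, coeff_zero_mul_X, add_zero, sub_self]
    · have : coeff 1 (C (coeff 1 G) * X : ℤ_[p]⟦X⟧) = coeff 1 G := by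
        rw [coeff_C_mul, coeff_one_X, mul_one]
      rw [map_sub, map_add, this, coeff_one, if_neg (by norm_num), zero_add, sub_self]
  obtain ⟨G2, hG2⟩ := hd
  have eG : G = 1 + C (coeff 1 G) * X + X ^ 2 * G2 := by rw [← hG2]; ring
  have hφG : φ G = 1 + C (coeff 1 G) * R + R ^ 2 * φ G2 := by
    conv_lhs => rw [eG]
    simp only [map_add, map_one, map_mul, map_pow, hX, hC]
  have h1 := congrArg (coeff (2 * n)) hφ
  rw [coeff_C_mul, hφG, mul_add, mul_add, mul_one, map_add, map_add, coeff_derivative] at h1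
  -- the term with `R²`
  have t2 : (p : ℤ_[p]) ^ 3 ∣ coeff (2 * n) (derivative ℤ_[p] R * (R ^ 2 * φ G2)) := by
    have e : derivative ℤ_[p] R * (R ^ 2 * φ G2) = R ^ 2 * (C α * (S * G * φ G2)) := by
      rw [hR']; ring
    rw [e, coeff_mul]
    apply Finset.dvd_sum
    intro x hx
    rw [Finset.HasAntidiagonal.mem_antidiagonal] at hx
    rw [coeff_C_mul, show (3 : ℕ) = 2 + 1 from rfl, pow_succ]
    exact mul_dvd_mul (dvd_coeff_sq hsol.R0 hdR _ (by omega)) (Dvd.dvd.mul_right hα _)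
  -- the term with `R`
  have t1 : (p : ℤ_[p]) ^ 3 ∣ coeff (2 * n) (derivative ℤ_[p] R * (C (coeff 1 G) * R)) := by
    have e : derivative ℤ_[p] R * (C (coeff 1 G) * R)
        = C (coeff 1 G) * (R * derivative ℤ_[p] R) := by ring
    rw [e, coeff_C_mul]
    apply Dvd.dvd.mul_left
    have e2 : derivative ℤ_[p] (R ^ 2) = 2 * (R * derivative ℤ_[p] R) := by
      rw [pow_two, Derivation.leibniz, smul_eq_mul]
      ring
    have e3 := congrArg (coeff (2 * n)) e2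
    rw [coeff_derivative, show (2 : ℤ_[p]⟦X⟧) = C 2 from (map_ofNat C 2).symm,
      coeff_C_mul] at e3
    have e4 : (((2 * n : ℕ) : ℤ_[p]) + 1) = p := by
      have := congrArg (fun m : ℕ => (m : ℤ_[p])) hn
      simp only [Nat.cast_add, Nat.cast_one] at this
      exact this.symm
    rw [e4, ← hn] at e3
    have e5 : (p : ℤ_[p]) ^ 3 ∣ 2 * coeff (2 * n) (R * derivative ℤ_[p] R) := by
      rw [← e3, show (3 : ℕ) = 2 + 1 from rfl, pow_succ]
      exact mul_dvd_mul (dvd_coeff_sq hsol.R0 hdR _ le_rfl) dvd_rfl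
    have hu : IsUnit (2 : ℤ_[p]) := by
      by_contra hcon
      have h2 : ¬ (p : ℤ_[p]) ∣ ((2 : ℕ) : ℤ_[p]) := not_dvd_natCast (by norm_num) (by omega)
      apply h2
      rw [← PadicInt.norm_lt_one_iff_dvd]
      rw [← PadicInt.not_isUnit_iff]
      exact_mod_cast hcon
    exact (hu.dvd_mul_left).1 e5
  obtain ⟨z1, hz1⟩ := t1
  obtain ⟨z2, hz2⟩ := t2
  have e4 : (((2 * n : ℕ) : ℤ_[p]) + 1) = p := by
    have := congrArg (fun m : ℕ => (m : ℤ_[p])) hn
    simp only [Nat.cast_add, Nat.cast_one] at this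
    exact this.symm
  rw [hz1, hz2, e4, ← hn] at h1
  exact ⟨z1 + z2, by rw [← h1]; ring⟩

theorem norm_le_of_dvd {x : ℤ_[p]} (h : (p : ℤ_[p]) ∣ x) : ‖(x : ℚ_[p])‖ ≤ (p : ℝ)⁻¹ := by
  obtain ⟨y, rfl⟩ := h
  rw [PadicInt.coe_mul, PadicInt.coe_natCast, norm_mul, Padic.norm_p]
  have h1 : ‖(y : ℚ_[p])‖ ≤ 1 := y.2
  have h2 : (0 : ℝ) ≤ (p : ℝ)⁻¹ := by positivity
  nlinarith

theorem norm_sum_le {ι : Type*} (s : Finset ι) (f : ι → ℚ_[p]) {B : ℝ} (hB : 0 ≤ B)
    (h : ∀ i ∈ s, ‖f i‖ ≤ B) : ‖∑ i ∈ s, f i‖ ≤ B := by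
  classical
  induction s using Finset.induction_on with
  | empty => simpa using hB
  | insert i s hi ih =>
    rw [Finset.sum_insert hi]
    refine (Padic.nonarchimedean _ _).trans (max_le ?_ ?_)
    · exact h i (Finset.mem_insert_self _ _)
    · exact ih fun j hj => h j (Finset.mem_insert_of_mem hj)

end P2

/-- P2: the final `p`-adic deduction. -/
theorem final_congr {p : ℕ} [Fact p.Prime] (n : ℕ) (hn : p = 2 * n + 1) (hp5 : 5 ≤ p)
    (a α β : ℤ_[p]) (w G R S : ℤ_[p]⟦X⟧) (hb : Base a w) (hwG : w * G = 1)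
    (hG : ∀ n : ℕ, ((coeff (2 * n) G : ℤ_[p]) : ℚ_[p]) = legSum n (a : ℚ_[p]))
    (hsol : Sol a w α R S) (hαβ : α * β = (p : ℤ_[p])) (hβ : IsUnit β)
    (D : Polynomial ℚ_[p]) (hdeg : D.natDegree ≤ n) (hD0 : D.coeff 0 = 1) (ρ : ℚ_[p])
    (hρ : ρ ^ 2 = 1)
    (hR : Polynomial.aeval ((X : ℚ_[p]⟦X⟧) ^ 2) D * PowerSeries.map (algebraMap ℤ_[p] ℚ_[p]) R =
      X * (C ρ * Polynomial.aeval ((X : ℚ_[p]⟦X⟧) ^ 2) (D.reflect n))) :
    ∃ z : ℤ_[p], legSum n (a : ℚ_[p]) - ρ * (β : ℚ_[p]) = (p : ℚ_[p]) ^ 2 * (z : ℚ_[p]) := by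
  have hp0 : (0 : ℝ) < p := by exact_mod_cast (Fact.out : p.Prime).pos
  have hp1 : (1 : ℝ) < p := by exact_mod_cast (Fact.out : p.Prime).one_lt
  have hpz : (p : ℤ_[p]) ≠ 0 := by exact_mod_cast (Fact.out : p.Prime).ne_zero
  have hpq : (p : ℚ_[p]) ≠ 0 := by exact_mod_cast (Fact.out : p.Prime).ne_zero
  have hα : (p : ℤ_[p]) ∣ α := by
    obtain ⟨u, hu⟩ := hβ
    refine ⟨(u⁻¹ : ℤ_[p]ˣ), ?_⟩
    rw [← hαβ, ← hu, mul_assoc, Units.mul_inv, mul_one]
  obtain ⟨hdR, z, hz⟩ := P2.coeff_eq n hn hp5 hb hwG hsol hα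
  -- `G_{2n} = β R_p + p² β z`
  have hmain : coeff (2 * n) G = β * coeff p R + (p : ℤ_[p]) ^ 2 * (β * z) := by
    apply mul_left_cancel₀ hpz
    calc (p : ℤ_[p]) * coeff (2 * n) G = β * (α * coeff (2 * n) G) := by rw [← hαβ]; ring
      _ = β * (p * coeff p R + (p : ℤ_[p]) ^ 3 * z) := by rw [hz]
      _ = _ := by ring
  -- norms of the coefficients of `R`
  have hRc : ∀ i, coeff i (PowerSeries.map (algebraMap ℤ_[p] ℚ_[p]) R) = ((coeff i R : ℤ_[p]) : ℚ_[p]) := by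
    intro i
    rw [coeff_map]
    rfl
  have hRn : ∀ i < p, ‖coeff i (PowerSeries.map (algebraMap ℤ_[p] ℚ_[p]) R)‖ ≤ (p : ℝ)⁻¹ := by
    intro i hi
    rw [hRc]
    exact P2.norm_le_of_dvd (hdR i hi)
  have hρn : ‖ρ‖ = 1 := by
    have : ‖ρ‖ ^ 2 = 1 := by rw [← norm_pow, hρ, norm_one]
    nlinarith [norm_nonneg ρ]
  -- coefficient comparison
  have hcoef : ∀ j ≤ n, ρ * D.coeff (n - j) =
      ∑ x ∈ Finset.HasAntidiagonal.antidiagonal (2 * j + 1), coeff x.1 (Polynomial.aeval ((X : ℚ_[p]⟦X⟧) ^ 2) D) *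
        coeff x.2 (PowerSeries.map (algebraMap ℤ_[p] ℚ_[p]) R) := by
    intro j hj
    have h1 := congrArg (coeff (2 * j + 1)) hR
    rw [coeff_mul, mul_comm X, coeff_succ_mul_X, coeff_C_mul, P2.coeff_aeval_sq,
      if_pos (Dvd.intro _ rfl), Nat.mul_div_cancel_left _ (by norm_num : 0 < 2),
      Polynomial.coeff_reflect, Polynomial.revAt_le hj] at h1
    exact h1.symm
  obtain ⟨i0, hi0, hmax⟩ := Finset.exists_max_image (Finset.range (n + 1))
    (fun i => ‖D.coeff i‖) ⟨0, Finset.mem_range.2 (by omega)⟩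
  set M : ℝ := ‖D.coeff i0‖ with hM
  have hM1 : 1 ≤ M := by
    have := hmax 0 (Finset.mem_range.2 (by omega))
    rw [hD0, norm_one] at this
    exact this
  have hDle : ∀ i, ‖D.coeff i‖ ≤ M := by
    intro i
    by_cases hi : i ≤ n
    · exact hmax i (Finset.mem_range.2 (by omega))
    · rw [Polynomial.coeff_eq_zero_of_natDegree_lt (by omega), norm_zero]
      linarith
  have hAle : ∀ i, ‖coeff i (Polynomial.aeval ((X : ℚ_[p]⟦X⟧) ^ 2) D)‖ ≤ M := by
    intro i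
    rw [P2.coeff_aeval_sq]
    split_ifs
    · exact hDle _
    · rw [norm_zero]; linarith
  have hDsmall : ∀ i, 1 ≤ i → ‖D.coeff i‖ ≤ (p : ℝ)⁻¹ * M := by
    intro i hi
    by_cases hin : i ≤ n
    · have h1 := hcoef (n - i) (by omega)
      rw [Nat.sub_sub_self hin] at h1
      have h2 : ‖ρ * D.coeff i‖ = ‖D.coeff i‖ := by rw [norm_mul, hρn, one_mul]
      rw [← h2, h1]
      apply P2.norm_sum_le
      · positivity
      · intro x hx
        rw [Finset.HasAntidiagonal.mem_antidiagonal] at hx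
        rw [norm_mul, mul_comm]
        exact mul_le_mul (hRn _ (by omega)) (hAle _) (norm_nonneg _) (by positivity)
    · rw [Polynomial.coeff_eq_zero_of_natDegree_lt (by omega), norm_zero]
      positivity
  have hpinv : (p : ℝ)⁻¹ < 1 := inv_lt_one_of_one_lt₀ hp1
  have hM2 : M = 1 := by
    rcases Nat.eq_zero_or_pos i0 with h | h
    · rw [hM, h, hD0, norm_one]
    · exfalso
      have := hDsmall i0 h
      rw [← hM] at this
      nlinarith
  have hAsmall : ∀ i, 1 ≤ i → ‖coeff i (Polynomial.aeval ((X : ℚ_[p]⟦X⟧) ^ 2) D)‖ ≤ (p : ℝ)⁻¹ := by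
    intro i hi
    rw [P2.coeff_aeval_sq]
    split_ifs with h
    · have := hDsmall (i / 2) (by omega)
      rw [hM2, mul_one] at this
      exact this
    · rw [norm_zero]; positivity
  -- coefficient `p`
  have hfin := hcoef n le_rfl
  rw [Nat.sub_self, hD0, mul_one, ← hn] at hfin
  have hA0 : coeff 0 (Polynomial.aeval ((X : ℚ_[p]⟦X⟧) ^ 2) D) = 1 := by
    rw [P2.coeff_aeval_sq, if_pos (dvd_zero 2), Nat.zero_div, hD0]
  have hmem : ((0, p) : ℕ × ℕ) ∈ Finset.HasAntidiagonal.antidiagonal p := by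
    rw [Finset.HasAntidiagonal.mem_antidiagonal]
    simp
  rw [← Finset.add_sum_erase _ _ hmem, hA0, one_mul, hRc] at hfin
  have hdiff : ‖((coeff p R : ℤ_[p]) : ℚ_[p]) - ρ‖ ≤ ((p : ℝ)⁻¹) ^ 2 := by
    rw [hfin, ← norm_neg, neg_sub, add_sub_cancel_left]
    apply P2.norm_sum_le
    · positivity
    · intro x hx
      rw [Finset.mem_erase, Finset.HasAntidiagonal.mem_antidiagonal] at hx
      have h1 : 1 ≤ x.1 := by
        by_contra hcon
        apply hx.1
        have h0 : x.1 = 0 := by omega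
        exact Prod.ext h0 (by simp only; omega)
      rw [norm_mul, show ((p : ℝ)⁻¹) ^ 2 = (p : ℝ)⁻¹ * (p : ℝ)⁻¹ from pow_two _]
      exact mul_le_mul (hAsmall _ h1) (hRn _ (by omega)) (norm_nonneg _) (by positivity)
  -- conclusion
  have hy : ‖(((coeff p R : ℤ_[p]) : ℚ_[p]) - ρ) / (p : ℚ_[p]) ^ 2‖ ≤ 1 := by
    rw [norm_div, norm_pow, Padic.norm_p, div_le_one (by positivity)]
    exact hdiff
  refine ⟨β * ⟨(((coeff p R : ℤ_[p]) : ℚ_[p]) - ρ) / (p : ℚ_[p]) ^ 2, hy⟩ + β * z, ?_⟩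
  have h2 := hG n
  rw [← h2, hmain]
  push_cast
  field_simp
  ring

end Pool.Agent.DF49E3
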