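import Mathlib
import Pool.Agent.DF49E3.Defs

/-!
Package P4 of MP_df49e3_nt: the explicit generator (helper27).
-/

set_option autoImplicit false

namespace Pool.Agent.DF49E3

open PowerSeries

namespace P4

section Alg

variable {B : Type*} [CommRing B]

def Am (x e : B) : B := (1 - x) ^ 2 - 4 * e ^ 2 * x
def Ap (x e : B) : B := (1 - x) ^ 2 + 4 * e ^ 2 * x
def qq (e : B) : B := 8 * e * (1 + e ^ 2)
def Q0 (x : B) : B := x * (1 - x) ^ 2
def Um (x e : B) : B := Am x e ^ 2 - qq e * Q0 x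
def Up (x e : B) : B := Am x e ^ 2 + qq e * Q0 x
def PP (x e : B) : B := (e - 1) ^ 4 * Am x e ^ 2 * Q0 x
def VV (x e : B) : B := Up x e ^ 2 + 2 * PP x e
def Wd (x e : B) : B := (1 - x) ^ 2 + 4 * e ^ 4 * x
def NN (x e : B) : B := (1 - x) * Um x e * Am x e
def DD (x e : B) : B := (1 + x) * Up x e * Ap x e
def TT (x e : B) : B := VV x e ^ 2 - 4 * (1 - 2 * e ^ 4) * PP x e * VV x e + 4 * PP x e ^ 2

variable {B' : Type*} [CommRing B'] {G : Type*} [FunLike G B B'] [RingHomClass G B B'] (φ : G)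

@[simp] lemma map_Am (x e : B) : φ (Am x e) = Am (φ x) (φ e) := by
  simp [Am, map_ofNat φ]
@[simp] lemma map_Ap (x e : B) : φ (Ap x e) = Ap (φ x) (φ e) := by
  simp [Ap, map_ofNat φ]
@[simp] lemma map_qq (e : B) : φ (qq e) = qq (φ e) := by simp [qq, map_ofNat φ]
@[simp] lemma map_Q0 (x : B) : φ (Q0 x) = Q0 (φ x) := by simp [Q0]
@[simp] lemma map_Um (x e : B) : φ (Um x e) = Um (φ x) (φ e) := by simp [Um]
@[simp] lemma map_Up (x e : B) : φ (Up x e) = Up (φ x) (φ e) := by simp [Up]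
@[simp] lemma map_PP (x e : B) : φ (PP x e) = PP (φ x) (φ e) := by simp [PP]
@[simp] lemma map_VV (x e : B) : φ (VV x e) = VV (φ x) (φ e) := by simp [VV, map_ofNat φ]
@[simp] lemma map_Wd (x e : B) : φ (Wd x e) = Wd (φ x) (φ e) := by simp [Wd, map_ofNat φ]
@[simp] lemma map_NN (x e : B) : φ (NN x e) = NN (φ x) (φ e) := by simp [NN]
@[simp] lemma map_DD (x e : B) : φ (DD x e) = DD (φ x) (φ e) := by simp [DD]
@[simp] lemma map_TT (x e : B) : φ (TT x e) = TT (φ x) (φ e) := by simp [TT, map_ofNat φ]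

lemma I1 (x e : B) : Up x e ^ 2 + 4 * PP x e = (1 + x) ^ 2 * Wd x e * Ap x e ^ 2 := by
  simp only [Up, PP, Wd, Ap, Am, qq, Q0]; ring

lemma kap {e : B} (he : e ^ 4 - 4 * e ^ 3 + 5 * e ^ 2 - 2 * e + 4 = 0) :
    (e - 1) ^ 4 * e ^ 4 = - qq e := by
  simp only [qq]
  linear_combination e * (e ^ 3 + e + 2) * he

lemma I2 (x : B) {e : B} (he : e ^ 4 - 4 * e ^ 3 + 5 * e ^ 2 - 2 * e + 4 = 0) :
    Um x e ^ 2 = VV x e - 2 * (1 - 2 * e ^ 4) * PP x e := by
  have := kap he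
  simp only [Um, VV, PP, Up]
  linear_combination (-4) * Am x e ^ 2 * Q0 x * this

/-- `Den = V² - 4P²`. -/
lemma den_eq (x e : B) : VV x e ^ 2 - 4 * PP x e ^ 2 = Wd x e * DD x e ^ 2 := by
  have := I1 x e
  simp only [VV, DD]
  linear_combination Up x e ^ 2 * this

end Alg

section Der

variable {A B : Type*} [CommRing A] [CommRing B] [Algebra A B] (D : Derivation A B B)

lemma d_ofNat (n : ℕ) [n.AtLeastTwo] : D (ofNat(n) : B) = 0 :=
  Derivation.map_natCast D n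

/-- derivative with respect to `x` of `Am` -/
def Am' (x e : B) : B := -2 * (1 - x) - 4 * e ^ 2
def Q0' (x : B) : B := (1 - x) ^ 2 - 2 * x * (1 - x)
def Up' (x e : B) : B := 2 * Am x e * Am' x e + qq e * Q0' x
def PP' (x e : B) : B := (e - 1) ^ 4 * (2 * Am x e * Am' x e * Q0 x + Am x e ^ 2 * Q0' x)
def VV' (x e : B) : B := 2 * Up x e * Up' x e + 2 * PP' x e

lemma dAm (x e : B) (he : D e = 0) : D (Am x e) = Am' x e * D x := by
  simp only [Am, Am', map_sub, Derivation.leibniz, Derivation.leibniz_pow, smul_eq_mul,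
    nsmul_eq_mul, Derivation.map_one_eq_zero, d_ofNat, he]
  push_cast
  ring

lemma dqq (e : B) (he : D e = 0) : D (qq e) = 0 := by
  simp only [qq, map_add, Derivation.leibniz, Derivation.leibniz_pow, smul_eq_mul,
    nsmul_eq_mul, Derivation.map_one_eq_zero, d_ofNat, he]
  ring

lemma dQ0 (x : B) : D (Q0 x) = Q0' x * D x := by
  simp only [Q0, Q0', map_sub, Derivation.leibniz, Derivation.leibniz_pow, smul_eq_mul,
    nsmul_eq_mul, Derivation.map_one_eq_zero]
  push_cast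
  ring

lemma dUp (x e : B) (he : D e = 0) : D (Up x e) = Up' x e * D x := by
  simp only [Up, Up', map_add, Derivation.leibniz, Derivation.leibniz_pow, smul_eq_mul,
    nsmul_eq_mul, dAm D x e he, dqq D e he, dQ0 D x]
  push_cast
  ring

lemma dPP (x e : B) (he : D e = 0) : D (PP x e) = PP' x e * D x := by
  simp only [PP, PP', map_sub, Derivation.leibniz, Derivation.leibniz_pow, smul_eq_mul,
    nsmul_eq_mul, dAm D x e he, dQ0 D x, he, Derivation.map_one_eq_zero]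
  push_cast
  ring

lemma dVV (x e : B) (he : D e = 0) : D (VV x e) = VV' x e * D x := by
  simp only [VV, VV', map_add, Derivation.leibniz, Derivation.leibniz_pow, smul_eq_mul,
    nsmul_eq_mul, dUp D x e he, dPP D x e he, d_ofNat]
  push_cast
  ring

lemma I3 (x e : B) : PP' x e * VV x e - PP x e * VV' x e
    = (e - 1) ^ 4 * (1 - x ^ 2) * Um x e * Up x e * Am x e * Ap x e := by
  have h1 : 2 * Up' x e * Am x e * Q0 x - 2 * Up x e * Am' x e * Q0 x - Up x e * Am x e * Q0' x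
      = - (1 - x ^ 2) * Um x e * Ap x e := by
    simp only [Up', Up, Um, Ap, Q0', Am', Q0, Am]
    ring
  simp only [PP', VV', PP, VV]
  linear_combination (- (e - 1) ^ 4 * Up x e * Am x e) * h1

/-- the master differential identity: `(4PV - 8a'P²)' Den - (4PV - 8a'P²) Den' = 4 (P'V - PV') T` -/
lemma dquot (x e b : B) (he : D e = 0) (hb : D b = 0) :
    D (4 * PP x e * (VV x e - 2 * b * PP x e)) * (VV x e ^ 2 - 4 * PP x e ^ 2)
      - (4 * PP x e * (VV x e - 2 * b * PP x e)) * D (VV x e ^ 2 - 4 * PP x e ^ 2)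
    = 4 * (PP' x e * VV x e - PP x e * VV' x e) *
      (VV x e ^ 2 - 4 * b * PP x e * VV x e + 4 * PP x e ^ 2) * D x := by
  simp only [map_sub, Derivation.leibniz, Derivation.leibniz_pow, smul_eq_mul,
    nsmul_eq_mul, dVV D x e he, dPP D x e he, d_ofNat, hb]
  push_cast
  ring

end Der

section Ser

variable {A : Type*} [CommRing A]

lemma cc_Am (e : A) : constantCoeff (Am (X ^ 2 : A⟦X⟧) (C e)) = 1 := by
  rw [map_Am]; simp [Am]
lemma cc_NN (e : A) : constantCoeff (NN (X ^ 2 : A⟦X⟧) (C e)) = 1 := by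
  rw [map_NN]; simp [NN, Um, Am, Q0]
lemma cc_DD (e : A) : constantCoeff (DD (X ^ 2 : A⟦X⟧) (C e)) = 1 := by
  rw [map_DD]; simp [DD, Up, Am, Q0, Ap]
lemma cc_Wd (e : A) : constantCoeff (Wd (X ^ 2 : A⟦X⟧) (C e)) = 1 := by
  rw [map_Wd]; simp [Wd]
lemma cc_TT (e : A) : constantCoeff (TT (X ^ 2 : A⟦X⟧) (C e)) = 1 := by
  rw [map_TT]; simp [TT, VV, PP, Up, Am, Q0]

/-- the power series `R` -/
noncomputable def gR (w : A⟦X⟧) (e : A) : A⟦X⟧ :=
  C (2 * (e - 1) ^ 2) * X * NN (X ^ 2) (C e) * invOfUnit (w * DD (X ^ 2) (C e)) 1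

/-- the power series `S` -/
noncomputable def gS (e : A) : A⟦X⟧ :=
  TT (X ^ 2) (C e) * invOfUnit (Wd (X ^ 2) (C e) * DD (X ^ 2) (C e) ^ 2) 1

lemma gR_mul {w : A⟦X⟧} (hw : constantCoeff w = 1) (e : A) :
    gR w e * (w * DD (X ^ 2) (C e)) = C (2 * (e - 1) ^ 2) * X * NN (X ^ 2) (C e) := by
  unfold gR
  rw [mul_assoc, invOfUnit_mul, mul_one]
  rw [map_mul, hw, cc_DD]; simp

lemma gS_mul (e : A) :
    gS e * (Wd (X ^ 2 : A⟦X⟧) (C e) * DD (X ^ 2) (C e) ^ 2) = TT (X ^ 2) (C e) := by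
  unfold gS
  rw [mul_assoc, invOfUnit_mul, mul_one]
  rw [map_mul, map_pow, cc_DD, cc_Wd]; simp

lemma base_Wd {a e : A} {w : A⟦X⟧} (hb : Base a w) (ha : a = 1 - 2 * e ^ 4) :
    w ^ 2 = Wd (X ^ 2) (C e) := by
  rw [hb.w2, ha]
  simp only [Wd, map_mul, map_sub, map_one, map_ofNat, map_pow]
  ring

theorem sol_gen [IsDomain A] [CharZero A] {a e : A}
    (he : e ^ 4 - 4 * e ^ 3 + 5 * e ^ 2 - 2 * e + 4 = 0) (ha : a = 1 - 2 * e ^ 4)
    {w : A⟦X⟧} (hb : Base a w) : Sol a w (2 * (e - 1) ^ 2) (gR w e) (gS e) := by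
  have hw2 := base_Wd hb ha
  have hRD := gR_mul hb.w0 e
  have hSD := gS_mul e
  have hE : (C e : A⟦X⟧) ^ 4 - 4 * C e ^ 3 + 5 * C e ^ 2 - 2 * C e + 4 = 0 := by
    have := congrArg (C : A →+* A⟦X⟧) he
    simpa [map_ofNat] using this
  have hCa : (C a : A⟦X⟧) = 1 - 2 * C e ^ 4 := by
    rw [ha]; simp [map_ofNat]
  have hC2a : (C (2 * a) : A⟦X⟧) = 2 * C a := by
    simp [map_ofNat]
  have hCal : (C (2 * (e - 1) ^ 2) : A⟦X⟧) = 2 * (C e - 1) ^ 2 := by
    simp [map_ofNat]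
  have hR0 : constantCoeff (gR w e) = 0 := by
    unfold gR
    simp
  have hS0 : constantCoeff (gS e) = 1 := by
    have := congrArg constantCoeff hSD
    rw [map_mul, map_mul, map_pow, cc_Wd, cc_DD, cc_TT] at this
    simpa using this
  set R := gR w e with hRdef
  set S := gS e with hSdef
  clear_value R S
  have hden := den_eq (X ^ 2 : A⟦X⟧) (C e)
  have hI2 := I2 (X ^ 2 : A⟦X⟧) hE
  have hI3 := I3 (X ^ 2 : A⟦X⟧) (C e)
  set W := Wd (X ^ 2 : A⟦X⟧) (C e) with hW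
  set P := PP (X ^ 2 : A⟦X⟧) (C e) with hP
  set V := VV (X ^ 2 : A⟦X⟧) (C e) with hV
  set T := TT (X ^ 2 : A⟦X⟧) (C e) with hT
  set N := NN (X ^ 2 : A⟦X⟧) (C e) with hN
  set Dd := DD (X ^ 2 : A⟦X⟧) (C e) with hDd
  have hTdef : T = V ^ 2 - 4 * C a * P * V + 4 * P ^ 2 := by
    rw [hT, hCa, TT]
  have hden0 : V ^ 2 - 4 * P ^ 2 ≠ 0 := by
    intro h
    have := congrArg constantCoeff (hden.symm.trans h)
    rw [map_mul, map_pow, hW, hDd, cc_Wd, cc_DD] at this
    simp at this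
  have hNN0 : N ≠ 0 := by
    intro h
    have := congrArg constantCoeff h
    rw [hN, cc_NN] at this
    simp at this
  -- R² Den = 4 P (V - 2 a P)
  have hR2 : R ^ 2 * (V ^ 2 - 4 * P ^ 2) = 4 * P * (V - 2 * C a * P) := by
    have h1 : R ^ 2 * (w ^ 2 * Dd ^ 2) = (2 * (C e - 1) ^ 2) ^ 2 * X ^ 2 * N ^ 2 := by
      have := congrArg (fun z => z ^ 2) hRD
      simp only [hCal] at this
      linear_combination this
    rw [hden, ← hw2, h1, hCa, ← hI2, hN, hP]
    simp only [NN, PP, Q0]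
    ring
  have hSD' : S * (V ^ 2 - 4 * P ^ 2) = T := by rw [hden]; exact hSD
  refine ⟨hR0, hS0, ?_, ?_⟩
  · apply mul_right_cancel₀ (pow_ne_zero 2 hden0)
    rw [hC2a]
    have h1 : S ^ 2 * (V ^ 2 - 4 * P ^ 2) ^ 2 = T ^ 2 := by rw [← hSD']; ring
    rw [h1, hTdef]
    linear_combination (2 * C a * (V ^ 2 - 4 * P ^ 2) - R ^ 2 * (V ^ 2 - 4 * P ^ 2)
      - 4 * P * (V - 2 * C a * P)) * hR2
  · have hDe : derivative A (C e : A⟦X⟧) = 0 := PowerSeries.derivative_C
    have hDa : derivative A (C a : A⟦X⟧) = 0 := PowerSeries.derivative_C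
    have hq := dquot (derivative A) (X ^ 2 : A⟦X⟧) (C e) (C a) hDe hDa
    rw [← hP, ← hV] at hq
    have hx : derivative A (X ^ 2 : A⟦X⟧) = 2 * X := by
      rw [PowerSeries.derivative_pow, PowerSeries.derivative_X]
      push_cast; ring
    rw [hx, ← hTdef, hI3] at hq
    have hd := congrArg (derivative A) hR2
    rw [Derivation.leibniz, Derivation.leibniz_pow] at hd
    simp only [smul_eq_mul, nsmul_eq_mul] at hd
    push_cast at hd
    -- 2 R R' Den² = ...
    have h2 : 2 * R * derivative A R * (V ^ 2 - 4 * P ^ 2) ^ 2 =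
        4 * ((C e - 1) ^ 4 * (1 - (X ^ 2) ^ 2) * Um (X ^ 2) (C e) * Up (X ^ 2) (C e) *
          Am (X ^ 2) (C e) * Ap (X ^ 2) (C e)) * T * (2 * X) := by
      rw [← hq]
      linear_combination (V ^ 2 - 4 * P ^ 2) * hd - derivative A (V ^ 2 - 4 * P ^ 2) * hR2
    have h3 : (2 * (2 * (C e - 1) ^ 2) * X * N * (V ^ 2 - 4 * P ^ 2)) *
        ((w * derivative A R) * (V ^ 2 - 4 * P ^ 2)) =
        (2 * (2 * (C e - 1) ^ 2) * X * N * (V ^ 2 - 4 * P ^ 2)) *
          ((2 * (C e - 1) ^ 2) * T) := by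
      have h4 : N * Dd = (1 - (X ^ 2) ^ 2) * Um (X ^ 2) (C e) * Up (X ^ 2) (C e) *
          Am (X ^ 2) (C e) * Ap (X ^ 2) (C e) := by
        rw [hN, hDd]; simp only [NN, DD]; ring
      rw [hCal] at hRD
      have h5 : 2 * (R * (w * Dd)) * (w * derivative A R) * (V ^ 2 - 4 * P ^ 2) ^ 2 =
        8 * (C e - 1) ^ 4 * (N * Dd) * T * X * (w ^ 2 * Dd) := by
        rw [h4]
        linear_combination (w ^ 2 * Dd) * h2
      rw [hRD] at h5
      have h6 : w ^ 2 * Dd * Dd = V ^ 2 - 4 * P ^ 2 := by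
        rw [hden, hw2]; ring
      linear_combination h5 + 8 * (C e - 1) ^ 4 * N * T * X * h6
    have he1 : e ≠ 1 := by
      rintro rfl
      norm_num at he
    have hal : (C e - 1 : A⟦X⟧) ≠ 0 := by
      intro h
      apply he1
      have := congrArg constantCoeff h
      simpa [sub_eq_zero] using this
    have h20 : (2 : A⟦X⟧) ≠ 0 := by
      intro h
      have h' := congrArg constantCoeff h
      rw [map_ofNat, map_zero] at h'
      exact two_ne_zero h'
    have hX0 : (X : A⟦X⟧) ≠ 0 := X_ne_zero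
    have hcan : (2 * (2 * (C e - 1) ^ 2) * X * N * (V ^ 2 - 4 * P ^ 2)) ≠ 0 :=
      mul_ne_zero (mul_ne_zero (mul_ne_zero (mul_ne_zero h20 (mul_ne_zero h20 (pow_ne_zero 2 hal)))
        hX0) hNN0) hden0
    have h7 := mul_left_cancel₀ hcan h3
    apply mul_right_cancel₀ hden0
    rw [h7, hCal]
    linear_combination (-2) * (C e - 1) ^ 2 * hSD'

end Ser

section Rat

variable {k : Type*} [Field k]

lemma inv_Am {x : k} (hx : x ≠ 0) (e : k) : Am x⁻¹ e = Am x e / x ^ 2 := by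
  simp only [Am]; field_simp; ring
lemma inv_Ap {x : k} (hx : x ≠ 0) (e : k) : Ap x⁻¹ e = Ap x e / x ^ 2 := by
  simp only [Ap]; field_simp; ring
lemma inv_Q0 {x : k} (hx : x ≠ 0) : Q0 x⁻¹ = Q0 x / x ^ 4 := by
  simp only [Q0]; field_simp; ring
lemma inv_Um {x : k} (hx : x ≠ 0) (e : k) : Um x⁻¹ e = Um x e / x ^ 4 := by
  simp only [Um, inv_Am hx, inv_Q0 hx]; field_simp
lemma inv_Up {x : k} (hx : x ≠ 0) (e : k) : Up x⁻¹ e = Up x e / x ^ 4 := by
  simp only [Up, inv_Am hx, inv_Q0 hx]; field_simp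
lemma inv_PP {x : k} (hx : x ≠ 0) (e : k) : PP x⁻¹ e = PP x e / x ^ 8 := by
  simp only [PP, inv_Am hx, inv_Q0 hx]; field_simp
lemma inv_VV {x : k} (hx : x ≠ 0) (e : k) : VV x⁻¹ e = VV x e / x ^ 8 := by
  simp only [VV, inv_Up hx, inv_PP hx]; field_simp
lemma inv_Wd {x : k} (hx : x ≠ 0) (e : k) : Wd x⁻¹ e = Wd x e / x ^ 2 := by
  simp only [Wd]; field_simp; ring
lemma inv_NN {x : k} (hx : x ≠ 0) (e : k) : NN x⁻¹ e = - NN x e / x ^ 7 := by
  simp only [NN, inv_Um hx, inv_Am hx]; field_simp; ring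
lemma inv_DD {x : k} (hx : x ≠ 0) (e : k) : DD x⁻¹ e = DD x e / x ^ 7 := by
  simp only [DD, inv_Up hx, inv_Ap hx]; field_simp; ring
lemma inv_TT {x : k} (hx : x ≠ 0) (e : k) : TT x⁻¹ e = TT x e / x ^ 16 := by
  simp only [TT, inv_VV hx, inv_PP hx]; field_simp

lemma WX_eq {a e : k} (ha : a = 1 - 2 * e ^ 4) :
    WX a = Wd (RatFunc.X : RatFunc k) (RatFunc.C e) := by
  subst ha
  simp only [WX, Wd, map_mul, map_sub, map_one, map_ofNat, map_pow]
  ring

lemma jj_C (c : k) : jj (RatFunc.C c : RatFunc k) =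
    algebraMap k⟦X⟧ (FractionRing k⟦X⟧) (C c) := by
  have h := (jj (k := k)).commutes c
  rw [RatFunc.algebraMap_eq_C] at h
  rw [h, IsScalarTower.algebraMap_apply k k⟦X⟧ (FractionRing k⟦X⟧)]
  rfl

lemma iota_C (c : k) : iota (RatFunc.C c : RatFunc k) = RatFunc.C c := by
  have h := (iota (k := k)).commutes c
  rwa [RatFunc.algebraMap_eq_C] at h

/-- `r` -/
noncomputable def gr (a e c : k) : RatFunc k :=
  RatFunc.C c * NN RatFunc.X (RatFunc.C e) /
    (WX a * DD RatFunc.X (RatFunc.C e))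

/-- `s` -/
noncomputable def gs (a e : k) : RatFunc k :=
  TT RatFunc.X (RatFunc.C e) / (WX a * DD RatFunc.X (RatFunc.C e) ^ 2)

theorem even_gen [CharZero k] {a e c : k} (ha : a = 1 - 2 * e ^ 4) (he0 : e ≠ 0)
    {w R S : k⟦X⟧} (hb : Base a w)
    (hR : R * (w * DD (X ^ 2) (C e)) = C c * X * NN (X ^ 2) (C e))
    (hS : S * (Wd (X ^ 2) (C e) * DD (X ^ 2) (C e) ^ 2) = TT (X ^ 2) (C e)) :
    EvenS a w R S (gr a e c) (gs a e) 1 := by
  have hw2 := base_Wd hb ha
  have hinj : Function.Injective (algebraMap k⟦X⟧ (FractionRing k⟦X⟧)) := IsFractionRing.injective k⟦X⟧ (FractionRing k⟦X⟧)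
  have hX2 : jj (RatFunc.X : RatFunc k) = (algebraMap k⟦X⟧ (FractionRing k⟦X⟧)) (X ^ 2) := by rw [jj_X, map_pow]
  have hWjj : jj (WX a) = (algebraMap k⟦X⟧ (FractionRing k⟦X⟧)) (Wd (X ^ 2) (C e)) := by
    rw [WX_eq ha, map_Wd, hX2, jj_C, map_Wd]
  have hDjj : jj (DD (RatFunc.X : RatFunc k) (RatFunc.C e)) = (algebraMap k⟦X⟧ (FractionRing k⟦X⟧)) (DD (X ^ 2) (C e)) := by
    rw [map_DD, hX2, jj_C, map_DD]
  have hNjj : jj (NN (RatFunc.X : RatFunc k) (RatFunc.C e)) = (algebraMap k⟦X⟧ (FractionRing k⟦X⟧)) (NN (X ^ 2) (C e)) := by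
    rw [map_NN, hX2, jj_C, map_NN]
  have hTjj : jj (TT (RatFunc.X : RatFunc k) (RatFunc.C e)) = (algebraMap k⟦X⟧ (FractionRing k⟦X⟧)) (TT (X ^ 2) (C e)) := by
    rw [map_TT, hX2, jj_C, map_TT]
  have hne : ∀ f : k⟦X⟧, constantCoeff f = 1 → (algebraMap k⟦X⟧ (FractionRing k⟦X⟧)) f ≠ 0 := by
    intro f hf h
    have : f = 0 := hinj (by rw [h, map_zero])
    rw [this, map_zero] at hf
    exact zero_ne_one hf
  have hW0 := hne _ (cc_Wd e)
  have hD0 := hne _ (cc_DD e)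
  have hw0 := hne _ hb.w0
  have hX0 : (RatFunc.X : RatFunc k) ≠ 0 := RatFunc.X_ne_zero
  have hev1 : Ev (1 : RatFunc k) 1 := ⟨1, 1, by simp, by simp, by simp⟩
  have eX : algebraMap (Polynomial k) (RatFunc k) Polynomial.X = RatFunc.X := RatFunc.algebraMap_X
  have eC : ∀ c : k, algebraMap (Polynomial k) (RatFunc k) (Polynomial.C c) = RatFunc.C c :=
    fun c => RatFunc.algebraMap_C c
  have pW : algebraMap (Polynomial k) (RatFunc k) (Wd Polynomial.X (Polynomial.C e)) = WX a := by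
    rw [map_Wd, eX, eC, WX_eq ha]
  have pD : algebraMap (Polynomial k) (RatFunc k) (DD Polynomial.X (Polynomial.C e))
      = DD RatFunc.X (RatFunc.C e) := by
    rw [map_DD, eX, eC]
  have pN : algebraMap (Polynomial k) (RatFunc k) (NN Polynomial.X (Polynomial.C e))
      = NN RatFunc.X (RatFunc.C e) := by
    rw [map_NN, eX, eC]
  have pT : algebraMap (Polynomial k) (RatFunc k) (TT Polynomial.X (Polynomial.C e))
      = TT RatFunc.X (RatFunc.C e) := by
    rw [map_TT, eX, eC]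
  have vW : (Wd Polynomial.X (Polynomial.C e) : Polynomial k).eval 1 = Wd 1 e := by
    have := map_Wd (Polynomial.evalRingHom (1 : k)) Polynomial.X (Polynomial.C e)
    simp only [Polynomial.coe_evalRingHom, Polynomial.eval_X, Polynomial.eval_C] at this
    exact this
  have vD : (DD Polynomial.X (Polynomial.C e) : Polynomial k).eval 1 = DD 1 e := by
    have := map_DD (Polynomial.evalRingHom (1 : k)) Polynomial.X (Polynomial.C e)
    simp only [Polynomial.coe_evalRingHom, Polynomial.eval_X, Polynomial.eval_C] at this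
    exact this
  have vN : (NN Polynomial.X (Polynomial.C e) : Polynomial k).eval 1 = NN 1 e := by
    have := map_NN (Polynomial.evalRingHom (1 : k)) Polynomial.X (Polynomial.C e)
    simp only [Polynomial.coe_evalRingHom, Polynomial.eval_X, Polynomial.eval_C] at this
    exact this
  have vT : (TT Polynomial.X (Polynomial.C e) : Polynomial k).eval 1 = TT 1 e := by
    have := map_TT (Polynomial.evalRingHom (1 : k)) Polynomial.X (Polynomial.C e)
    simp only [Polynomial.coe_evalRingHom, Polynomial.eval_X, Polynomial.eval_C] at this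
    exact this
  have zW : Wd 1 e ≠ 0 := by
    simp only [Wd]
    simp [he0]
  have zD : DD 1 e ≠ 0 := by
    simp only [DD, Up, Am, Q0, Ap]
    simp [he0]
  refine ⟨?_, ?_, ?_, ?_, ⟨1, 1, 1, 0, hev1, ?_, ?_, ?_, by simp, by simp⟩, by simp⟩
  · unfold gr
    rw [map_div₀, map_mul jj (RatFunc.C c), map_mul jj (WX a), hWjj, hDjj, hNjj, jj_C]
    have h1 := congrArg (algebraMap k⟦X⟧ (FractionRing k⟦X⟧)) hR
    simp only [map_mul] at h1
    have h2 := congrArg (algebraMap k⟦X⟧ (FractionRing k⟦X⟧)) hw2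
    rw [map_pow] at h2
    rw [← h2, map_mul]
    field_simp
    linear_combination h1
  · unfold gs
    rw [map_div₀, map_mul, map_pow, hWjj, hDjj, hTjj]
    have h1 := congrArg (algebraMap k⟦X⟧ (FractionRing k⟦X⟧)) hS
    simp only [map_mul, map_pow] at h1
    rw [← h1]
    field_simp
  · unfold gr
    rw [WX_eq ha, map_div₀, map_mul, map_mul iota (Wd _ _), map_NN, map_DD, map_Wd, iota_X,
      iota_C, iota_C,
      inv_NN hX0, inv_DD hX0, inv_Wd hX0]
    have hWx : Wd (RatFunc.X : RatFunc k) (RatFunc.C e) ≠ 0 := by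
      intro h
      rw [← WX_eq ha] at h
      rw [h, map_zero] at hWjj
      exact hW0 hWjj.symm
    have hDx : DD (RatFunc.X : RatFunc k) (RatFunc.C e) ≠ 0 := by
      intro h
      rw [h, map_zero] at hDjj
      exact hD0 hDjj.symm
    field_simp
  · unfold gs
    rw [WX_eq ha, map_div₀, map_mul, map_pow, map_TT, map_DD, map_Wd, iota_X, iota_C,
      inv_TT hX0, inv_DD hX0, inv_Wd hX0]
    have hWx : Wd (RatFunc.X : RatFunc k) (RatFunc.C e) ≠ 0 := by
      intro h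
      rw [← WX_eq ha] at h
      rw [h, map_zero] at hWjj
      exact hW0 hWjj.symm
    have hDx : DD (RatFunc.X : RatFunc k) (RatFunc.C e) ≠ 0 := by
      intro h
      rw [h, map_zero] at hDjj
      exact hD0 hDjj.symm
    field_simp
  · refine ⟨TT Polynomial.X (Polynomial.C e),
      Wd Polynomial.X (Polynomial.C e) * DD Polynomial.X (Polynomial.C e) ^ 2, ?_, ?_, ?_⟩
    · rw [Polynomial.eval_mul, Polynomial.eval_pow, vW, vD]
      exact mul_ne_zero zW (pow_ne_zero 2 zD)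
    · rw [map_mul, map_pow, pW, pD, pT, one_mul, gs]
    · rw [Polynomial.eval_mul, Polynomial.eval_pow, vW, vD, vT]
      simp only [TT, VV, PP, Up, Am, Q0, Wd, DD, Ap, qq]
      ring
  · refine ⟨Polynomial.C c * NN Polynomial.X (Polynomial.C e),
      Wd Polynomial.X (Polynomial.C e) * DD Polynomial.X (Polynomial.C e), ?_, ?_, ?_⟩
    · rw [Polynomial.eval_mul, vW, vD]
      exact mul_ne_zero zW zD
    · rw [map_mul, map_mul, pW, pD, pN, eC, one_mul, gr]
    · rw [Polynomial.eval_mul, vN]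
      simp [NN]
  · refine ⟨Polynomial.X * Wd Polynomial.X (Polynomial.C e) *
        (Polynomial.C c * NN Polynomial.X (Polynomial.C e)) ^ 2,
      (Wd Polynomial.X (Polynomial.C e) * DD Polynomial.X (Polynomial.C e)) ^ 2, ?_, ?_, ?_⟩
    · rw [Polynomial.eval_pow, Polynomial.eval_mul, vW, vD]
      exact pow_ne_zero 2 (mul_ne_zero zW zD)
    · simp only [map_mul, map_pow, pW, pD, pN, eC, eX, one_mul, gr, div_pow]
      ring
    · rw [Polynomial.eval_mul, Polynomial.eval_pow, Polynomial.eval_mul (p := Polynomial.C c), vN]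
      simp [NN]

end Rat

end P4

set_option linter.unusedVariables false in
/-- P4 -/
theorem exists_gen {p : ℕ} [Fact p.Prime] (hp : p ≠ 2) (a η : ℤ_[p])
    (hη : η ^ 4 - 4 * η ^ 3 + 5 * η ^ 2 - 2 * η + 4 = 0) (ha : a = 1 - 2 * η ^ 4)
    (w : ℤ_[p]⟦X⟧) (hb : Base a w) :
    ∃ (R S : ℤ_[p]⟦X⟧) (r s : RatFunc ℚ_[p]), Sol a w (2 * (η - 1) ^ 2) R S ∧
      EvenS (a : ℚ_[p]) (PowerSeries.map (algebraMap ℤ_[p] ℚ_[p]) w)
        (PowerSeries.map (algebraMap ℤ_[p] ℚ_[p]) R)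
        (PowerSeries.map (algebraMap ℤ_[p] ℚ_[p]) S) r s 1 := by
  set φ := algebraMap ℤ_[p] ℚ_[p] with hφ
  have hφa : φ a = (a : ℚ_[p]) := rfl
  have ha' : φ a = 1 - 2 * (φ η) ^ 4 := by
    rw [ha]; simp [map_ofNat]
  have hη0 : φ η ≠ 0 := by
    intro h
    have h' : η = 0 := by
      apply (FaithfulSMul.algebraMap_injective ℤ_[p] ℚ_[p])
      rw [← hφ, h, map_zero]
    rw [h'] at hη
    norm_num at hη
  refine ⟨P4.gR w η, P4.gS η, P4.gr (φ a) (φ η) (φ (2 * (η - 1) ^ 2)), P4.gs (φ a) (φ η), P4.sol_gen hη ha hb, ?_⟩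
  have hb' : Base (φ a) (PowerSeries.map φ w) := by
    refine ⟨?_, ?_⟩
    · rw [← PowerSeries.coeff_zero_eq_constantCoeff_apply, PowerSeries.coeff_map,
        PowerSeries.coeff_zero_eq_constantCoeff_apply, hb.w0, map_one]
    · have := congrArg (PowerSeries.map φ) hb.w2
      simpa [map_ofNat] using this
  rw [← hφa]
  apply P4.even_gen ha' hη0 hb'
  · have := congrArg (PowerSeries.map φ) (P4.gR_mul hb.w0 η)
    rw [map_mul, map_mul, map_mul, map_mul, P4.map_DD, P4.map_NN] at this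
    simpa [map_ofNat] using this
  · have := congrArg (PowerSeries.map φ) (P4.gS_mul η)
    rw [map_mul, map_mul, map_pow, P4.map_DD, P4.map_Wd, P4.map_TT] at this
    simpa using this

end Pool.Agent.DF49E3
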