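import Mathlib
import Pool.Agent.DF49E3.Defs
import Pool.Agent.DF49E3.P3

set_option autoImplicit false

/-!
P5: rational structure.
-/

namespace Pool.Agent.DF49E3

open PowerSeries

section P5
variable {k : Type*} [Field k]

/-- P5a -/
theorem jj_poly (P : Polynomial k) : jj (algebraMap (Polynomial k) (RatFunc k) P) =
    algebraMap k⟦X⟧ (FractionRing k⟦X⟧) (Polynomial.aeval ((X : k⟦X⟧) ^ 2) P) := by
  have h1 : algebraMap (Polynomial k) (RatFunc k) P = Polynomial.aeval (RatFunc.X : RatFunc k) P := by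
    rw [← RatFunc.algebraMap_X, Polynomial.aeval_algebraMap_apply, Polynomial.aeval_X_left_apply]
  rw [h1, ← Polynomial.aeval_algHom_apply, jj_X, ← map_pow, Polynomial.aeval_algebraMap_apply]

theorem P5.jj_C (c : k) : jj (RatFunc.C c) =
    algebraMap k⟦X⟧ (FractionRing k⟦X⟧) (C c) := by
  have := jj_poly (Polynomial.C c)
  rw [RatFunc.algebraMap_C] at this
  rw [this, Polynomial.aeval_C]
  rfl

/-- P5b -/
theorem jj_WX {a : k} {w : k⟦X⟧} (hb : Base a w) :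
    jj (WX a) = algebraMap k⟦X⟧ (FractionRing k⟦X⟧) w ^ 2 := by
  rw [← map_pow, hb.w2, WX]
  simp only [map_add, map_sub, map_mul, map_pow, map_one, P5.jj_C, jj_X]
  ring

/-- P5c -/
theorem IsRat.add {a : k} {w : k⟦X⟧} (hb : Base a w) {α β γ : k} {R₁ S₁ R₂ S₂ R₃ S₃ : k⟦X⟧}
    (h₁ : Sol a w α R₁ S₁) (h₂ : Sol a w β R₂ S₂) (_h₃ : Sol a w γ R₃ S₃)
    (hR₃ : R₃ * (1 - R₁ ^ 2 * R₂ ^ 2) = R₁ * S₂ + R₂ * S₁)
    (hS₃ : S₃ * (1 - R₁ ^ 2 * R₂ ^ 2) ^ 2 =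
        (S₁ * S₂ - C (2 * a) * R₁ * R₂) * (1 + R₁ ^ 2 * R₂ ^ 2) +
          2 * R₁ * R₂ * (R₁ ^ 2 + R₂ ^ 2))
    {f₁ g₁ f₂ g₂ : RatFunc k} (k₁ : IsRat w R₁ S₁ f₁ g₁) (k₂ : IsRat w R₂ S₂ f₂ g₂) :
    ∃ f₃ g₃, IsRat w R₃ S₃ f₃ g₃ := by
  obtain ⟨k1a, k1b⟩ := k₁
  obtain ⟨k2a, k2b⟩ := k₂
  have hw := jj_WX hb
  have hX : jj (RatFunc.X : RatFunc k) = algebraMap k⟦X⟧ (FractionRing k⟦X⟧) X ^ 2 := jj_X
  have q1 := congrArg (algebraMap k⟦X⟧ (FractionRing k⟦X⟧)) h₁.quartic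
  have q2 := congrArg (algebraMap k⟦X⟧ (FractionRing k⟦X⟧)) h₂.quartic
  have e3 := congrArg (algebraMap k⟦X⟧ (FractionRing k⟦X⟧)) hR₃
  have e4 := congrArg (algebraMap k⟦X⟧ (FractionRing k⟦X⟧)) hS₃
  have hC := P5.jj_C (2 * a)
  simp only [map_add, map_sub, map_mul, map_pow, map_one, map_ofNat] at q1 q2 e3 e4 k1b k2b hC
  have hne : (1 - f₁ * f₂ : RatFunc k) ≠ 0 := by
    intro h
    have h2 : jj (1 - f₁ * f₂ : RatFunc k) = 0 := by rw [h, map_zero]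
    rw [map_sub, map_mul, map_one, ← k1a, ← k2a, ← map_pow, ← map_pow, ← map_mul,
      ← map_one (algebraMap k⟦X⟧ (FractionRing k⟦X⟧)), ← map_sub] at h2
    have h3 : (1 - R₁ ^ 2 * R₂ ^ 2 : k⟦X⟧) = 0 := by
      apply IsFractionRing.injective k⟦X⟧ (FractionRing k⟦X⟧)
      rw [h2, map_zero]
    have h4 := congrArg constantCoeff h3
    simp [h₁.R0] at h4
  have hne' : (1 - jj f₁ * jj f₂) ≠ 0 := by
    intro h
    apply hne
    apply jj_injective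
    rw [map_sub, map_mul, map_one, map_zero, h]
  refine ⟨(f₁ * (1 - RatFunc.C (2 * a) * f₂ + f₂ ^ 2) + f₂ * (1 - RatFunc.C (2 * a) * f₁ + f₁ ^ 2)
    + 2 * RatFunc.X * WX a * g₁ * g₂) / (1 - f₁ * f₂) ^ 2,
    ((g₁ * (1 - RatFunc.C (2 * a) * f₂ + f₂ ^ 2) + g₂ * (1 - RatFunc.C (2 * a) * f₁ + f₁ ^ 2)
      - RatFunc.C (2 * a) * (f₁ * g₂ + f₂ * g₁)) * (1 + f₁ * f₂) +
      2 * (f₁ * g₂ + f₂ * g₁) * (f₁ + f₂)) / (1 - f₁ * f₂) ^ 3, ?_, ?_⟩
  · simp only [map_add, map_sub, map_mul, map_pow, map_one, map_ofNat, map_div₀]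
    rw [eq_div_iff (pow_ne_zero 2 hne'), hC, hw, hX, ← k1a, ← k2a]
    set r1 := algebraMap k⟦X⟧ (FractionRing k⟦X⟧) R₁
    set r2 := algebraMap k⟦X⟧ (FractionRing k⟦X⟧) R₂
    set r3 := algebraMap k⟦X⟧ (FractionRing k⟦X⟧) R₃
    set s1 := algebraMap k⟦X⟧ (FractionRing k⟦X⟧) S₁
    set s2 := algebraMap k⟦X⟧ (FractionRing k⟦X⟧) S₂
    set ca := algebraMap k⟦X⟧ (FractionRing k⟦X⟧) (C a)
    set v := algebraMap k⟦X⟧ (FractionRing k⟦X⟧) X
    set W := algebraMap k⟦X⟧ (FractionRing k⟦X⟧) w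
    have : r3 ^ 2 * (1 - r1 ^ 2 * r2 ^ 2) ^ 2 = (r1 * s2 + r2 * s1) ^ 2 := by
      rw [← e3]; ring
    rw [this]
    linear_combination r1 ^ 2 * q2 + r2 ^ 2 * q1 + 2 * (r1 * s1) * k2b + 2 * (v * W * jj g₂) * k1b
  · simp only [map_add, map_sub, map_mul, map_pow, map_one, map_ofNat, map_div₀]
    rw [mul_div_assoc', eq_div_iff (pow_ne_zero 3 hne'), hC, ← k1a, ← k2a]
    set r1 := algebraMap k⟦X⟧ (FractionRing k⟦X⟧) R₁
    set r2 := algebraMap k⟦X⟧ (FractionRing k⟦X⟧) R₂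
    set r3 := algebraMap k⟦X⟧ (FractionRing k⟦X⟧) R₃
    set s1 := algebraMap k⟦X⟧ (FractionRing k⟦X⟧) S₁
    set s2 := algebraMap k⟦X⟧ (FractionRing k⟦X⟧) S₂
    set s3 := algebraMap k⟦X⟧ (FractionRing k⟦X⟧) S₃
    set ca := algebraMap k⟦X⟧ (FractionRing k⟦X⟧) (C a)
    set v := algebraMap k⟦X⟧ (FractionRing k⟦X⟧) X
    set W := algebraMap k⟦X⟧ (FractionRing k⟦X⟧) w
    have : r3 * s3 * (1 - r1 ^ 2 * r2 ^ 2) ^ 3 =
      (r1 * s2 + r2 * s1) * ((s1 * s2 - 2 * ca * r1 * r2) * (1 + r1 ^ 2 * r2 ^ 2) +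
        2 * r1 * r2 * (r1 ^ 2 + r2 ^ 2)) := by
      rw [← e3, ← e4]; ring
    rw [this]
    have k1c : v * W * jj g₁ = r1 * s1 := k1b.symm
    have k2c : v * W * jj g₂ = r2 * s2 := k2b.symm
    have e5 : v * W * ((jj g₁ * (1 - 2 * ca * r2 ^ 2 + (r2 ^ 2) ^ 2) +
        jj g₂ * (1 - 2 * ca * r1 ^ 2 + (r1 ^ 2) ^ 2) -
        2 * ca * (r1 ^ 2 * jj g₂ + r2 ^ 2 * jj g₁)) * (1 + r1 ^ 2 * r2 ^ 2) +
        2 * (r1 ^ 2 * jj g₂ + r2 ^ 2 * jj g₁) * (r1 ^ 2 + r2 ^ 2)) =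
        (r1 * s1 * (1 - 2 * ca * r2 ^ 2 + (r2 ^ 2) ^ 2) +
        r2 * s2 * (1 - 2 * ca * r1 ^ 2 + (r1 ^ 2) ^ 2) -
        2 * ca * (r1 ^ 2 * (r2 * s2) + r2 ^ 2 * (r1 * s1))) * (1 + r1 ^ 2 * r2 ^ 2) +
        2 * (r1 ^ 2 * (r2 * s2) + r2 ^ 2 * (r1 * s1)) * (r1 ^ 2 + r2 ^ 2) := by
      rw [← k1c, ← k2c]; ring
    rw [e5]
    linear_combination (r1 * s1 * (1 + r1 ^ 2 * r2 ^ 2)) * q2 + (r2 * s2 * (1 + r1 ^ 2 * r2 ^ 2)) * q1

/-- P5d -/
theorem EvenS.isRat {a : k} {w : k⟦X⟧} (hb : Base a w) {R S : k⟦X⟧} {r s : RatFunc k} {c : k}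
    (h : EvenS a w R S r s c) : IsRat w R S (RatFunc.X * WX a * r ^ 2) (r * s) := by
  constructor
  · rw [h.hR, map_mul, map_mul, map_mul, map_pow, jj_WX hb, jj_X]
    ring
  · rw [map_mul, h.hR, h.hS, map_mul, map_mul]
    ring

/-- P5e -/
theorem OddS.isRat {w : k⟦X⟧} {R S : k⟦X⟧} {r s : RatFunc k} {ρ : k}
    (h : OddS w R S r s ρ) : IsRat w R S (RatFunc.X * r ^ 2) (r * s) := by
  constructor
  · rw [h.hR, map_mul, map_pow, jj_X]
    ring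
  · rw [map_mul, h.hR, h.hS, map_mul, map_mul]
    ring

/-- P5f -/
theorem EvenS.neg {a : k} {w : k⟦X⟧} {R S : k⟦X⟧} {r s : RatFunc k} {c : k}
    (h : EvenS a w R S r s c) : EvenS a w (-R) S (-r) s c := by
  refine ⟨?_, h.hS, ?_, h.is, ?_, h.sq⟩
  · rw [map_neg, map_neg, h.hR]; ring
  · rw [map_neg, h.ir]; ring
  · obtain ⟨D, d, A, B, h1, h2, ⟨N, M, hM, hN, hv⟩, h4, h5, h6⟩ := h.ev
    refine ⟨D, d, A, B, h1, h2, ⟨-N, M, hM, ?_, ?_⟩, ?_, h5, h6⟩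
    · rw [map_neg, neg_div, ← hN]; ring
    · rw [Polynomial.eval_neg, hv]; ring
    · rw [neg_sq]; exact h4

/-- P5h: the multiplier 1. -/
theorem odd_one {w : k⟦X⟧} : OddS w X w (1 : RatFunc k) 1 1 := by
  refine ⟨by simp, by simp, by simp, by simp, ⟨1, 1, by simp, by simp, by simp⟩, by simp⟩

theorem P5.ev_poly (P : Polynomial k) : Ev (algebraMap (Polynomial k) (RatFunc k) P) (P.eval 1) :=
  ⟨P, 1, by simp, by simp, by simp⟩

/-- P5g: the multiplier 2. -/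
theorem exists_two [CharZero k] {a : k} (ha : a ≠ 1) {w : k⟦X⟧} (hb : Base a w) {R S : k⟦X⟧}
    (h : Sol a w 2 R S) : ∃ r s, EvenS a w R S r s (-1) := by
  obtain ⟨R₃, S₃, h₃, e1, e2⟩ := Sol.add (Sol.one hb) (Sol.one hb)
  rw [one_add_one_eq_two] at h₃
  obtain ⟨rfl, rfl⟩ := Sol.unique hb h₃ h
  have hX : jj (RatFunc.X : RatFunc k) = algebraMap k⟦X⟧ (FractionRing k⟦X⟧) X ^ 2 := jj_X
  have hw := jj_WX hb
  have hC := P5.jj_C (2 * a)
  have e3 := congrArg (algebraMap k⟦X⟧ (FractionRing k⟦X⟧)) e1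
  have e4 := congrArg (algebraMap k⟦X⟧ (FractionRing k⟦X⟧)) e2
  simp only [map_add, map_sub, map_mul, map_pow, map_one, map_ofNat] at e3 e4 hC
  have hX2 : (1 - RatFunc.X ^ 2 : RatFunc k) ≠ 0 := by
    have h1 : (1 - RatFunc.X ^ 2 : RatFunc k) =
        algebraMap (Polynomial k) (RatFunc k) (1 - Polynomial.X ^ 2) := by
      simp
    rw [h1]
    intro h2
    have h3 : (1 - Polynomial.X ^ 2 : Polynomial k) = 0 :=
      RatFunc.algebraMap_injective k (by rw [h2, map_zero])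
    have h4 := congrArg (Polynomial.eval 0) h3
    simp at h4
  have hX0 : (RatFunc.X : RatFunc k) ≠ 0 := RatFunc.X_ne_zero
  have hne : (1 - (algebraMap k⟦X⟧ (FractionRing k⟦X⟧) X ^ 2) ^ 2) ≠ 0 := by
    intro h1
    apply hX2
    apply jj_injective
    rw [map_sub, map_pow, map_one, map_zero, hX, h1]
  have hiC : iota (RatFunc.C (2 * a) : RatFunc k) = RatFunc.C (2 * a) := by
    rw [← RatFunc.algebraMap_eq_C]
    exact iota.commutes _
  have hX2' : (1 - (RatFunc.X⁻¹) ^ 2 : RatFunc k) ≠ 0 := by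
    intro h1
    apply hX2
    field_simp at h1
    linear_combination -h1
  refine ⟨2 / (1 - RatFunc.X ^ 2), ((WX a - RatFunc.C (2 * a) * RatFunc.X) * (1 + RatFunc.X ^ 2) +
    4 * RatFunc.X ^ 2) / (1 - RatFunc.X ^ 2) ^ 2, ?_, ?_, ?_, ?_, ?_, by norm_num⟩
  · simp only [map_add, map_sub, map_mul, map_pow, map_one, map_ofNat, map_div₀, hX]
    rw [mul_div_assoc', eq_div_iff hne]
    linear_combination e3
  · simp only [map_add, map_sub, map_mul, map_pow, map_one, map_ofNat, map_div₀, hX, hw]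
    rw [eq_div_iff (pow_ne_zero 2 hne)]
    linear_combination e4 + (algebraMap k⟦X⟧ (FractionRing k⟦X⟧) X ^ 2 *
      (1 + algebraMap k⟦X⟧ (FractionRing k⟦X⟧) X ^ 4)) * hC
  · simp only [map_add, map_sub, map_mul, map_pow, map_one, map_ofNat, map_div₀, iota_X]
    rw [div_eq_iff hX2']
    field_simp
    ring
  · simp only [map_add, map_sub, map_mul, map_pow, map_one, map_ofNat, map_div₀, iota_X, WX]
    simp only [map_mul, map_ofNat] at hiC
    rw [hiC]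
    rw [div_eq_div_iff (pow_ne_zero 2 hX2') (pow_ne_zero 2 hX2)]
    field_simp
    ring
  · refine ⟨(1 - RatFunc.X ^ 2) ^ 2, 0, 8 - 8 * a, 8 - 8 * a, ?_, ?_, ?_, ?_, ?_, ?_⟩
    · have := P5.ev_poly ((1 - Polynomial.X ^ 2) ^ 2 : Polynomial k)
      simpa using this
    · have := P5.ev_poly (((1 - Polynomial.C (2 * a) * Polynomial.X + Polynomial.X ^ 2 -
        Polynomial.C (2 * a) * Polynomial.X) * (1 + Polynomial.X ^ 2) + 4 * Polynomial.X ^ 2 :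
          Polynomial k))
      have h5 : (1 - RatFunc.X ^ 2 : RatFunc k) ^ 2 *
        (((WX a - RatFunc.C (2 * a) * RatFunc.X) * (1 + RatFunc.X ^ 2) +
    4 * RatFunc.X ^ 2) / (1 - RatFunc.X ^ 2) ^ 2) = algebraMap (Polynomial k) (RatFunc k)
        (((1 - Polynomial.C (2 * a) * Polynomial.X + Polynomial.X ^ 2 -
        Polynomial.C (2 * a) * Polynomial.X) * (1 + Polynomial.X ^ 2) + 4 * Polynomial.X ^ 2 :
          Polynomial k)) := by
        rw [mul_div_cancel₀ _ (pow_ne_zero 2 hX2)]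
        simp only [map_add, map_sub, map_mul, map_pow, map_one, map_ofNat, RatFunc.algebraMap_C,
          RatFunc.algebraMap_X, WX]
      rw [h5]
      convert this using 1
      simp
      ring
    · have := P5.ev_poly (2 * (1 - Polynomial.X ^ 2) : Polynomial k)
      have h5 : (1 - RatFunc.X ^ 2 : RatFunc k) ^ 2 * (2 / (1 - RatFunc.X ^ 2)) =
        algebraMap (Polynomial k) (RatFunc k) (2 * (1 - Polynomial.X ^ 2)) := by
        simp only [map_add, map_sub, map_mul, map_pow, map_one, map_ofNat,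
          RatFunc.algebraMap_X]
        field_simp
      rw [h5]
      convert this using 1
      simp
    · have := P5.ev_poly (4 * Polynomial.X * (1 - Polynomial.C (2 * a) * Polynomial.X +
        Polynomial.X ^ 2) : Polynomial k)
      have h5 : (1 - RatFunc.X ^ 2 : RatFunc k) ^ 2 *
        (RatFunc.X * WX a * (2 / (1 - RatFunc.X ^ 2)) ^ 2) =
        algebraMap (Polynomial k) (RatFunc k) (4 * Polynomial.X * (1 - Polynomial.C (2 * a) *
          Polynomial.X + Polynomial.X ^ 2)) := by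
        simp only [map_add, map_sub, map_mul, map_pow, map_one, map_ofNat, RatFunc.algebraMap_C,
          RatFunc.algebraMap_X, WX]
        field_simp
        ring
      rw [h5]
      convert this using 1
      simp
      ring
    · intro h6
      apply ha
      linear_combination (1 / 8 : k) * h6
    · ring

end P5

end Pool.Agent.DF49E3
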