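import Mathlib
import Pool.Agent.DF49E3.Defs

/-!
Package P8 of MP_df49e3_nt: the sign (helper27).
-/

set_option autoImplicit false

namespace Pool.Agent.DF49E3

namespace P8

open jacobiSym ZMod
open scoped NumberTheorySymbols

/-- `J(p | z) = J(c z'^2 | z)`-type reductions -/
lemma J_red {p x c y z : ℕ} (hp : p = x ^ 2 + c * y ^ 2) (hz : z ∣ x) (hg : y.Coprime z) :
    J(p | z) = J(c | z) := by
  have h1 : ((p : ℤ)) % z = ((c : ℤ) * (y : ℤ) ^ 2) % z := by
    obtain ⟨k, rfl⟩ := hz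
    rw [hp]; push_cast
    have : ((z : ℤ) * k) ^ 2 + c * y ^ 2 = c * y ^ 2 + z * (z * k ^ 2) := by ring
    rw [this, Int.add_mul_emod_self_left]
  rw [jacobiSym.mod_left' h1, jacobiSym.mul_left, jacobiSym.sq_one', mul_one]
  simpa [Int.gcd_natCast_natCast] using hg

lemma J_red' {p x c y z : ℕ} (hp : p = x ^ 2 + c * y ^ 2) (hz : z ∣ y) (hg : x.Coprime z) :
    J(p | z) = 1 := by
  have h1 : ((p : ℤ)) % z = ((x : ℤ) ^ 2) % z := by
    obtain ⟨k, rfl⟩ := hz
    rw [hp]; push_cast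
    have : (x : ℤ) ^ 2 + c * ((z : ℤ) * k) ^ 2 = x ^ 2 + z * (c * z * k ^ 2) := by ring
    rw [this, Int.add_mul_emod_self_left]
  rw [jacobiSym.mod_left' h1, jacobiSym.sq_one']
  simpa [Int.gcd_natCast_natCast] using hg

section
variable {p : ℕ} [Fact p.Prime] {x y : ℕ}

lemma cop (hp : p = x ^ 2 + 15 * y ^ 2) : x.Coprime y := by
  have hpp : p.Prime := Fact.out
  by_contra h
  obtain ⟨q, hq, hqx, hqy⟩ := Nat.Prime.not_coprime_iff_dvd.1 h
  have h1 : q ^ 2 ∣ p := by
    obtain ⟨a, rfl⟩ := hqx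
    obtain ⟨b, rfl⟩ := hqy
    rw [hp]
    exact ⟨a ^ 2 + 15 * b ^ 2, by ring⟩
  have h2 : q ∣ p := dvd_trans (dvd_pow_self q two_ne_zero) h1
  have h3 : q = p := (Nat.prime_dvd_prime_iff_eq hq hpp).1 h2
  rw [h3] at h1
  have h4 := Nat.le_of_dvd hpp.pos h1
  have h5 := hpp.two_le
  nlinarith

omit [Fact p.Prime] in
lemma cop15 (hp : p = x ^ 2 + 15 * y ^ 2) (h15 : p % 15 = 1 ∨ p % 15 = 4) : x.Coprime 15 := by
  have h1 : p % 15 = (x % 15) ^ 2 % 15 := by
    rw [hp]
    rw [Nat.add_mod, Nat.mul_mod_right, add_zero, Nat.mod_mod, Nat.pow_mod]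
  have h2 : x % 15 < 15 := Nat.mod_lt _ (by norm_num)
  unfold Nat.Coprime
  rw [Nat.gcd_comm, Nat.gcd_rec]
  interval_cases h : x % 15 <;> first | rfl | (exfalso; omega)

omit [Fact p.Prime] in
lemma chi_p (hp2 : Odd p) : (J(2 | p) : ℤ) = χ₈ p := jacobiSym.at_two hp2

/-- `(x/p)(x/15)` for natural `x` -/
lemma fx (hp : p = x ^ 2 + 15 * y ^ 2) (h15 : p % 15 = 1 ∨ p % 15 = 4) :
    J(x | p) * J(x | 15) =
      if Odd x then (if x % 4 = 1 then 1 else -1) else (if x % 4 = 0 then 1 else -1) := by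
  have hpp : p.Prime := Fact.out
  have hxy := cop hp
  have hx15 := cop15 hp h15
  have hp2 : Odd p := by
    rcases hpp.eq_two_or_odd' with h | h
    · subst h; omega
    · exact h
  have hx0 : x ≠ 0 := by
    rintro rfl
    simp at hx15
  have hgcd : ∀ m : ℕ, m ∣ x → ((15 : ℕ) : ℤ).gcd m = 1 := by
    intro m hm
    rw [Int.gcd_natCast_natCast]
    exact Nat.Coprime.symm (Nat.Coprime.coprime_dvd_left hm hx15)
  split_ifs with h1 h2 h2
  · -- x odd, x = 1 mod 4: p = 1 mod 4
    have hp4 : p % 4 = 1 := by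
      have hy : y % 2 = 0 := by
        by_contra hy
        have : p % 2 = 0 := by
          rw [hp, Nat.add_mod, Nat.pow_mod, Nat.mul_mod, Nat.pow_mod y]
          have hy1 : y % 2 = 1 := by omega
          have hx1 : x % 2 = 1 := Nat.odd_iff.1 h1
          rw [hy1, hx1]
        have := Nat.odd_iff.1 hp2
        omega
      obtain ⟨k, hk⟩ := h1
      obtain ⟨l, hl⟩ : ∃ l, y = 2 * l := ⟨y / 2, by omega⟩
      have : p = 4 * (k ^ 2 + k + 15 * l ^ 2) + 1 := by rw [hp, hk, hl]; ring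
      omega
    have e1 : J(x | p) = J(15 | x) := by
      rw [← jacobiSym.quadratic_reciprocity_one_mod_four hp4 h1]
      exact J_red hp dvd_rfl hxy.symm
    have e2 : J(x | 15) = J(15 | x) := by
      exact_mod_cast jacobiSym.quadratic_reciprocity_one_mod_four (a := x) (b := 15) h2 (by decide)
    rw [e1, e2, ← sq]
    exact jacobiSym.sq_one (hgcd x dvd_rfl)
  · have hp4 : p % 4 = 1 := by
      have hy : y % 2 = 0 := by
        by_contra hy
        have : p % 2 = 0 := by
          rw [hp, Nat.add_mod, Nat.pow_mod, Nat.mul_mod, Nat.pow_mod y]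
          have hy1 : y % 2 = 1 := by omega
          have hx1 : x % 2 = 1 := Nat.odd_iff.1 h1
          rw [hy1, hx1]
        have := Nat.odd_iff.1 hp2
        omega
      obtain ⟨k, hk⟩ := h1
      obtain ⟨l, hl⟩ : ∃ l, y = 2 * l := ⟨y / 2, by omega⟩
      have : p = 4 * (k ^ 2 + k + 15 * l ^ 2) + 1 := by rw [hp, hk, hl]; ring
      omega
    have h3 : x % 4 = 3 := by
      have := Nat.odd_iff.1 h1
      omega
    have e1 : J(x | p) = J(15 | x) := by
      rw [← jacobiSym.quadratic_reciprocity_one_mod_four hp4 h1]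
      exact J_red hp dvd_rfl hxy.symm
    have e2 : J(x | 15) = - J(15 | x) := by
      exact_mod_cast jacobiSym.quadratic_reciprocity_three_mod_four (a := x) (b := 15) h3
        (by norm_num)
    rw [e1, e2]
    have := jacobiSym.sq_one (hgcd x dvd_rfl)
    push_cast at this
    linear_combination -this
  all_goals
    have hxe : Even x := Nat.not_odd_iff_even.1 h1
    have hyo : Odd y := by
      rcases Nat.even_or_odd y with h | h
      · exfalso
        have : 2 ∣ Nat.gcd x y := Nat.dvd_gcd hxe.two_dvd h.two_dvd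
        rw [hxy] at this
        omega
      · exact h
    obtain ⟨j, m, hm, hxm⟩ := Nat.exists_eq_two_pow_mul_odd hx0
    have hmx : m ∣ x := ⟨2 ^ j, by rw [hxm]; ring⟩
    have hym : y.Coprime m := Nat.Coprime.coprime_dvd_right hmx hxy.symm
    have hj : j ≠ 0 := by
      rintro rfl
      simp at hxm
      exact h1 (hxm ▸ hm)
    obtain ⟨k, hk⟩ := hxe
    obtain ⟨l, hl⟩ := hyo
    have hp4 : p % 4 = 3 := by
      have : p = 4 * (k ^ 2 + 15 * (l ^ 2 + l) + 3) + 3 := by rw [hp, hk, hl]; ring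
      omega
    have key : J(m | p) * J(m | 15) = 1 := by
      have hpm : J(p | m) = J(15 | m) := J_red hp hmx hym
      have hsq := jacobiSym.sq_one (hgcd m hmx)
      push_cast at hsq
      rcases Nat.odd_mod_four_iff.1 (Nat.odd_iff.1 hm) with h4 | h4
      · have e1 : J(m | p) = J(p | m) :=
          jacobiSym.quadratic_reciprocity_one_mod_four (a := m) (b := p) h4 hp2
        have e2 : J(m | 15) = J(15 | m) := by
          exact_mod_cast jacobiSym.quadratic_reciprocity_one_mod_four (a := m) (b := 15) h4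
            (by decide)
        rw [e1, e2, hpm, ← sq, hsq]
      · have e1 : J(m | p) = - J(p | m) :=
          jacobiSym.quadratic_reciprocity_three_mod_four (a := m) (b := p) h4 hp4
        have e2 : J(m | 15) = - J(15 | m) := by
          exact_mod_cast jacobiSym.quadratic_reciprocity_three_mod_four (a := m) (b := 15) h4
            (by norm_num)
        rw [e1, e2, hpm]
        linear_combination hsq
    have h215 : J(2 | 15) = 1 := by
      rw [jacobiSym.at_two (by decide)]; decide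
    have hprod : J(x | p) * J(x | 15) = J(2 | p) ^ j := by
      have ex : (x : ℤ) = 2 ^ j * m := by rw [hxm]; push_cast; ring
      rw [ex, jacobiSym.mul_left, jacobiSym.mul_left, jacobiSym.pow_left, jacobiSym.pow_left,
        h215, one_pow]
      linear_combination J(2 | p) ^ j * key
    rw [hprod, chi_p hp2]
  · -- 4 | x : p = 7 mod 8
    have h8 : p % 8 = 7 := by
      obtain ⟨k', hk'⟩ : ∃ k', k = 2 * k' := ⟨k / 2, by omega⟩
      have hl2 : (l ^ 2 + l) % 2 = 0 := by
        rcases Nat.mod_two_eq_zero_or_one l with h | h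
        · rw [Nat.add_mod, Nat.pow_mod, h]
        · rw [Nat.add_mod, Nat.pow_mod, h]
      obtain ⟨t, ht⟩ : ∃ t, l ^ 2 + l = 2 * t := ⟨(l ^ 2 + l) / 2, by omega⟩
      have : p = 8 * (2 * k' ^ 2 + 15 * t + 1) + 7 := by
        have : p = 4 * (k ^ 2 + 15 * (l ^ 2 + l) + 3) + 3 := by rw [hp, hk, hl]; ring
        rw [this, ht, hk']; ring
      omega
    have : χ₈ (p : ZMod 8) = 1 := by
      have e : (p : ZMod 8) = 7 := by
        have := ZMod.natCast_mod p 8
        rw [h8] at this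
        rw [← this]; rfl
      rw [e]; decide
    rw [this, one_pow]
  · have h8 : p % 8 = 3 := by
      obtain ⟨k', hk'⟩ : ∃ k', k = 2 * k' + 1 := ⟨k / 2, by omega⟩
      have hl2 : (l ^ 2 + l) % 2 = 0 := by
        rcases Nat.mod_two_eq_zero_or_one l with h | h
        · rw [Nat.add_mod, Nat.pow_mod, h]
        · rw [Nat.add_mod, Nat.pow_mod, h]
      obtain ⟨t, ht⟩ : ∃ t, l ^ 2 + l = 2 * t := ⟨(l ^ 2 + l) / 2, by omega⟩
      have : p = 8 * (2 * k' ^ 2 + 2 * k' + 15 * t + 2) + 3 := by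
        have : p = 4 * (k ^ 2 + 15 * (l ^ 2 + l) + 3) + 3 := by rw [hp, hk, hl]; ring
        rw [this, ht, hk']; ring
      omega
    have hj1 : j = 1 := by
      by_contra hj1
      apply h2
      obtain ⟨j', rfl⟩ : ∃ j', j = j' + 2 := ⟨j - 2, by omega⟩
      rw [hxm, pow_add]
      have : 2 ^ j' * 2 ^ 2 * m = 4 * (2 ^ j' * m) := by ring
      rw [this]; simp
    have : χ₈ (p : ZMod 8) = -1 := by
      have e : (p : ZMod 8) = 3 := by
        have := ZMod.natCast_mod p 8
        rw [h8] at this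
        rw [← this]; rfl
      rw [e]; decide
    rw [this, hj1, pow_one]

lemma podd (h15 : p % 15 = 1 ∨ p % 15 = 4) : Odd p := by
  have hpp : p.Prime := Fact.out
  rcases hpp.eq_two_or_odd' with h | h
  · subst h; omega
  · exact h

/-- the parity pattern and `p mod 4` -/
lemma par (hp : p = x ^ 2 + 15 * y ^ 2) (h15 : p % 15 = 1 ∨ p % 15 = 4) :
    (x % 2 = 1 ∧ y % 2 = 0 ∧ p % 4 = 1) ∨ (x % 2 = 0 ∧ y % 2 = 1 ∧ p % 4 = 3) := by
  have hp2 := Nat.odd_iff.1 (podd (p := p) h15)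
  rcases Nat.mod_two_eq_zero_or_one x with hx | hx <;>
    rcases Nat.mod_two_eq_zero_or_one y with hy | hy
  · exfalso
    have : p % 2 = 0 := by
      rw [hp, Nat.add_mod, Nat.pow_mod, Nat.mul_mod, Nat.pow_mod y, hx, hy]
    omega
  · right
    obtain ⟨k, hk⟩ : ∃ k, x = 2 * k := ⟨x / 2, by omega⟩
    obtain ⟨l, hl⟩ : ∃ l, y = 2 * l + 1 := ⟨y / 2, by omega⟩
    have : p = 4 * (k ^ 2 + 15 * (l ^ 2 + l) + 3) + 3 := by rw [hp, hk, hl]; ring
    exact ⟨hx, hy, by omega⟩
  · left
    obtain ⟨k, hk⟩ : ∃ k, x = 2 * k + 1 := ⟨x / 2, by omega⟩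
    obtain ⟨l, hl⟩ : ∃ l, y = 2 * l := ⟨y / 2, by omega⟩
    have : p = 4 * (k ^ 2 + k + 15 * l ^ 2) + 1 := by rw [hp, hk, hl]; ring
    exact ⟨hx, hy, by omega⟩
  · exfalso
    have : p % 2 = 0 := by
      rw [hp, Nat.add_mod, Nat.pow_mod, Nat.mul_mod, Nat.pow_mod y, hx, hy]
    omega

/-- `(y/p)` for natural `y` -/
lemma gy (hp : p = x ^ 2 + 15 * y ^ 2) (h15 : p % 15 = 1 ∨ p % 15 = 4) :
    J(y | p) =
      if y % 2 = 0 then (if y % 4 = 0 then 1 else -1) else (if y % 4 = 1 then 1 else -1) := by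
  have hpp : p.Prime := Fact.out
  have hxy := cop hp
  have hp2 := podd (p := p) h15
  have hpar := par hp h15
  have hy0 : y ≠ 0 := by
    rintro rfl
    simp only [ne_eq, OfNat.ofNat_ne_zero, not_false_eq_true, zero_pow, mul_zero, add_zero] at hp
    rw [hp] at hpp
    exact Nat.Prime.not_prime_pow le_rfl hpp
  split_ifs with h1 h2 h2
  · obtain ⟨hx, -, hp4⟩ : x % 2 = 1 ∧ y % 2 = 0 ∧ p % 4 = 1 := by omega
    obtain ⟨j, m, hm, hym⟩ := Nat.exists_eq_two_pow_mul_odd hy0
    have hmy : m ∣ y := ⟨2 ^ j, by rw [hym]; ring⟩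
    have hxm : x.Coprime m := Nat.Coprime.coprime_dvd_right hmy hxy
    have e1 : J(m | p) = 1 := by
      rw [← jacobiSym.quadratic_reciprocity_one_mod_four hp4 hm]
      exact J_red' hp hmy hxm
    have ex : (y : ℤ) = 2 ^ j * m := by rw [hym]; push_cast; ring
    rw [ex, jacobiSym.mul_left, jacobiSym.pow_left, e1, mul_one, chi_p hp2]
    have h8 : p % 8 = 1 := by
      obtain ⟨k, hk⟩ : ∃ k, x = 2 * k + 1 := ⟨x / 2, by omega⟩
      obtain ⟨l, hl⟩ : ∃ l, y = 4 * l := ⟨y / 4, by omega⟩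
      have hl2 : (k ^ 2 + k) % 2 = 0 := by
        rcases Nat.mod_two_eq_zero_or_one k with h | h
        · rw [Nat.add_mod, Nat.pow_mod, h]
        · rw [Nat.add_mod, Nat.pow_mod, h]
      obtain ⟨t, ht⟩ : ∃ t, k ^ 2 + k = 2 * t := ⟨(k ^ 2 + k) / 2, by omega⟩
      have : p = 8 * (t + 30 * l ^ 2) + 1 := by
        have : p = 4 * (k ^ 2 + k) + 1 + 240 * l ^ 2 := by rw [hp, hk, hl]; ring
        rw [this, ht]; ring
      omega
    have : χ₈ (p : ZMod 8) = 1 := by
      have e : (p : ZMod 8) = 1 := by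
        have := ZMod.natCast_mod p 8
        rw [h8] at this
        rw [← this]; rfl
      rw [e]; decide
    rw [this, one_pow]
  · obtain ⟨hx, -, hp4⟩ : x % 2 = 1 ∧ y % 2 = 0 ∧ p % 4 = 1 := by omega
    obtain ⟨j, m, hm, hym⟩ := Nat.exists_eq_two_pow_mul_odd hy0
    have hmy : m ∣ y := ⟨2 ^ j, by rw [hym]; ring⟩
    have hxm : x.Coprime m := Nat.Coprime.coprime_dvd_right hmy hxy
    have e1 : J(m | p) = 1 := by
      rw [← jacobiSym.quadratic_reciprocity_one_mod_four hp4 hm]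
      exact J_red' hp hmy hxm
    have ex : (y : ℤ) = 2 ^ j * m := by rw [hym]; push_cast; ring
    rw [ex, jacobiSym.mul_left, jacobiSym.pow_left, e1, mul_one, chi_p hp2]
    have h8 : p % 8 = 5 := by
      obtain ⟨k, hk⟩ : ∃ k, x = 2 * k + 1 := ⟨x / 2, by omega⟩
      obtain ⟨l, hl⟩ : ∃ l, y = 4 * l + 2 := ⟨y / 4, by omega⟩
      have hl2 : (k ^ 2 + k) % 2 = 0 := by
        rcases Nat.mod_two_eq_zero_or_one k with h | h
        · rw [Nat.add_mod, Nat.pow_mod, h]
        · rw [Nat.add_mod, Nat.pow_mod, h]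
      obtain ⟨t, ht⟩ : ∃ t, k ^ 2 + k = 2 * t := ⟨(k ^ 2 + k) / 2, by omega⟩
      have : p = 8 * (t + 30 * (l ^ 2 + l) + 7) + 5 := by
        have : p = 4 * (k ^ 2 + k) + 1 + 60 * (4 * (l ^ 2 + l) + 1) := by rw [hp, hk, hl]; ring
        rw [this, ht]; ring
      omega
    have hj1 : j = 1 := by
      rcases Nat.lt_or_ge j 2 with h | h
      · interval_cases j
        · exfalso
          have := Nat.odd_iff.1 hm
          simp at hym
          omega
        · rfl
      · exfalso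
        apply h2
        obtain ⟨j', rfl⟩ : ∃ j', j = j' + 2 := ⟨j - 2, by omega⟩
        rw [hym, pow_add]
        have : 2 ^ j' * 2 ^ 2 * m = 4 * (2 ^ j' * m) := by ring
        rw [this]; simp
    have : χ₈ (p : ZMod 8) = -1 := by
      have e : (p : ZMod 8) = 5 := by
        have := ZMod.natCast_mod p 8
        rw [h8] at this
        rw [← this]; rfl
      rw [e]; decide
    rw [this, hj1, pow_one]
  · have hyo : Odd y := Nat.odd_iff.2 (by omega)
    rw [jacobiSym.quadratic_reciprocity_one_mod_four (a := y) (b := p) h2 hp2]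
    exact J_red' hp dvd_rfl hxy
  · obtain ⟨hx, -, hp4⟩ : x % 2 = 0 ∧ y % 2 = 1 ∧ p % 4 = 3 := by omega
    rw [jacobiSym.quadratic_reciprocity_three_mod_four (a := y) (b := p) (by omega) hp4]
    rw [J_red' hp dvd_rfl hxy]

end

lemma chi4_one {p : ℕ} (h : p % 4 = 1) : χ₄ (p : ZMod 4) = 1 := by
  have e : (p : ZMod 4) = 1 := by
    have := ZMod.natCast_mod p 4
    rw [h] at this
    rw [← this]; rfl
  rw [e]; decide

lemma chi4_three {p : ℕ} (h : p % 4 = 3) : χ₄ (p : ZMod 4) = -1 := by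
  have e : (p : ZMod 4) = 3 := by
    have := ZMod.natCast_mod p 4
    rw [h] at this
    rw [← this]; rfl
  rw [e]; decide

section
variable {p : ℕ} [Fact p.Prime] {x y : ℤ}

omit [Fact p.Prime] in
lemma natForm (hp : (p : ℤ) = x ^ 2 + 15 * y ^ 2) : p = x.natAbs ^ 2 + 15 * y.natAbs ^ 2 := by
  zify
  rw [sq_abs, sq_abs, hp]

lemma Fx (hp : (p : ℤ) = x ^ 2 + 15 * y ^ 2) (h15 : p % 15 = 1 ∨ p % 15 = 4) :
    J(x | p) * J(x | 15) =
      if x % 2 = 1 then (if x % 4 = 1 then 1 else -1) else (if x % 4 = 0 then 1 else -1) := by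
  have hn := natForm hp
  have h1 := fx hn h15
  have hpar := par hn h15
  have hp2 := podd (p := p) h15
  rcases Int.natAbs_eq x with hx | hx
  · rw [← hx] at h1
    rw [h1]
    simp only [Nat.odd_iff]
    split_ifs <;> first | rfl | (exfalso; omega)
  · rw [hx, jacobiSym.neg _ hp2, jacobiSym.neg _ (by decide)]
    have e15 : χ₄ ((15 : ℕ) : ZMod 4) = -1 := by decide
    rw [e15]
    have e : χ₄ (p : ZMod 4) * J(x.natAbs | p) * (-1 * J(x.natAbs | 15))
        = -χ₄ (p : ZMod 4) * (J(x.natAbs | p) * J(x.natAbs | 15)) := by ring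
    rw [e, h1]
    simp only [Nat.odd_iff]
    rcases hpar with ⟨ha, hb, hc⟩ | ⟨ha, hb, hc⟩
    · rw [chi4_one hc]
      split_ifs <;> first | rfl | (exfalso; omega)
    · rw [chi4_three hc]
      split_ifs <;> first | rfl | (exfalso; omega)

lemma Gy (hp : (p : ℤ) = x ^ 2 + 15 * y ^ 2) (h15 : p % 15 = 1 ∨ p % 15 = 4) :
    J(y | p) =
      if y % 2 = 0 then (if y % 4 = 0 then 1 else -1) else (if y % 4 = 1 then 1 else -1) := by
  have hn := natForm hp
  have h1 := gy hn h15
  have hpar := par hn h15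
  have hp2 := podd (p := p) h15
  rcases Int.natAbs_eq y with hy | hy
  · rw [← hy] at h1
    rw [h1]
    split_ifs <;> first | rfl | (exfalso; omega)
  · rw [hy, jacobiSym.neg _ hp2, h1]
    rcases hpar with ⟨ha, hb, hc⟩ | ⟨ha, hb, hc⟩
    · rw [chi4_one hc]
      split_ifs <;> first | rfl | (exfalso; omega)
    · rw [chi4_three hc]
      split_ifs <;> first | rfl | (exfalso; omega)

end

end P8

open P8 in
/-- P8 -/
theorem sign_lemma {p : ℕ} [Fact p.Prime] (hp : p % 15 = 1 ∨ p % 15 = 4) (x y : ℤ)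
    (hxy : (p : ℤ) = x ^ 2 + 15 * y ^ 2) (s : ZMod p) (hs : (x : ZMod p) + y * s = 0) :
    quadraticChar (ZMod p) (-s) * jacobiSym x 15 = if (x + y) % 4 = 1 then 1 else -1 := by
  have hF := Fx hxy hp
  have hG := Gy hxy hp
  have hpar := par (natForm hxy) hp
  have e1 : quadraticChar (ZMod p) (-s) * quadraticChar (ZMod p) (y : ZMod p)
      = quadraticChar (ZMod p) (x : ZMod p) := by
    rw [← map_mul]
    congr 1
    linear_combination -hs
  have e2 : quadraticChar (ZMod p) (x : ZMod p) = jacobiSym x p := by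
    rw [← jacobiSym.legendreSym.to_jacobiSym]; rfl
  have e3 : quadraticChar (ZMod p) (y : ZMod p) = jacobiSym y p := by
    rw [← jacobiSym.legendreSym.to_jacobiSym]; rfl
  have hG2 : jacobiSym y p * jacobiSym y p = 1 := by
    rw [hG]
    split_ifs <;> norm_num
  rw [e3, e2] at e1
  have e4 : quadraticChar (ZMod p) (-s) = jacobiSym x p * jacobiSym y p := by
    calc quadraticChar (ZMod p) (-s)
        = quadraticChar (ZMod p) (-s) * (jacobiSym y p * jacobiSym y p) := by rw [hG2, mul_one]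
      _ = _ := by rw [← mul_assoc, e1]
  rw [e4]
  have e5 : jacobiSym x p * jacobiSym y p * jacobiSym x 15
      = (jacobiSym x p * jacobiSym x 15) * jacobiSym y p := by ring
  rw [e5, hF, hG]
  split_ifs <;> first | rfl | (exfalso; omega)

end Pool.Agent.DF49E3
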