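import Mathlib
import Pool.Agent.DF49E3.Defs
import Pool.Agent.DF49E3.P1
import Pool.Agent.DF49E3.P2
import Pool.Agent.DF49E3.P3
import Pool.Agent.DF49E3.P4
import Pool.Agent.DF49E3.P5
import Pool.Agent.DF49E3.P5i
import Pool.Agent.DF49E3.P6
import Pool.Agent.DF49E3.P7
import Pool.Agent.DF49E3.P8
import Pool.Agent.DF49E3.P9

set_option autoImplicit false

namespace Pool.Agent.DF49E3.P10

open PowerSeries

variable {p : ℕ} [Fact p.Prime]

/-- the embedding of coefficients -/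
noncomputable abbrev φ (p : ℕ) [Fact p.Prime] : ℤ_[p] →+* ℚ_[p] := algebraMap ℤ_[p] ℚ_[p]

/-- solvable and rational multipliers -/
def RS (a : ℤ_[p]) (w : ℤ_[p]⟦X⟧) (α : ℤ_[p]) : Prop :=
  ∃ R S : ℤ_[p]⟦X⟧, Sol a w α R S ∧ ∃ f g : RatFunc ℚ_[p],
    IsRat (PowerSeries.map (φ p) w) (PowerSeries.map (φ p) R) (PowerSeries.map (φ p) S) f g

theorem RS.zero {a : ℤ_[p]} {w : ℤ_[p]⟦X⟧} : RS a w 0 :=
  ⟨0, 1, Sol.zero, 0, 0, by simp [IsRat]⟩

theorem RS.one {a : ℤ_[p]} {w : ℤ_[p]⟦X⟧} (hb : Base a w) : RS a w 1 := by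
  refine ⟨X, w, Sol.one hb, RatFunc.X * 1 ^ 2, 1 * 1, ?_⟩
  have := (odd_one (w := PowerSeries.map (φ p) w)).isRat
  simpa using this

theorem RS.neg {a : ℤ_[p]} {w : ℤ_[p]⟦X⟧} {α : ℤ_[p]} (h : RS a w α) : RS a w (-α) := by
  obtain ⟨R, S, h1, f, g, h2, h3⟩ := h
  refine ⟨-R, S, h1.neg, f, -g, ?_, ?_⟩
  · simpa using h2
  · simp only [map_neg, neg_mul, mul_neg]
    rw [h3]

theorem map_C' (c : ℤ_[p]) : PowerSeries.map (φ p) (C c) = C (φ p c) := by simp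

theorem RS.add {a : ℤ_[p]} {w : ℤ_[p]⟦X⟧} (hb : Base a w) {α β : ℤ_[p]} (h : RS a w α)
    (h' : RS a w β) : RS a w (α + β) := by
  obtain ⟨R, S, h1, f, g, h2⟩ := h
  obtain ⟨R', S', h1', f', g', h2'⟩ := h'
  obtain ⟨R₃, S₃, h3, h4, h5⟩ := h1.add h1'
  refine ⟨R₃, S₃, h3, ?_⟩
  have e4 := congrArg (PowerSeries.map (φ p)) h4
  have e5 := congrArg (PowerSeries.map (φ p)) h5
  simp only [map_mul, map_sub, map_one, map_pow, map_add, map_C, map_ofNat] at e4 e5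
  refine IsRat.add (hb.map (φ p)) (h1.map (φ p)) (h1'.map (φ p)) (h3.map (φ p)) ?_ ?_ h2 h2'
  · simpa using e4
  · have hC : (C (2 : ℚ_[p]) : ℚ_[p]⟦X⟧) = 2 := map_ofNat C 2
    simpa [hC] using e5

theorem RS.all {a : ℤ_[p]} {w : ℤ_[p]⟦X⟧} (hb : Base a w) {β : ℤ_[p]} (h : RS a w β) (u v : ℤ) :
    RS a w (u + v * β) := by
  let G : AddSubgroup ℤ_[p] :=
    { carrier := {α | RS a w α}
      add_mem' := fun h h' => RS.add hb h h'
      zero_mem' := RS.zero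
      neg_mem' := fun h => RS.neg h }
  have h1 : (1 : ℤ_[p]) ∈ G := RS.one hb
  have h2 : β ∈ G := h
  have h3 := G.add_mem (G.zsmul_mem h1 u) (G.zsmul_mem h2 v)
  have h4 : ((u : ℤ_[p]) + v * β) ∈ G := by simpa [zsmul_eq_mul] using h3
  exact h4

/-- odd multipliers with their sign -/
def OS (a : ℤ_[p]) (w : ℤ_[p]⟦X⟧) (α : ℤ_[p]) (ρ : ℚ_[p]) : Prop :=
  ∃ R S : ℤ_[p]⟦X⟧, Sol a w α R S ∧ ∃ r s : RatFunc ℚ_[p],
    OddS (PowerSeries.map (φ p) w) (PowerSeries.map (φ p) R) (PowerSeries.map (φ p) S) r s ρ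

/-- even multipliers with their sign -/
def ES (a : ℤ_[p]) (w : ℤ_[p]⟦X⟧) (α : ℤ_[p]) (c : ℚ_[p]) : Prop :=
  ∃ R S : ℤ_[p]⟦X⟧, Sol a w α R S ∧ ∃ r s : RatFunc ℚ_[p],
    EvenS (φ p a) (PowerSeries.map (φ p) w) (PowerSeries.map (φ p) R)
      (PowerSeries.map (φ p) S) r s c

theorem ES.rs {a : ℤ_[p]} {w : ℤ_[p]⟦X⟧} (hb : Base a w) {α : ℤ_[p]} {c : ℚ_[p]}
    (h : ES a w α c) : RS a w α := by
  obtain ⟨R, S, h1, r, s, h2⟩ := h
  exact ⟨R, S, h1, _, _, h2.isRat (hb.map (φ p))⟩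

theorem OS.one {a : ℤ_[p]} {w : ℤ_[p]⟦X⟧} (hb : Base a w) : OS a w 1 1 := by
  refine ⟨X, w, Sol.one hb, 1, 1, ?_⟩
  simpa using odd_one (w := PowerSeries.map (φ p) w)

theorem ES.neg {a : ℤ_[p]} {w : ℤ_[p]⟦X⟧} {α : ℤ_[p]} {c : ℚ_[p]} (h : ES a w α c) :
    ES a w (-α) c := by
  obtain ⟨R, S, h1, r, s, h2⟩ := h
  refine ⟨-R, S, h1.neg, -r, s, ?_⟩
  simpa using h2.neg

theorem OS.add {a : ℤ_[p]} {w : ℤ_[p]⟦X⟧} (ha : (φ p a) ^ 2 ≠ 1) (hb : Base a w)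
    {α β : ℤ_[p]} {ρ c : ℚ_[p]} (h : OS a w α ρ) (h' : ES a w β c) : OS a w (α + β) (ρ * c) := by
  obtain ⟨R, S, h1, f, g, h2⟩ := h
  obtain ⟨R', S', h1', f', g', h2'⟩ := h'
  obtain ⟨R₃, S₃, h3, h4, h5⟩ := h1.add h1'
  refine ⟨R₃, S₃, h3, ?_⟩
  have e4 := congrArg (PowerSeries.map (φ p)) h4
  have e5 := congrArg (PowerSeries.map (φ p)) h5
  simp only [map_mul, map_sub, map_one, map_pow, map_add, map_C, map_ofNat] at e4 e5
  refine OddS.add_even ha (hb.map (φ p)) (h1.map (φ p)) (h1'.map (φ p)) (h3.map (φ p)) ?_ ?_ h2 h2'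
  · simpa using e4
  · have hC : (C (2 : ℚ_[p]) : ℚ_[p]⟦X⟧) = 2 := map_ofNat C 2
    simpa [hC] using e5

theorem ES.two {a : ℤ_[p]} {w : ℤ_[p]⟦X⟧} (ha : φ p a ≠ 1) (hb : Base a w) : ES a w 2 (-1) := by
  obtain ⟨R₃, S₃, h3, h4, h5⟩ := (Sol.one hb).add (Sol.one hb)
  have h3' : Sol a w 2 R₃ S₃ := by
    have : (1 : ℤ_[p]) + 1 = 2 := by norm_num
    rwa [this] at h3
  have h6 := h3'.map (φ p)
  have h7 : φ p (2 : ℤ_[p]) = 2 := map_ofNat _ 2
  rw [h7] at h6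
  obtain ⟨r, s, h8⟩ := exists_two ha (hb.map (φ p)) h6
  exact ⟨R₃, S₃, h3', r, s, h8⟩

theorem OS.step {a : ℤ_[p]} {w : ℤ_[p]⟦X⟧} (ha : (φ p a) ^ 2 ≠ 1) (hb : Base a w)
    {α : ℤ_[p]} {ρ : ℚ_[p]} (h : OS a w α ρ) (n : ℤ) :
    OS a w (α + 2 * n) (ρ * (if n % 2 = 0 then 1 else -1)) := by
  have ha1 : φ p a ≠ 1 := by
    intro h; apply ha; rw [h]; norm_num
  have h2 := ES.two ha1 hb
  induction n using Int.induction_on with
  | zero => simpa using h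
  | succ n ih =>
    have := OS.add ha hb ih h2
    have e1 : α + 2 * ((n : ℤ) : ℤ_[p]) + 2 = α + 2 * (((n : ℤ) + 1 : ℤ) : ℤ_[p]) := by
      push_cast; ring
    rw [e1] at this
    convert this using 1
    by_cases hn : (n : ℤ) % 2 = 0
    · have h7 : ¬ ((n : ℤ) + 1) % 2 = 0 := by omega
      rw [if_pos hn, if_neg h7]; ring
    · have h7 : ((n : ℤ) + 1) % 2 = 0 := by omega
      rw [if_neg hn, if_pos h7]; ring
  | pred n ih =>
    have := OS.add ha hb ih h2.neg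
    have e1 : α + 2 * ((-(n : ℤ) : ℤ) : ℤ_[p]) + -2 = α + 2 * ((-(n : ℤ) - 1 : ℤ) : ℤ_[p]) := by
      push_cast; ring
    rw [e1] at this
    convert this using 1
    by_cases hn : (-(n : ℤ)) % 2 = 0
    · have h7 : ¬ (-(n : ℤ) - 1) % 2 = 0 := by omega
      rw [if_pos hn, if_neg h7]; ring
    · have h7 : (-(n : ℤ) - 1) % 2 = 0 := by omega
      rw [if_neg hn, if_pos h7]; ring

theorem OS.stepβ {a : ℤ_[p]} {w : ℤ_[p]⟦X⟧} (ha : (φ p a) ^ 2 ≠ 1) (hb : Base a w)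
    {α β : ℤ_[p]} {ρ : ℚ_[p]} (h : OS a w α ρ) (hβ : ES a w β 1) (n : ℤ) :
    OS a w (α + n * β) ρ := by
  induction n using Int.induction_on with
  | zero => simpa using h
  | succ n ih =>
    have := OS.add ha hb ih hβ
    have e1 : α + ((n : ℤ) : ℤ_[p]) * β + β = α + (((n : ℤ) + 1 : ℤ) : ℤ_[p]) * β := by
      push_cast; ring
    rw [e1, mul_one] at this
    exact this
  | pred n ih =>
    have := OS.add ha hb ih hβ.neg
    have e1 : α + ((-(n : ℤ) : ℤ) : ℤ_[p]) * β + -β = α + ((-(n : ℤ) - 1 : ℤ) : ℤ_[p]) * β := by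
      push_cast; ring
    rw [e1, mul_one] at this
    exact this

theorem OS.all {a : ℤ_[p]} {w : ℤ_[p]⟦X⟧} (ha : (φ p a) ^ 2 ≠ 1) (hb : Base a w)
    {β : ℤ_[p]} (hβ : ES a w β 1) (u v : ℤ) (hu : u % 2 = 1) :
    OS a w (u + v * β) (if u % 4 = 1 then 1 else -1) := by
  obtain ⟨m, hm⟩ : ∃ m, u = 1 + 2 * m := ⟨(u - 1) / 2, by omega⟩
  have h1 := OS.stepβ ha hb (OS.step ha hb (OS.one hb) m) hβ v
  have e1 : (1 : ℤ_[p]) + 2 * (m : ℤ_[p]) = (u : ℤ_[p]) := by rw [hm]; push_cast; ring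
  rw [e1] at h1
  convert h1 using 1
  by_cases h : m % 2 = 0
  · have : u % 4 = 1 := by omega
    simp [h, this]
  · have : ¬ u % 4 = 1 := by omega
    simp [h, this]

theorem isUnit_nat (n : ℕ) (h : Nat.Coprime p n) : IsUnit (n : ℤ_[p]) := by
  rw [PadicInt.isUnit_iff]
  exact PadicInt.norm_natCast_eq_one_iff.2 h

theorem legSum_main (hp : p % 15 = 1 ∨ p % 15 = 4) (x y : ℤ)
    (hxy : (p : ℤ) = x ^ 2 + 15 * y ^ 2) (s t : ℤ_[p]) (hs : s ^ 2 = -15) (ht2 : t ^ 2 = -3) :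
    ∃ z : ℤ_[p], legSum ((p - 1) / 2) ((7 * s + 16 * t : ℤ_[p]) : ℚ_[p]) -
      ((quadraticChar (ZMod p) (PadicInt.toZMod (-s)) : ℤ) : ℚ_[p]) *
        ((jacobiSym x 15 : ℤ) : ℚ_[p]) * (2 * (x : ℚ_[p]) - (p : ℚ_[p]) / (2 * (x : ℚ_[p]))) =
      (p : ℚ_[p]) ^ 2 * (z : ℚ_[p]) := by
  have hpp : p.Prime := Fact.out
  have hp5 : 5 ≤ p := by
    have := hpp.two_le
    by_contra hcon
    have : p ≤ 4 := by omega
    interval_cases p <;> first | omega | exact absurd hpp (by norm_num)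
  have hp2 : p ≠ 2 := by omega
  have hodd : p % 2 = 1 := by
    rcases hpp.eq_two_or_odd with h | h
    · omega
    · exact h
  obtain ⟨n, hn⟩ : ∃ n, p = 2 * n + 1 := ⟨p / 2, by omega⟩
  have hn' : (p - 1) / 2 = n := by omega
  -- the algebraic data
  obtain ⟨h, hh⟩ : ∃ h : ℤ_[p], 2 * h = 1 := by
    have h2 : IsUnit ((2 : ℕ) : ℤ_[p]) := isUnit_nat 2 ((Nat.coprime_primes hpp Nat.prime_two).2 hp2)
    obtain ⟨h, hh⟩ := h2.exists_right_inv
    exact ⟨h, by simpa using hh⟩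
  obtain ⟨t', ht'⟩ : ∃ t' : ℤ_[p], t * t' = 1 := by
    have h3 : IsUnit ((3 : ℕ) : ℤ_[p]) :=
      isUnit_nat 3 ((Nat.coprime_primes hpp Nat.prime_three).2 (by omega))
    obtain ⟨c, hc⟩ := h3.exists_right_inv
    refine ⟨-(t * c), ?_⟩
    have hc' : (3 : ℤ_[p]) * c = 1 := by simpa using hc
    linear_combination hc' - c * ht2
  obtain ⟨f, hf⟩ : ∃ f, f = s * t' := ⟨_, rfl⟩
  have hft : f * t = s := by rw [hf]; linear_combination s * ht'
  have hf2 : f ^ 2 = 5 := by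
    have h1 : t ^ 2 * t' ^ 2 = 1 := by
      have := congrArg (· ^ 2) ht'
      simp only [mul_pow, one_pow] at this
      exact this
    rw [hf, mul_pow, hs]
    rw [ht2] at h1
    linear_combination 5 * h1
  obtain ⟨θ, hθ⟩ : ∃ θ, θ = h * (f - t) := ⟨_, rfl⟩
  obtain ⟨ω, hω⟩ : ∃ ω, ω = h * (1 - s) := ⟨_, rfl⟩
  have hθ2 : θ ^ 2 = ω := by
    rw [hθ, hω]
    linear_combination h ^ 2 * hf2 + h ^ 2 * ht2 - 2 * h ^ 2 * hft + h * (1 - s) * hh
  have hω2 : ω ^ 2 - ω + 4 = 0 := by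
    rw [hω]
    linear_combination h ^ 2 * hs - ((7 + s) * h + 4) * hh
  obtain ⟨η, hη⟩ : ∃ η, η = 1 + θ := ⟨_, rfl⟩
  have hηp : η ^ 4 - 4 * η ^ 3 + 5 * η ^ 2 - 2 * η + 4 = 0 := by
    rw [hη]
    linear_combination (θ ^ 2 + ω - 1) * hθ2 + hω2
  obtain ⟨a, ha⟩ : ∃ a, a = 7 * s + 16 * t := ⟨_, rfl⟩
  have hfs : f * s = 5 * t := by rw [← hft]; linear_combination t * hf2
  have hts : t * s = -3 * f := by rw [← hft]; linear_combination f * ht2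
  have haη : a = 1 - 2 * η ^ 4 := by
    have e1 : 1 - 2 * η ^ 4 = 7 - 14 * ω - 8 * θ * (1 + ω) := by
      have : 1 - 2 * η ^ 4 = 9 - 8 * η ^ 3 + 10 * η ^ 2 - 4 * η := by
        linear_combination (-2) * hηp
      rw [this, hη]
      linear_combination (-14 - 8 * θ) * hθ2
    rw [e1, ha, hω, hθ]
    linear_combination (7 * (1 - s) + (f - t) * (4 + 2 * (1 - s) * (2 * h + 1))) * hh -
      2 * hfs + 2 * hts
  have hβ : 2 * (η - 1) ^ 2 = 1 - s := by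
    have e1 : η - 1 = θ := by rw [hη]; ring
    rw [e1, hθ2, hω]
    linear_combination (1 - s) * hh
  -- the base series
  obtain ⟨w, G, hb, hwG, hG, -⟩ := exists_base hp2 a
  have hES : ES a w (1 - s) 1 := by
    obtain ⟨R, S, r, s', h1, h2⟩ := exists_gen hp2 a η hηp haη w hb
    rw [hβ] at h1
    exact ⟨R, S, h1, r, s', h2⟩
  have hRS : RS a w (1 - s) := hES.rs hb
  have hch : ∀ m : ℕ, m ≠ 0 → (m : ℤ_[p]) ≠ 0 := fun m hm => Nat.cast_ne_zero.2 hm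
  have ha1 : a ^ 2 ≠ 1 := by
    intro h1
    have h2 : a ^ 2 = -1503 - 672 * f := by
      rw [ha]
      linear_combination 49 * hs + 256 * ht2 + 224 * hts
    have h3 : (672 : ℤ_[p]) * f = -1504 := by linear_combination h2 - h1
    have h4 : (672 : ℤ_[p]) ^ 2 * 5 = 1504 ^ 2 := by
      rw [← hf2, ← mul_pow, h3]; ring
    have h5 : ((672 ^ 2 * 5 : ℕ) : ℤ_[p]) = ((1504 ^ 2 : ℕ) : ℤ_[p]) := by
      simp only [Nat.cast_mul, Nat.cast_pow, Nat.cast_ofNat]; exact h4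
    have h6 := Nat.cast_injective h5
    norm_num at h6
  have ha1' : (φ p a) ^ 2 ≠ 1 := by
    intro h1
    apply ha1
    have h2 : φ p (a ^ 2) = φ p 1 := by rw [map_pow, h1, map_one]
    exact (FaithfulSMul.algebraMap_injective ℤ_[p] ℚ_[p]) h2
  -- the choice of the sign of `y`
  obtain ⟨y', hy', hdvd⟩ : ∃ y' : ℤ, (p : ℤ) = x ^ 2 + 15 * y' ^ 2 ∧
      (p : ℤ_[p]) ∣ (x : ℤ_[p]) + y' * s := by
    have h1 : ((x : ℤ_[p]) + y * s) * (x + (-y : ℤ) * s) = p := by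
      have h2 : (p : ℤ_[p]) = x ^ 2 + 15 * y ^ 2 := by
        have := congrArg (Int.cast : ℤ → ℤ_[p]) hxy
        push_cast at this
        exact this
      rw [h2]; push_cast
      linear_combination -(y : ℤ_[p]) ^ 2 * hs
    have h2 : (p : ℤ_[p]) ∣ ((x : ℤ_[p]) + y * s) * (x + (-y : ℤ) * s) := by rw [h1]
    rcases (PadicInt.prime_p (p := p)).dvd_or_dvd h2 with h3 | h3
    · exact ⟨y, hxy, h3⟩
    · exact ⟨-y, by rw [hxy]; ring, h3⟩
  obtain ⟨c, hc⟩ := hdvd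
  obtain ⟨α, hα⟩ : ∃ α : ℤ_[p], α = x + y' * s := ⟨_, rfl⟩
  obtain ⟨β, hβ'⟩ : ∃ β : ℤ_[p], β = x - y' * s := ⟨_, rfl⟩
  have hp' : (p : ℤ_[p]) = x ^ 2 + 15 * y' ^ 2 := by
    have := congrArg (Int.cast : ℤ → ℤ_[p]) hy'
    push_cast at this
    exact this
  have hαβ : α * β = p := by
    rw [hα, hβ', hp']
    linear_combination -(y' : ℤ_[p]) ^ 2 * hs
  have hp0 : (p : ℤ_[p]) ≠ 0 := hch p hpp.ne_zero
  have hcβ : c * β = 1 := by
    have : (p : ℤ_[p]) * (c * β) = p * 1 := by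
      rw [← mul_assoc, ← hc, ← hα, hαβ, mul_one]
    exact mul_left_cancel₀ hp0 this
  have hβu : IsUnit β := IsUnit.of_mul_eq_one c (by rw [mul_comm]; exact hcβ)
  have hx2 : IsUnit (2 * (x : ℤ_[p])) := by
    have h1 : 2 * (x : ℤ_[p]) = β + p * c := by rw [← hc, hβ']; ring
    rw [h1]
    by_contra h2
    have h3 : (p : ℤ_[p]) ∣ β + p * c := by
      rw [← PadicInt.norm_lt_one_iff_dvd]
      exact PadicInt.not_isUnit_iff.1 h2
    have h4 : (p : ℤ_[p]) ∣ β := (dvd_add_left (Dvd.intro c rfl)).1 h3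
    exact (PadicInt.prime_p (p := p)).not_isUnit (isUnit_of_dvd_unit h4 hβu)
  have hpar : (x + y') % 2 = 1 := by
    have h1 : (x ^ 2 + 15 * y' ^ 2) % 2 = 1 := by rw [← hy']; omega
    rcases Int.emod_two_eq_zero_or_one x with h2 | h2 <;>
      rcases Int.emod_two_eq_zero_or_one y' with h3 | h3
    · exfalso
      obtain ⟨x', rfl⟩ := Int.dvd_of_emod_eq_zero h2
      obtain ⟨y'', rfl⟩ := Int.dvd_of_emod_eq_zero h3
      have : ((2 * x') ^ 2 + 15 * (2 * y'') ^ 2) % 2 = 0 := by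
        have : (2 * x') ^ 2 + 15 * (2 * y'') ^ 2 = 2 * (2 * x' ^ 2 + 30 * y'' ^ 2) := by ring
        omega
      omega
    · omega
    · omega
    · exfalso
      have h4 : x = 2 * (x / 2) + 1 := by omega
      have h5 : y' = 2 * (y' / 2) + 1 := by omega
      have : x ^ 2 + 15 * y' ^ 2 = 2 * (2 * (x / 2) ^ 2 + 2 * (x / 2) + 30 * (y' / 2) ^ 2 +
        30 * (y' / 2) + 8) := by
        rw [h4, h5]
        have e1 : (2 * (x / 2) + 1) / 2 = x / 2 := by omega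
        have e2 : (2 * (y' / 2) + 1) / 2 = y' / 2 := by omega
        rw [e1, e2]; ring
      omega
  obtain ⟨ρ, hρ⟩ : ∃ ρ : ℚ_[p], ρ = if (x + y') % 4 = 1 then 1 else -1 := ⟨_, rfl⟩
  have hOS : OS a w α ρ := by
    have h1 := OS.all ha1' hb hES (x + y') (-y') hpar
    rw [← hρ] at h1
    have e1 : (((x + y' : ℤ) : ℤ_[p]) + ((-y' : ℤ) : ℤ_[p]) * (1 - s)) = α := by
      rw [hα]; push_cast; ring
    rwa [e1] at h1
  obtain ⟨R, S, hsol, r, s', hodd'⟩ := hOS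
  -- the degree
  have hfam : ∀ u v : ℤ, ∃ (R S : ℚ_[p]⟦X⟧) (f g : RatFunc ℚ_[p]),
      Sol (φ p a) (PowerSeries.map (φ p) w) (u + v * φ p s) R S ∧
      IsRat (PowerSeries.map (φ p) w) R S f g := by
    intro u v
    obtain ⟨R, S, h1, f, g, h2⟩ := RS.all hb hRS (u + v) (-v)
    refine ⟨_, _, f, g, ?_, h2⟩
    have h3 := h1.map (φ p)
    have e1 : φ p (((u + v : ℤ) : ℤ_[p]) + ((-v : ℤ) : ℤ_[p]) * (1 - s)) =
        u + v * φ p s := by
      simp only [map_add, map_mul, map_sub, map_one, map_neg, map_intCast, Int.cast_add,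
        Int.cast_neg]
      ring
    rw [e1] at h3
    exact h3
  choose R' S' f' g' hR'1 hR'2 using hfam
  have hσ : (φ p s) ^ 2 = -15 := by
    rw [← map_pow, hs, map_neg, map_ofNat]
  have hdeg := ht_norm ha1' (hb.map (φ p)) (φ p s) hσ R' S' f' g' hR'1 hR'2 x y'
  have hR'' : R' x y' = PowerSeries.map (φ p) R ∧ S' x y' = PowerSeries.map (φ p) S := by
    have h1 := hsol.map (φ p)
    have e1 : φ p α = x + y' * φ p s := by
      rw [hα]; simp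
    rw [e1] at h1
    exact Sol.unique (hb.map (φ p)) (hR'1 x y') h1
  have hff : f' x y' = RatFunc.X * r ^ 2 := by
    apply jj_injective
    rw [← (hR'2 x y').1, ← hodd'.isRat.1, hR''.1]
  have hht : ht (RatFunc.X * r ^ 2) = 2 * n + 1 := by
    rw [← hff]
    have : (ht (f' x y') : ℤ) = (p : ℤ) := by rw [hdeg, hy']
    omega
  obtain ⟨D, hD1, hD2, hD3⟩ := extract_D hodd' n hht
  obtain ⟨z, hz⟩ := final_congr n hn hp5 a α β w G R S hb hwG hG hsol hαβ hβu D hD1 hD2 ρ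
    hodd'.sq hD3
  -- the sign
  have hsign : ((quadraticChar (ZMod p) (PadicInt.toZMod (-s)) : ℤ) : ℚ_[p]) *
        ((jacobiSym x 15 : ℤ) : ℚ_[p]) = ρ := by
    have h1 : (x : ZMod p) + y' * PadicInt.toZMod s = 0 := by
      have h2 := congrArg (PadicInt.toZMod (p := p)) hc
      simp only [map_add, map_mul, map_intCast, map_natCast, CharP.cast_eq_zero, zero_mul] at h2
      exact h2
    have h2 := sign_lemma hp x y' hy' _ h1
    rw [map_neg, hρ]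
    rw [← Int.cast_mul, h2]
    split_ifs <;> simp
  rw [hn', hsign, ← ha]
  obtain ⟨e, he⟩ := hx2.exists_right_inv
  refine ⟨z - (if (x + y') % 4 = 1 then 1 else -1) * c ^ 2 * e, ?_⟩
  have he' : (2 * (x : ℚ_[p])) * (e : ℚ_[p]) = 1 := by
    have := congrArg (φ p) he
    simp only [map_mul, map_ofNat, map_intCast, map_one] at this
    exact this
  have hx0 : 2 * (x : ℚ_[p]) ≠ 0 := left_ne_zero_of_mul_eq_one he'
  have hdiv : (p : ℚ_[p]) / (2 * (x : ℚ_[p])) = p * e := by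
    rw [div_eq_iff hx0]; linear_combination -(p : ℚ_[p]) * he'
  have hρ' : (((if (x + y') % 4 = 1 then 1 else -1 : ℤ_[p])) : ℚ_[p]) = ρ := by
    rw [hρ]; split_ifs <;> simp
  have hβQ : (β : ℚ_[p]) = 2 * x - p * c := by
    have h1 : β = 2 * x - p * c := by rw [← hc, hβ']; ring
    have := congrArg (φ p) h1
    simp only [map_mul, map_sub, map_ofNat, map_intCast, map_natCast] at this
    exact this
  have hcβQ : (c : ℚ_[p]) * (β : ℚ_[p]) = 1 := by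
    have := congrArg (φ p) hcβ
    simp only [map_mul, map_one] at this
    exact this
  rw [hdiv]
  have e1 : ((z - (if (x + y') % 4 = 1 then 1 else -1) * c ^ 2 * e : ℤ_[p]) : ℚ_[p]) =
      z - ρ * c ^ 2 * e := by
    rw [← hρ']; push_cast; ring
  rw [e1]
  -- legSum - ρ (2x - p e) = p² z + ρ β - ρ (2 x - p e)
  have e2 : legSum n (a : ℚ_[p]) = (p : ℚ_[p]) ^ 2 * (z : ℚ_[p]) + ρ * (β : ℚ_[p]) := by
    rw [← hz]; ring
  rw [e2, hβQ]
  have e3 : (p : ℚ_[p]) * e - p * c = - (p : ℚ_[p]) ^ 2 * c ^ 2 * e := by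
    have h1 : (c : ℚ_[p]) * (2 * x - p * c) = 1 := by rw [← hβQ]; exact hcβQ
    linear_combination (-(p : ℚ_[p]) * e) * h1 + (p : ℚ_[p]) * c * he'
  linear_combination ρ * e3

end Pool.Agent.DF49E3.P10
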